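import Mathlib

/-!
Symmetric squares: the formal algebra of the third order operator in a differential ring.
-/

set_option autoImplicit false
set_option linter.unusedSectionVars false
set_option linter.unusedSimpArgs false
set_option linter.unusedVariables false

namespace Pool.Agent.H78.FS

section alg

variable {S R : Type*} [CommRing S] [CommRing R] [Algebra S R] (δ : Derivation S R R)

/-- twisted derivation -/
def nab (ω f : R) : R := δ f + ω * f

/-- the third order operator -/
def LL (q ω f : R) : R :=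
  nab δ ω (nab δ ω (nab δ ω f)) + 4 * q * nab δ ω f + 2 * δ q * f

/-- the derivation in the direction of the canonical coordinate -/
def DD (a ω f : R) : R := a * nab δ ω f

/-- the discriminant of a solution -/
def Dl (q a : R) : R := 2 * a * δ (δ a) - (δ a) ^ 2 + 4 * q * a ^ 2

theorem der_mul (f g : R) : δ (f * g) = f * δ g + g * δ f := by
  rw [Derivation.leibniz]; simp [smul_eq_mul]

theorem der_nat (k : ℕ) : δ (k : R) = 0 := Derivation.map_natCast δ k

theorem der_ofNat (k : ℕ) [k.AtLeastTwo] : δ (OfNat.ofNat k : R) = 0 := by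
  have h := Derivation.map_natCast δ k
  have e : ((k : ℕ) : R) = (OfNat.ofNat k : R) := (Nat.cast_ofNat (R := R) (n := k)).symm ▸ rfl
  rw [← e]; exact h

theorem core (q a ω β : R) :
    DD δ a ω (DD δ a ω (DD δ a ω β)) + Dl δ q a * DD δ a ω β =
      a ^ 2 * (LL δ q ω (a * β) - β * LL δ q 0 a) := by
  unfold DD Dl LL nab
  simp only [map_add, der_mul, zero_mul, add_zero]
  ring

theorem der_Dl (q a : R) : δ (Dl δ q a) = 2 * a * LL δ q 0 a := by
  have h2 : δ (2 : R) = 0 := der_ofNat δ 2
  have h4 : δ (4 : R) = 0 := der_ofNat δ 4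
  unfold Dl LL nab
  simp only [pow_two, map_add, map_sub, der_mul, zero_mul, add_zero, h2, h4, mul_zero]
  ring

theorem DD_add (a ω f g : R) : DD δ a ω (f + g) = DD δ a ω f + DD δ a ω g := by
  unfold DD nab; rw [map_add]; ring

theorem DD_sub (a ω f g : R) : DD δ a ω (f - g) = DD δ a ω f - DD δ a ω g := by
  unfold DD nab; rw [map_sub]; ring

theorem DD_zero (a ω : R) : DD δ a ω 0 = 0 := by
  unfold DD nab; simp

theorem DD_mul (a ω ω' f g : R) :
    DD δ a (ω + ω') (f * g) = DD δ a ω f * g + f * DD δ a ω' g := by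
  unfold DD nab; rw [der_mul]; ring

theorem DD_const_mul (a ω c f : R) (hc : δ c = 0) : DD δ a ω (c * f) = c * DD δ a ω f := by
  unfold DD nab; rw [der_mul, hc]; ring

theorem DD_two (a ω ω' f g : R) :
    DD δ a (ω + ω') (DD δ a (ω + ω') (f * g)) =
      DD δ a ω (DD δ a ω f) * g + 2 * DD δ a ω f * DD δ a ω' g + f * DD δ a ω' (DD δ a ω' g) := by
  rw [DD_mul, DD_add, DD_mul, DD_mul]
  ring

theorem DD_three (a ω ω' f g : R) :
    DD δ a (ω + ω') (DD δ a (ω + ω') (DD δ a (ω + ω') (f * g))) =
      DD δ a ω (DD δ a ω (DD δ a ω f)) * g + 3 * DD δ a ω (DD δ a ω f) * DD δ a ω' g +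
        3 * DD δ a ω f * DD δ a ω' (DD δ a ω' g) +
        f * DD δ a ω' (DD δ a ω' (DD δ a ω' g)) := by
  rw [DD_two]
  have e : DD δ a ω (DD δ a ω f) * g + 2 * DD δ a ω f * DD δ a ω' g + f * DD δ a ω' (DD δ a ω' g) =
    DD δ a ω (DD δ a ω f) * g + (DD δ a ω f * DD δ a ω' g + DD δ a ω f * DD δ a ω' g) +
      f * DD δ a ω' (DD δ a ω' g) := by ring
  rw [e, DD_add, DD_add, DD_add, DD_mul, DD_mul, DD_mul]
  ring

/-- logarithmic derivative -/
def LD (f m : R) : Prop := δ f = f * m

theorem LD.mul {f g m m' : R} (h : LD δ f m) (h' : LD δ g m') : LD δ (f * g) (m + m') := by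
  unfold LD at *
  rw [der_mul, h, h']; ring

theorem LD.one : LD δ (1 : R) 0 := by
  unfold LD; simp

theorem LD.pow {f m : R} (h : LD δ f m) (k : ℕ) : LD δ (f ^ k) (k * m) := by
  induction k with
  | zero => simp only [pow_zero, Nat.cast_zero, zero_mul]; exact LD.one δ
  | succ k ih =>
    rw [pow_succ, Nat.cast_succ, add_mul, one_mul]
    exact ih.mul δ h

theorem LL_of_LD {f m : R} (q ω : R) (h : LD δ f m) :
    LL δ q ω f = f * ((m + ω) ^ 3 + 3 * (m + ω) * δ (m + ω) + δ (δ (m + ω)) + 4 * q * (m + ω) +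
      2 * δ q) := by
  unfold LD at h
  unfold LL nab
  simp only [map_add, der_mul, h]
  ring

theorem LL_add (q ω f g : R) : LL δ q ω (f + g) = LL δ q ω f + LL δ q ω g := by
  unfold LL nab; simp only [map_add, der_mul]; ring

theorem LL_const_mul (q ω c f : R) (hc : δ c = 0) : LL δ q ω (c * f) = c * LL δ q ω f := by
  unfold LL nab; simp only [map_add, der_mul, hc, mul_zero, add_zero, map_zero]; ring

end alg

end Pool.Agent.H78.FS
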