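import Pool.Agent.H78.FS.Nolog

/-!
Quotients of solutions of the third order equation modulo `p ^ 3`.
-/

set_option autoImplicit false
set_option linter.unusedSectionVars false
set_option linter.unusedSimpArgs false
set_option linter.unusedVariables false

namespace Pool.Agent.H78.FS

open PowerSeries

variable {p : ℕ} [hp : Fact p.Prime]

/-- The class of the functions which are annihilated modulo `p ^ i` by the `i`-th power of the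
derivation, `i = 1, 2, 3`. -/
def Cl (a ω β : ℤ_[p]⟦X⟧) : Prop :=
  (p : ℤ_[p]⟦X⟧) ∣ DD (dl p) a ω β ∧
  (p : ℤ_[p]⟦X⟧) ^ 2 ∣ DD (dl p) a ω (DD (dl p) a ω β) ∧
  (p : ℤ_[p]⟦X⟧) ^ 3 ∣ DD (dl p) a ω (DD (dl p) a ω (DD (dl p) a ω β))

theorem DD_p (a ω f : ℤ_[p]⟦X⟧) (k : ℕ) :
    DD (dl p) a ω ((p : ℤ_[p]⟦X⟧) ^ k * f) = (p : ℤ_[p]⟦X⟧) ^ k * DD (dl p) a ω f :=
  DD_const_mul _ _ _ _ _ (dl_ppow k)

theorem DD_p1 (a ω f : ℤ_[p]⟦X⟧) :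
    DD (dl p) a ω ((p : ℤ_[p]⟦X⟧) * f) = (p : ℤ_[p]⟦X⟧) * DD (dl p) a ω f :=
  DD_const_mul _ _ _ _ _ dl_p

theorem Cl.add {a ω β γ : ℤ_[p]⟦X⟧} (h : Cl a ω β) (h' : Cl a ω γ) : Cl a ω (β + γ) := by
  obtain ⟨h1, h2, h3⟩ := h
  obtain ⟨k1, k2, k3⟩ := h'
  refine ⟨?_, ?_, ?_⟩
  · rw [DD_add]; exact dvd_add h1 k1
  · rw [DD_add, DD_add]; exact dvd_add h2 k2
  · rw [DD_add, DD_add, DD_add]; exact dvd_add h3 k3

theorem Cl.sub {a ω β γ : ℤ_[p]⟦X⟧} (h : Cl a ω β) (h' : Cl a ω γ) : Cl a ω (β - γ) := by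
  obtain ⟨h1, h2, h3⟩ := h
  obtain ⟨k1, k2, k3⟩ := h'
  refine ⟨?_, ?_, ?_⟩
  · rw [DD_sub]; exact dvd_sub h1 k1
  · rw [DD_sub, DD_sub]; exact dvd_sub h2 k2
  · rw [DD_sub, DD_sub, DD_sub]; exact dvd_sub h3 k3

theorem Cl.mul {a ω ω' β γ : ℤ_[p]⟦X⟧} (h : Cl a ω β) (h' : Cl a ω' γ) :
    Cl a (ω + ω') (β * γ) := by
  obtain ⟨⟨b1, e1⟩, ⟨b2, e2⟩, ⟨b3, e3⟩⟩ := h
  obtain ⟨⟨c1, f1⟩, ⟨c2, f2⟩, ⟨c3, f3⟩⟩ := h'
  refine ⟨?_, ?_, ?_⟩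
  · rw [DD_mul, e1, f1]
    exact ⟨b1 * γ + β * c1, by ring⟩
  · rw [DD_two, e2, f2, e1, f1]
    exact ⟨b2 * γ + 2 * b1 * c1 + β * c2, by ring⟩
  · rw [DD_three, e3, f3, e2, f2, e1, f1]
    exact ⟨b3 * γ + 3 * b2 * c1 + 3 * b1 * c2 + β * c3, by ring⟩

theorem Cl.of_flat {a ω β : ℤ_[p]⟦X⟧} (h : nab (dl p) ω β = 0) : Cl a ω β := by
  have h0 : DD (dl p) a ω β = 0 := by unfold DD; rw [h, mul_zero]
  refine ⟨?_, ?_, ?_⟩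
  · rw [h0]; exact dvd_zero _
  · rw [h0, DD_zero]; exact dvd_zero _
  · rw [h0, DD_zero, DD_zero]; exact dvd_zero _

theorem Cl.one {a : ℤ_[p]⟦X⟧} : Cl a 0 1 := by
  apply Cl.of_flat; unfold nab; simp

theorem Cl.const_mul {a ω β : ℤ_[p]⟦X⟧} (c : ℤ_[p]⟦X⟧) (hc : dl p c = 0) (h : Cl a ω β) :
    Cl a ω (c * β) := by
  have h0 : Cl a 0 c := by apply Cl.of_flat; unfold nab; simp [hc]
  have := h0.mul h
  rwa [zero_add] at this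

/-- Main lemma on quotients of solutions. -/
theorem Cl.of_sol {a q ω β : ℤ_[p]⟦X⟧} (ha : constantCoeff a = 1) (hω : (p : ℤ_[p]⟦X⟧) ∣ ω)
    (hΔ : (p : ℤ_[p]⟦X⟧) ^ 2 ∣ Dl (dl p) q a) (h0 : (p : ℤ_[p]⟦X⟧) ^ 3 ∣ LL (dl p) q 0 a)
    (h1 : (p : ℤ_[p]⟦X⟧) ^ 3 ∣ LL (dl p) q ω (a * β)) : Cl a ω β := by
  have hcore := core (dl p) q a ω β
  set P : ℤ_[p]⟦X⟧ := (p : ℤ_[p]⟦X⟧) with hP
  have hP0 : P ≠ 0 := p_ne
  have h3 : P ^ 3 ∣ DD (dl p) a ω (DD (dl p) a ω (DD (dl p) a ω β)) +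
      Dl (dl p) q a * DD (dl p) a ω β := by
    rw [hcore]
    exact Dvd.dvd.mul_left (dvd_sub h1 (Dvd.dvd.mul_left h0 _)) _
  have q1 : P ∣ DD (dl p) a ω (DD (dl p) a ω (DD (dl p) a ω β)) := by
    have e1 : P ∣ DD (dl p) a ω (DD (dl p) a ω (DD (dl p) a ω β)) +
      Dl (dl p) q a * DD (dl p) a ω β := (dvd_pow_self P (by norm_num)).trans h3
    have e2 : P ∣ Dl (dl p) q a * DD (dl p) a ω β :=
      Dvd.dvd.mul_right ((dvd_pow_self P (by norm_num)).trans hΔ) _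
    exact (dvd_add_left e2).1 e1
  have q2 : P ∣ DD (dl p) a ω β := nolog ha hω hω (nolog ha hω hω q1)
  obtain ⟨β1, e1⟩ := q2
  have q3 : P ^ 3 ∣ DD (dl p) a ω (DD (dl p) a ω (DD (dl p) a ω β)) := by
    have e2 : P ^ 3 ∣ Dl (dl p) q a * DD (dl p) a ω β := by
      rw [e1]
      obtain ⟨d, hd⟩ := hΔ
      rw [hd]
      exact ⟨d * β1, by ring⟩
    exact (dvd_add_left e2).1 h3
  have e3 : DD (dl p) a ω (DD (dl p) a ω β) = P * DD (dl p) a ω β1 := by rw [e1, DD_p1]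
  have e4 : DD (dl p) a ω (DD (dl p) a ω (DD (dl p) a ω β)) =
      P * DD (dl p) a ω (DD (dl p) a ω β1) := by rw [e3, DD_p1]
  have q4 : P ∣ DD (dl p) a ω (DD (dl p) a ω β1) := by
    have := q3
    rw [e4, pow_succ' P 2] at this
    have h := (mul_dvd_mul_iff_left hP0).1 this
    exact (dvd_pow_self P (by norm_num)).trans h
  have q5 : P ∣ DD (dl p) a ω β1 := nolog ha hω hω q4
  refine ⟨⟨β1, e1⟩, ?_, q3⟩
  rw [e3, pow_two]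
  exact mul_dvd_mul_left P q5

/-- The engine. -/
theorem Cl.engine {a ω ψ ψ' : ℤ_[p]⟦X⟧} (ha : constantCoeff a = 1) (hω : (p : ℤ_[p]⟦X⟧) ∣ ω)
    (h : Cl a ω ψ) {j : ℕ} (hj : j ≤ 2) (e : ψ = (p : ℤ_[p]⟦X⟧) ^ j * ψ') :
    (p : ℤ_[p]⟦X⟧) ∣ DD (dl p) a ω ψ' := by
  obtain ⟨h1, h2, h3⟩ := h
  set P : ℤ_[p]⟦X⟧ := (p : ℤ_[p]⟦X⟧) with hP
  have hP0 : P ≠ 0 := p_ne
  have hj' : j = 0 ∨ j = 1 ∨ j = 2 := by omega
  rcases hj' with rfl | rfl | rfl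
  · rw [pow_zero, one_mul] at e
    rw [← e]; exact h1
  · rw [e, DD_p, DD_p, pow_one, pow_two] at h2
    exact nolog ha hω hω ((mul_dvd_mul_iff_left hP0).1 h2)
  · rw [e, DD_p, DD_p, DD_p] at h3
    rw [show P ^ 3 = P ^ 2 * P by ring] at h3
    exact nolog ha hω hω (nolog ha hω hω ((mul_dvd_mul_iff_left (pow_ne_zero 2 hP0)).1 h3))

/-- From the engine: the derivative vanishes modulo `p`. -/
theorem der_dvd {a ω f : ℤ_[p]⟦X⟧} (ha : constantCoeff a = 1) (hω : (p : ℤ_[p]⟦X⟧) ∣ ω)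
    (h : (p : ℤ_[p]⟦X⟧) ∣ DD (dl p) a ω f) : (p : ℤ_[p]⟦X⟧) ∣ dl p f := by
  rw [← rd_eq_zero] at h ⊢
  rw [rd_DD _ _ _ hω] at h
  have hu := unit_of_const (const_rd ha)
  have h1 : th (rd f) = 0 := (hu.mul_right_eq_zero).1 h
  have h2 : th (rd f) * rd (1 - X) = rd (dl p f) := by
    rw [dl_apply, map_mul, map_mul, rd_der]
    unfold th
    have hX : rd (X : ℤ_[p]⟦X⟧) = X := by unfold rd; rw [PowerSeries.map_X]
    rw [hX]; ring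
  rw [← h2, h1, zero_mul]

end Pool.Agent.H78.FS
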