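import Pool.Agent.H78.FS.Engine

/-!
The polynomials.
-/

set_option autoImplicit false
set_option linter.unusedSectionVars false
set_option linter.unusedSimpArgs false
set_option linter.unusedVariables false
set_option linter.unusedTactic false

namespace Pool.Agent.H78.FS

open Polynomial

section defs

variable {A : Type*} [CommRing A]

/-- `Σ u2(k) s^k (t(1-t))^k` -/
noncomputable def pa (s : A) (n : ℕ) : A[X] :=
  ∑ k ∈ Finset.range (n + 1), C ((u2 k : A) * s ^ k) * (X * (1 - X)) ^ k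

/-- the polynomial `b` -/
noncomputable def pb (s : A) (n : ℕ) : A[X] :=
  ∑ k ∈ Finset.range (n + 1), C ((u2 k : A) * (-s) ^ k) * ((1 - X) ^ k * X ^ (2 * n - 2 * k))

/-- the polynomial `c` -/
noncomputable def pc (s : A) (n : ℕ) : A[X] :=
  ∑ k ∈ Finset.range (n + 1), C ((u2 k : A) * (-s) ^ k) * (X ^ k * (1 - X) ^ (2 * n - 2 * k))

/-- the polynomial `d` -/
noncomputable def pd (A : Type*) [CommRing A] (n : ℕ) : A[X] :=
  ∑ k ∈ Finset.range (n + 1), C ((u2 k : A) * 256 ^ (n - k)) * (X * (1 - X)) ^ (n - k)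

/-- `1 - t + t^2` -/
noncomputable def pJ (A : Type*) [CommRing A] : A[X] := 1 - X * (1 - X)

/-- the polynomial `G` -/
noncomputable def pG (s : A) (n K : ℕ) : A[X] :=
  ∑ k ∈ Finset.range (K + 1), C ((C6 k : A) * (s ^ 2) ^ k) *
    ((X * (1 - X)) ^ (2 * k) * pJ A ^ (5 * n + 2 - 3 * k))

theorem nd_z : (X * (1 - X) : A[X]).natDegree ≤ 2 := by
  refine natDegree_mul_le.trans ?_
  have h1 := natDegree_X_le (R := A)
  have h2 : (1 - X : A[X]).natDegree ≤ 1 := by
    refine (natDegree_sub_le _ _).trans ?_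
    rw [natDegree_one]; exact max_le (by omega) h1
  omega

theorem nd_1X : (1 - X : A[X]).natDegree ≤ 1 := by
  refine (natDegree_sub_le _ _).trans ?_
  rw [natDegree_one]; exact max_le (by omega) natDegree_X_le

theorem nd_J : (pJ A).natDegree ≤ 2 := by
  unfold pJ
  refine (natDegree_sub_le _ _).trans ?_
  rw [natDegree_one]; exact max_le (by omega) nd_z

theorem nd_pow {f : A[X]} {d : ℕ} (h : f.natDegree ≤ d) (k : ℕ) : (f ^ k).natDegree ≤ k * d :=
  natDegree_pow_le.trans (Nat.mul_le_mul_left _ h)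

theorem nd_mul {f g : A[X]} {d e : ℕ} (h : f.natDegree ≤ d) (h' : g.natDegree ≤ e) :
    (f * g).natDegree ≤ d + e := natDegree_mul_le.trans (Nat.add_le_add h h')

theorem nd_Cmul {f : A[X]} {d : ℕ} (c : A) (h : f.natDegree ≤ d) : (C c * f).natDegree ≤ d :=
  (natDegree_C_mul_le _ _).trans h

theorem nd_add {f g : A[X]} {d : ℕ} (h : f.natDegree ≤ d) (h' : g.natDegree ≤ d) :
    (f + g).natDegree ≤ d := (natDegree_add_le _ _).trans (max_le h h')

theorem nd_sub {f g : A[X]} {d : ℕ} (h : f.natDegree ≤ d) (h' : g.natDegree ≤ d) :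
    (f - g).natDegree ≤ d := (natDegree_sub_le _ _).trans (max_le h h')

theorem nd_a (s : A) (n : ℕ) : (pa s n).natDegree ≤ 2 * n := by
  unfold pa
  apply natDegree_sum_le_of_forall_le
  intro k hk
  rw [Finset.mem_range] at hk
  refine (nd_Cmul _ (nd_pow nd_z k)).trans ?_
  omega

theorem nd_b (s : A) (n : ℕ) : (pb s n).natDegree ≤ 2 * n := by
  unfold pb
  apply natDegree_sum_le_of_forall_le
  intro k hk
  rw [Finset.mem_range] at hk
  refine (nd_Cmul _ (nd_mul (nd_pow nd_1X k) (nd_pow natDegree_X_le _))).trans ?_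
  omega

theorem nd_c (s : A) (n : ℕ) : (pc s n).natDegree ≤ 2 * n := by
  unfold pc
  apply natDegree_sum_le_of_forall_le
  intro k hk
  rw [Finset.mem_range] at hk
  refine (nd_Cmul _ (nd_mul (nd_pow natDegree_X_le _) (nd_pow nd_1X _))).trans ?_
  omega

theorem nd_d (n : ℕ) : (pd A n).natDegree ≤ 2 * n := by
  unfold pd
  apply natDegree_sum_le_of_forall_le
  intro k hk
  rw [Finset.mem_range] at hk
  refine (nd_Cmul _ (nd_pow nd_z _)).trans ?_
  omega

theorem eval_a (s : A) (n : ℕ) (t : A) :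
    (pa s n).eval t = ∑ k ∈ Finset.range (n + 1), (u2 k : A) * s ^ k * (t * (1 - t)) ^ k := by
  unfold pa; rw [eval_finsetSum]; simp

theorem eval_b (s : A) (n : ℕ) (t : A) :
    (pb s n).eval t = ∑ k ∈ Finset.range (n + 1), (u2 k : A) * (-s) ^ k *
      ((1 - t) ^ k * t ^ (2 * n - 2 * k)) := by
  unfold pb; rw [eval_finsetSum]; simp

theorem eval_c (s : A) (n : ℕ) (t : A) :
    (pc s n).eval t = ∑ k ∈ Finset.range (n + 1), (u2 k : A) * (-s) ^ k *
      (t ^ k * (1 - t) ^ (2 * n - 2 * k)) := by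
  unfold pc; rw [eval_finsetSum]; simp

theorem eval_d (n : ℕ) (t : A) :
    (pd A n).eval t = ∑ k ∈ Finset.range (n + 1), (u2 k : A) * 256 ^ (n - k) *
      (t * (1 - t)) ^ (n - k) := by
  unfold pd; rw [eval_finsetSum]; simp

theorem eval_J (t : A) : (pJ A).eval t = 1 - t * (1 - t) := by unfold pJ; simp

theorem eval_G (s : A) (n K : ℕ) (t : A) :
    (pG s n K).eval t = ∑ k ∈ Finset.range (K + 1), (C6 k : A) * (s ^ 2) ^ k *
      ((t * (1 - t)) ^ (2 * k) * (1 - t * (1 - t)) ^ (5 * n + 2 - 3 * k)) := by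
  unfold pG; rw [eval_finsetSum]; simp [eval_J]

theorem u2_zero : u2 0 = 1 := by unfold u2; simp

theorem C6_zero : C6 0 = 1 := by unfold C6; simp

theorem a_at0 (s : A) (n : ℕ) : (pa s n).eval 0 = 1 := by
  rw [eval_a, Finset.sum_eq_single 0]
  · simp [u2_zero]
  · intro k _ hk; simp [zero_pow hk]
  · intro h; simp at h

theorem a_at1 (s : A) (n : ℕ) : (pa s n).eval 1 = 1 := by
  rw [eval_a, Finset.sum_eq_single 0]
  · simp [u2_zero]
  · intro k _ hk; simp [zero_pow hk]
  · intro h; simp at h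

theorem c_at0 (s : A) (n : ℕ) : (pc s n).eval 0 = 1 := by
  rw [eval_c, Finset.sum_eq_single 0]
  · simp [u2_zero]
  · intro k _ hk; simp [zero_pow hk]
  · intro h; simp at h

theorem b_at1 (s : A) (n : ℕ) : (pb s n).eval 1 = 1 := by
  rw [eval_b, Finset.sum_eq_single 0]
  · simp [u2_zero]
  · intro k _ hk; simp [zero_pow hk]
  · intro h; simp at h

theorem b_at0 (s : A) (n : ℕ) : (pb s n).eval 0 = (u2 n : A) * (-s) ^ n := by
  rw [eval_b, Finset.sum_eq_single n]
  · simp
  · intro k hk hkn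
    rw [Finset.mem_range] at hk
    rw [zero_pow (show 2 * n - 2 * k ≠ 0 by omega)]; ring
  · intro h; simp at h

theorem d_at0 (n : ℕ) : (pd A n).eval 0 = (u2 n : A) := by
  rw [eval_d, Finset.sum_eq_single n]
  · simp
  · intro k hk hkn
    rw [Finset.mem_range] at hk
    rw [zero_mul, zero_pow (show n - k ≠ 0 by omega)]; ring
  · intro h; simp at h

theorem G_at0 (s : A) (n K : ℕ) : (pG s n K).eval 0 = 1 := by
  rw [eval_G, Finset.sum_eq_single 0]
  · simp [C6_zero]
  · intro k _ hk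
    rw [zero_mul, zero_pow (show 2 * k ≠ 0 by omega)]; ring
  · intro h; simp at h

theorem map_a {B : Type*} [CommRing B] (f : A →+* B) (s : A) (n : ℕ) :
    (pa s n).map f = pa (f s) n := by
  unfold pa
  simp [Polynomial.map_sum]

theorem map_b {B : Type*} [CommRing B] (f : A →+* B) (s : A) (n : ℕ) :
    (pb s n).map f = pb (f s) n := by
  unfold pb
  simp [Polynomial.map_sum]

theorem map_c {B : Type*} [CommRing B] (f : A →+* B) (s : A) (n : ℕ) :
    (pc s n).map f = pc (f s) n := by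
  unfold pc
  simp [Polynomial.map_sum]

theorem map_d {B : Type*} [CommRing B] (f : A →+* B) (n : ℕ) :
    (pd A n).map f = pd B n := by
  unfold pd
  have h : f 256 = 256 := map_ofNat f 256
  simp [Polynomial.map_sum, h]

theorem map_J {B : Type*} [CommRing B] (f : A →+* B) : (pJ A).map f = pJ B := by
  unfold pJ
  simp

end defs

variable {p : ℕ} [hp : Fact p.Prime]

theorem coe_sum {ι : Type*} (t : Finset ι) (f : ι → ℤ_[p][X]) :
    ((∑ i ∈ t, f i : ℤ_[p][X]) : PowerSeries ℤ_[p]) = ∑ i ∈ t, (f i : PowerSeries ℤ_[p]) :=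
  map_sum (Polynomial.coeToPowerSeries.ringHom (R := ℤ_[p])) f t

theorem coe_a (s : ℤ_[p]) (n : ℕ) : ((pa s n : ℤ_[p][X]) : PowerSeries ℤ_[p]) =
    ∑ k ∈ Finset.range (n + 1), PowerSeries.C ((u2 k : ℤ_[p]) * s ^ k) *
      (PowerSeries.X * (1 - PowerSeries.X)) ^ k := by
  unfold pa; rw [coe_sum]
  apply Finset.sum_congr rfl
  intro k _
  rw [Polynomial.coe_mul, Polynomial.coe_C, Polynomial.coe_pow, Polynomial.coe_mul, Polynomial.coe_X,
    Polynomial.coe_sub, Polynomial.coe_one, Polynomial.coe_X]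

theorem coe_b (s : ℤ_[p]) (n : ℕ) : ((pb s n : ℤ_[p][X]) : PowerSeries ℤ_[p]) =
    ∑ k ∈ Finset.range (n + 1), PowerSeries.C ((u2 k : ℤ_[p]) * (-s) ^ k) *
      ((1 - PowerSeries.X) ^ k * PowerSeries.X ^ (2 * n - 2 * k)) := by
  unfold pb; rw [coe_sum]
  apply Finset.sum_congr rfl
  intro k _
  rw [Polynomial.coe_mul, Polynomial.coe_C, Polynomial.coe_mul, Polynomial.coe_pow,
    Polynomial.coe_pow, Polynomial.coe_X, Polynomial.coe_sub, Polynomial.coe_one, Polynomial.coe_X]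

theorem coe_c (s : ℤ_[p]) (n : ℕ) : ((pc s n : ℤ_[p][X]) : PowerSeries ℤ_[p]) =
    ∑ k ∈ Finset.range (n + 1), PowerSeries.C ((u2 k : ℤ_[p]) * (-s) ^ k) *
      (PowerSeries.X ^ k * (1 - PowerSeries.X) ^ (2 * n - 2 * k)) := by
  unfold pc; rw [coe_sum]
  apply Finset.sum_congr rfl
  intro k _
  rw [Polynomial.coe_mul, Polynomial.coe_C, Polynomial.coe_mul, Polynomial.coe_pow,
    Polynomial.coe_pow, Polynomial.coe_X, Polynomial.coe_sub, Polynomial.coe_one, Polynomial.coe_X]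

theorem coe_d (n : ℕ) : ((pd ℤ_[p] n : ℤ_[p][X]) : PowerSeries ℤ_[p]) =
    ∑ k ∈ Finset.range (n + 1), PowerSeries.C ((u2 k : ℤ_[p]) * 256 ^ (n - k)) *
      (PowerSeries.X * (1 - PowerSeries.X)) ^ (n - k) := by
  unfold pd; rw [coe_sum]
  apply Finset.sum_congr rfl
  intro k _
  rw [Polynomial.coe_mul, Polynomial.coe_C, Polynomial.coe_pow, Polynomial.coe_mul, Polynomial.coe_X,
    Polynomial.coe_sub, Polynomial.coe_one, Polynomial.coe_X]

theorem coe_J : ((pJ ℤ_[p] : ℤ_[p][X]) : PowerSeries ℤ_[p]) =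
    1 - PowerSeries.X * (1 - PowerSeries.X) := by
  unfold pJ
  rw [Polynomial.coe_sub, Polynomial.coe_one, Polynomial.coe_mul, Polynomial.coe_X,
    Polynomial.coe_sub, Polynomial.coe_one, Polynomial.coe_X]

/-- The discriminant of `a` vanishes modulo `p ^ 2`. -/
theorem Dl_a {s : ℤ_[p]} (hs : 16 * s = 1) {n : ℕ} (hn : p = 2 * n + 1) (hp3 : 3 ≤ p) :
    (p : PowerSeries ℤ_[p]) ^ 2 ∣ Dl (dl p) (qq s) ((pa s n : ℤ_[p][X]) : PowerSeries ℤ_[p]) := by
  set δ : ℤ_[p][X] → ℤ_[p][X] := fun f => X * (1 - X) * derivative f with hδ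
  have hδc : ∀ f : ℤ_[p][X], dl p (f : PowerSeries ℤ_[p]) = ((δ f : ℤ_[p][X]) : PowerSeries ℤ_[p]) := by
    intro f
    rw [dl_apply, PowerSeries.derivative_coe, hδ]
    beta_reduce
    rw [Polynomial.coe_mul, Polynomial.coe_mul, Polynomial.coe_X, Polynomial.coe_sub,
      Polynomial.coe_one, Polynomial.coe_X]
  set a : ℤ_[p][X] := pa s n with ha
  set D : ℤ_[p][X] := 2 * a * δ (δ a) - (δ a) ^ 2 - 16 * C s * (X * (1 - X)) * a ^ 2 with hD
  have hDc : Dl (dl p) (qq s) (a : PowerSeries ℤ_[p]) = (D : PowerSeries ℤ_[p]) := by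
    unfold Dl qq
    rw [hδc, hδc, hD]
    generalize δ (δ a) = e1
    generalize δ a = e2
    have h2 : ((2 : ℤ_[p][X]) : PowerSeries ℤ_[p]) = 2 :=
      map_ofNat (Polynomial.coeToPowerSeries.ringHom (R := ℤ_[p])) 2
    have h16 : ((16 : ℤ_[p][X]) : PowerSeries ℤ_[p]) = 16 :=
      map_ofNat (Polynomial.coeToPowerSeries.ringHom (R := ℤ_[p])) 16
    simp only [Polynomial.coe_sub, Polynomial.coe_mul, Polynomial.coe_pow, Polynomial.coe_X,
      Polynomial.coe_one, Polynomial.coe_C, h2, h16]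
    ring
  -- degree
  have ndδ : ∀ (f : ℤ_[p][X]) (d : ℕ), f.natDegree ≤ d → (δ f).natDegree ≤ d + 1 := by
    intro f d hf
    rw [hδ]; beta_reduce
    rcases Nat.eq_zero_or_pos d with h0 | h0
    · have : f.natDegree = 0 := by omega
      rw [natDegree_eq_zero] at this
      obtain ⟨x, hx⟩ := this
      rw [← hx, derivative_C, mul_zero, natDegree_zero]; omega
    · have h1 : (derivative f).natDegree ≤ d - 1 :=
        (natDegree_derivative_le f).trans (by omega)
      refine (nd_mul nd_z h1).trans ?_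
      omega
  have nda := nd_a s n
  rw [← ha] at nda
  have h2C : (2 : ℤ_[p][X]) = C 2 := (map_ofNat C 2).symm
  have h16C : (16 : ℤ_[p][X]) = C 16 := (map_ofNat C 16).symm
  have ndD : D.natDegree ≤ 4 * n + 2 := by
    rw [hD]
    refine nd_sub (nd_sub ?_ ?_) ?_
    · rw [h2C]
      refine (nd_mul (nd_Cmul _ nda) (ndδ _ _ (ndδ _ _ nda))).trans ?_
      omega
    · refine (nd_pow (ndδ _ _ nda) 2).trans ?_
      omega
    · rw [h16C, ← C_mul]
      refine (nd_mul (nd_Cmul _ nd_z) (nd_pow nda 2)).trans ?_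
      omega
  -- constant coefficient
  have hδ0 : ∀ f : ℤ_[p][X], (δ f).coeff 0 = 0 := by
    intro f
    rw [hδ]; beta_reduce
    rw [mul_assoc, mul_coeff_zero, coeff_X_zero, zero_mul]
  have hD0 : D.coeff 0 = 0 := by
    rw [hD]
    simp only [coeff_sub, mul_coeff_zero, hδ0, pow_two, coeff_X_zero]
    ring
  -- the derivative
  have hder := der_Dl (dl p) (qq s) (a : PowerSeries ℤ_[p])
  have hLL := LL_a' hs n
  rw [← coe_a, ← ha, ← hn] at hLL
  have h3 : (p : PowerSeries ℤ_[p]) ^ 3 ∣ dl p (D : PowerSeries ℤ_[p]) := by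
    rw [← hDc, hder]
    exact Dvd.dvd.mul_left hLL _
  rw [dl_apply, PowerSeries.derivative_coe] at h3
  have hu : IsUnit (1 - PowerSeries.X : PowerSeries ℤ_[p]) := by
    rw [PowerSeries.isUnit_iff_constantCoeff]; simp
  have h4 : (p : PowerSeries ℤ_[p]) ^ 3 ∣
      PowerSeries.X * ((derivative D : ℤ_[p][X]) : PowerSeries ℤ_[p]) := by
    have : PowerSeries.X * (1 - PowerSeries.X) * ((derivative D : ℤ_[p][X]) : PowerSeries ℤ_[p]) =
        (1 - PowerSeries.X) * (PowerSeries.X * ((derivative D : ℤ_[p][X]) : PowerSeries ℤ_[p])) := by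
      ring
    rw [this] at h3
    exact (hu.dvd_mul_left).1 h3
  rw [pow_dvd_iff] at h4
  rw [hDc, pow_dvd_iff]
  intro i
  rw [Polynomial.coeff_coe]
  rcases i with _ | i
  · rw [hD0]; exact dvd_zero _
  · by_cases hi : D.natDegree < i + 1
    · rw [coeff_eq_zero_of_natDegree_lt hi]; exact dvd_zero _
    have hi2 : i + 1 ≤ 2 * p := by omega
    have h5 := h4 (i + 1)
    rw [PowerSeries.coeff_succ_X_mul, Polynomial.coeff_coe, coeff_derivative] at h5
    have hcast : ((i : ℤ_[p]) + 1) = ((i + 1 : ℕ) : ℤ_[p]) := by push_cast; ring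
    rw [hcast] at h5
    have hp0 : (p : ℤ_[p]) ≠ 0 := by exact_mod_cast hp.out.ne_zero
    have unit_of : ∀ k : ℕ, ¬ p ∣ k → IsUnit (k : ℤ_[p]) := by
      intro k hk
      rw [PadicInt.isUnit_iff]
      by_contra hne
      have hlt : ‖(k : ℤ_[p])‖ < 1 := lt_of_le_of_ne (PadicInt.norm_le_one _) hne
      have : (p : ℤ) ∣ (k : ℤ) :=
        (PadicInt.norm_int_lt_one_iff_dvd (p := p) (k : ℤ)).1 (by exact_mod_cast hlt)
      exact hk (Int.natCast_dvd_natCast.1 this)
    by_cases hpi : p ∣ i + 1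
    · obtain ⟨r, hr⟩ := hpi
      have hr0 : ¬ p ∣ r := by
        intro hd
        have hrpos : 0 < r := by
          rcases Nat.eq_zero_or_pos r with h | h
          · rw [h] at hr; omega
          · exact h
        have := Nat.le_of_dvd hrpos hd
        have : p * p ≤ p * r := Nat.mul_le_mul_left _ this
        nlinarith
      have hru := unit_of r hr0
      rw [hr] at h5
      push_cast at h5
      have h6 : (p : ℤ_[p]) * (p : ℤ_[p]) ^ 2 ∣ (p : ℤ_[p]) * (D.coeff (i + 1) * (r : ℤ_[p])) := by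
        have e : (p : ℤ_[p]) * (D.coeff (i + 1) * (r : ℤ_[p])) =
            D.coeff (p * r) * ((p : ℤ_[p]) * (r : ℤ_[p])) := by rw [← hr]; ring
        rw [e, ← pow_succ']; exact h5
      have h7 := (mul_dvd_mul_iff_left hp0).1 h6
      exact (hru.dvd_mul_right).1 h7
    · have hru := unit_of _ hpi
      have h7 := (hru.dvd_mul_right).1 h5
      exact (pow_dvd_pow _ (by norm_num)).trans h7

end Pool.Agent.H78.FS
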