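import Pool.Agent.H78.FS.Poly

/-!
The engine for polynomials.
-/

set_option autoImplicit false
set_option linter.unusedSectionVars false
set_option linter.unusedSimpArgs false
set_option linter.unusedVariables false
set_option linter.unusedTactic false

namespace Pool.Agent.H78.FS

open Polynomial

variable {p : ℕ} [hp : Fact p.Prime]

/-- reduction modulo `p` of polynomials -/
noncomputable def rp : ℤ_[p][X] →+* (ZMod p)[X] := mapRingHom PadicInt.toZMod

theorem rp_apply (F : ℤ_[p][X]) : rp F = F.map PadicInt.toZMod := rfl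

theorem rp_coe (F : ℤ_[p][X]) : rd (F : PowerSeries ℤ_[p]) = ((rp F : (ZMod p)[X]) : PowerSeries (ZMod p)) := by
  ext i
  rw [coeff_rd, Polynomial.coeff_coe, Polynomial.coeff_coe, rp_apply, coeff_map]

theorem rp_der (F : ℤ_[p][X]) : rp (derivative F) = derivative (rp F) := by
  rw [rp_apply, rp_apply, derivative_map]

theorem rp_C (c : ℤ_[p]) : rp (C c) = C (PadicInt.toZMod c) := by
  rw [rp_apply, map_C]

theorem rp_X : rp (X : ℤ_[p][X]) = X := by rw [rp_apply, map_X]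

theorem toZMod_p : PadicInt.toZMod (p : ℤ_[p]) = 0 := (red_zero _).2 dvd_rfl

theorem rp_p_mul (F : ℤ_[p][X]) : rp (C (p : ℤ_[p]) * F) = 0 := by
  rw [map_mul, rp_C, toZMod_p, C_0, zero_mul]

theorem rp_eq_zero (F : ℤ_[p][X]) : rp F = 0 ↔ ∃ M : ℤ_[p][X], F = C (p : ℤ_[p]) * M := by
  constructor
  · intro h
    have : C (p : ℤ_[p]) ∣ F := by
      rw [C_dvd_iff_dvd_coeff]
      intro i
      rw [← red_zero, ← coeff_map, ← rp_apply, h, coeff_zero]
    exact this
  · rintro ⟨M, rfl⟩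
    exact rp_p_mul M

theorem coe_inj {F G : ℤ_[p][X]} (h : (F : PowerSeries ℤ_[p]) = G) : F = G :=
  Polynomial.coe_injective _ h

theorem cast_p_coe : ((C (p : ℤ_[p]) : ℤ_[p][X]) : PowerSeries ℤ_[p]) = (p : PowerSeries ℤ_[p]) := by
  rw [Polynomial.coe_C, map_natCast]

/-- Passage to polynomials modulo `p`. -/
theorem to_poly {A Ej : ℤ_[p][X]} (m : ℕ)
    (h3 : (p : PowerSeries ℤ_[p]) ∣ (A : PowerSeries ℤ_[p]) * dl p (Ej : PowerSeries ℤ_[p]) -
      (m : PowerSeries ℤ_[p]) * dl p (A : PowerSeries ℤ_[p]) * (Ej : PowerSeries ℤ_[p])) :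
    rp A * derivative (rp Ej) = (m : (ZMod p)[X]) * derivative (rp A) * rp Ej := by
  rw [← rd_eq_zero, dl_apply, dl_apply, PowerSeries.derivative_coe, PowerSeries.derivative_coe] at h3
  simp only [map_sub, map_mul, map_natCast, rp_coe, map_one] at h3
  have hX : rd (PowerSeries.X : PowerSeries ℤ_[p]) = PowerSeries.X := by
    unfold rd; rw [PowerSeries.map_X]
  rw [hX] at h3
  have h4 : (PowerSeries.X * (1 - PowerSeries.X) : PowerSeries (ZMod p)) *
      (((rp A : (ZMod p)[X]) : PowerSeries (ZMod p)) * ((rp (derivative Ej) : (ZMod p)[X]) : PowerSeries (ZMod p)) -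
      (m : PowerSeries (ZMod p)) * ((rp (derivative A) : (ZMod p)[X]) : PowerSeries (ZMod p)) *
        ((rp Ej : (ZMod p)[X]) : PowerSeries (ZMod p))) = 0 := by
    linear_combination h3
  have hne : (PowerSeries.X * (1 - PowerSeries.X) : PowerSeries (ZMod p)) ≠ 0 := by
    apply mul_ne_zero PowerSeries.X_ne_zero
    intro h
    have := congrArg PowerSeries.constantCoeff h
    simp at this
  have h5 := (mul_eq_zero.1 h4).resolve_left hne
  rw [rp_der, rp_der] at h5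
  have h6 : ((rp A * derivative (rp Ej) - (m : (ZMod p)[X]) * derivative (rp A) * rp Ej : (ZMod p)[X]) :
      PowerSeries (ZMod p)) = ((0 : (ZMod p)[X]) : PowerSeries (ZMod p)) := by
    rw [Polynomial.coe_sub, Polynomial.coe_mul, Polynomial.coe_mul, Polynomial.coe_mul,
      Polynomial.coe_zero]
    have : (((m : (ZMod p)[X]) : (ZMod p)[X]) : PowerSeries (ZMod p)) = (m : PowerSeries (ZMod p)) := by
      exact map_natCast (Polynomial.coeToPowerSeries.ringHom (R := ZMod p)) m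
    rw [this]; exact h5
  have h7 := Polynomial.coe_injective _ h6
  linear_combination h7

/-- The engine for polynomials. -/
theorem pengine {A E Ej : ℤ_[p][X]} {ω ψ : PowerSeries ℤ_[p]} (hA : A.coeff 0 = 1)
    (hω : (p : PowerSeries ℤ_[p]) ∣ ω) (hC : Cl (A : PowerSeries ℤ_[p]) ω ψ) (m : ℕ)
    (hE : (E : PowerSeries ℤ_[p]) = (A : PowerSeries ℤ_[p]) ^ m * ψ) {j : ℕ} (hj : j ≤ 2)
    (e : E = C (p : ℤ_[p]) ^ j * Ej) :
    rp A * derivative (rp Ej) = (m : (ZMod p)[X]) * derivative (rp A) * rp Ej := by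
  have hA' : PowerSeries.constantCoeff (A : PowerSeries ℤ_[p]) = 1 := by
    rw [← PowerSeries.coeff_zero_eq_constantCoeff_apply, Polynomial.coeff_coe]; exact hA
  have hAu : IsUnit (A : PowerSeries ℤ_[p]) := by
    rw [PowerSeries.isUnit_iff_constantCoeff, hA']; exact isUnit_one
  obtain ⟨B, hB⟩ := hAu.exists_right_inv
  set Ar : PowerSeries ℤ_[p] := (A : PowerSeries ℤ_[p]) with hAr
  set P : PowerSeries ℤ_[p] := (p : PowerSeries ℤ_[p]) with hP
  have hEr : (E : PowerSeries ℤ_[p]) = P ^ j * (Ej : PowerSeries ℤ_[p]) := by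
    rw [e, Polynomial.coe_mul, Polynomial.coe_pow, cast_p_coe]
  -- ψ' = B ^ m * Ej
  have hψ : ψ = P ^ j * (B ^ m * (Ej : PowerSeries ℤ_[p])) := by
    have h1 : B ^ m * Ar ^ m = 1 := by rw [← mul_pow, mul_comm B, hB, one_pow]
    calc ψ = (B ^ m * Ar ^ m) * ψ := by rw [h1, one_mul]
      _ = B ^ m * (Ar ^ m * ψ) := by ring
      _ = _ := by rw [← hE, hEr]; ring
  set ψ' : PowerSeries ℤ_[p] := B ^ m * (Ej : PowerSeries ℤ_[p]) with hψ'
  have h2 := der_dvd hA' hω (hC.engine hA' hω hj hψ)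
  have hEj : (Ej : PowerSeries ℤ_[p]) = Ar ^ m * ψ' := by
    rw [hψ', ← mul_assoc, ← mul_pow, hB, one_pow, one_mul]
  -- derivative
  have hpow : dl p (Ar ^ m) * Ar = (m : PowerSeries ℤ_[p]) * dl p Ar * Ar ^ m := by
    have gen : ∀ k : ℕ, dl p (Ar ^ k) * Ar = (k : PowerSeries ℤ_[p]) * dl p Ar * Ar ^ k := by
      intro k
      induction k with
      | zero => simp [dl_one]
      | succ k ih =>
        rw [pow_succ, der_mul]; push_cast
        linear_combination Ar * ih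
    exact gen m
  have h3 : P ∣ Ar * dl p (Ej : PowerSeries ℤ_[p]) -
      (m : PowerSeries ℤ_[p]) * dl p Ar * (Ej : PowerSeries ℤ_[p]) := by
    have e1 : Ar * dl p (Ej : PowerSeries ℤ_[p]) -
      (m : PowerSeries ℤ_[p]) * dl p Ar * (Ej : PowerSeries ℤ_[p]) =
        dl p ψ' * (Ar ^ m * Ar) := by
      rw [hEj, der_mul]
      linear_combination ψ' * hpow
    rw [e1]; exact Dvd.dvd.mul_right h2 _
  exact to_poly m h3

/-- A solution `F` of the twisted equation gives a function of the class. -/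
theorem Cl_sol {A F : ℤ_[p][X]} {q ω : PowerSeries ℤ_[p]} {B : PowerSeries ℤ_[p]} (hA : A.coeff 0 = 1)
    (hB : (A : PowerSeries ℤ_[p]) * B = 1)
    (hω : (p : PowerSeries ℤ_[p]) ∣ ω)
    (hΔ : (p : PowerSeries ℤ_[p]) ^ 2 ∣ Dl (dl p) q (A : PowerSeries ℤ_[p]))
    (h0 : (p : PowerSeries ℤ_[p]) ^ 3 ∣ LL (dl p) q 0 (A : PowerSeries ℤ_[p]))
    (h1 : (p : PowerSeries ℤ_[p]) ^ 3 ∣ LL (dl p) q ω (F : PowerSeries ℤ_[p])) :
    Cl (A : PowerSeries ℤ_[p]) ω (B * (F : PowerSeries ℤ_[p])) := by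
  apply Cl.of_sol (q := q) _ hω hΔ h0
  · rw [← mul_assoc, hB, one_mul]; exact h1
  · rw [← PowerSeries.coeff_zero_eq_constantCoeff_apply, Polynomial.coeff_coe]; exact hA

/-- `a^j` consequence: solutions are proportional modulo `p`. -/
theorem prop_modp {A F : ℤ_[p][X]} {ω : PowerSeries ℤ_[p]} {B : PowerSeries ℤ_[p]} (hA : A.coeff 0 = 1)
    (hB : (A : PowerSeries ℤ_[p]) * B = 1)
    (hω : (p : PowerSeries ℤ_[p]) ∣ ω) (hC : Cl (A : PowerSeries ℤ_[p]) ω (B * (F : PowerSeries ℤ_[p]))) :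
    rp A * derivative (rp F) = derivative (rp A) * rp F := by
  have := pengine (E := F) (Ej := F) hA hω hC 1 (by rw [pow_one, ← mul_assoc, hB, one_mul]) (j := 0)
    (by norm_num) (by rw [pow_zero, one_mul])
  rw [Nat.cast_one, one_mul] at this
  exact this

/-- Two solutions are proportional modulo `p`. -/
theorem modp_sol {A F : ℤ_[p][X]} {q : PowerSeries ℤ_[p]} {B : PowerSeries ℤ_[p]} (hA : A.coeff 0 = 1)
    (hB : (A : PowerSeries ℤ_[p]) * B = 1)
    (hΔ : (p : PowerSeries ℤ_[p]) ∣ Dl (dl p) q (A : PowerSeries ℤ_[p]))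
    (h0 : (p : PowerSeries ℤ_[p]) ∣ LL (dl p) q 0 (A : PowerSeries ℤ_[p]))
    (h1 : (p : PowerSeries ℤ_[p]) ∣ LL (dl p) q 0 (F : PowerSeries ℤ_[p])) :
    rp A * derivative (rp F) = derivative (rp A) * rp F := by
  have hA' : PowerSeries.constantCoeff (A : PowerSeries ℤ_[p]) = 1 := by
    rw [← PowerSeries.coeff_zero_eq_constantCoeff_apply, Polynomial.coeff_coe]; exact hA
  have e1 : (A : PowerSeries ℤ_[p]) * (B * (F : PowerSeries ℤ_[p])) = F := by
    rw [← mul_assoc, hB, one_mul]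
  have hcore := core (dl p) q (A : PowerSeries ℤ_[p]) 0 (B * (F : PowerSeries ℤ_[p]))
  rw [e1] at hcore
  have z : (p : PowerSeries ℤ_[p]) ∣ 0 := dvd_zero _
  have h2 : (p : PowerSeries ℤ_[p]) ∣ DD (dl p) (A : PowerSeries ℤ_[p]) 0
      (DD (dl p) (A : PowerSeries ℤ_[p]) 0 (DD (dl p) (A : PowerSeries ℤ_[p]) 0
        (B * (F : PowerSeries ℤ_[p])))) := by
    have h3 : (p : PowerSeries ℤ_[p]) ∣ (A : PowerSeries ℤ_[p]) ^ 2 *
        (LL (dl p) q 0 (F : PowerSeries ℤ_[p]) - B * (F : PowerSeries ℤ_[p]) *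
          LL (dl p) q 0 (A : PowerSeries ℤ_[p])) :=
      Dvd.dvd.mul_left (dvd_sub h1 (Dvd.dvd.mul_left h0 _)) _
    rw [← hcore] at h3
    exact (dvd_add_left (Dvd.dvd.mul_right hΔ _)).1 h3
  have h4 := der_dvd hA' z (nolog hA' z z (nolog hA' z z h2))
  have h5 := to_poly (A := A) (Ej := F) 1 (by
    have e2 : (A : PowerSeries ℤ_[p]) * dl p (F : PowerSeries ℤ_[p]) -
      ((1 : ℕ) : PowerSeries ℤ_[p]) * dl p (A : PowerSeries ℤ_[p]) * (F : PowerSeries ℤ_[p]) =
        dl p (B * (F : PowerSeries ℤ_[p])) * (A : PowerSeries ℤ_[p]) ^ 2 := by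
      set G := B * (F : PowerSeries ℤ_[p]) with hG
      rw [← e1, der_mul]; push_cast; ring
    rw [e2]; exact Dvd.dvd.mul_right h4 _)
  rw [Nat.cast_one, one_mul] at h5
  exact h5

end Pool.Agent.H78.FS
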