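import Pool.Agent.H78.FS.Id2
import Mathlib.Algebra.QuadraticAlgebra.Defs

/-!
Evaluation of the polynomials.
-/

set_option autoImplicit false
set_option linter.unusedSectionVars false
set_option linter.unusedSimpArgs false
set_option linter.unusedVariables false
set_option linter.unusedTactic false

namespace Pool.Agent.H78.FS

open Polynomial

section ev

variable {A : Type*} [CommRing A]

/-- the truncated sum -/
def HH (n : ℕ) (x : A) : A := ∑ k ∈ Finset.range (n + 1), (u2 k : A) * x ^ k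

theorem pow_sub_inv {y y' : A} (h : y * y' = 1) {n k : ℕ} (hk : k ≤ n) : y ^ (n - k) = y ^ n * y' ^ k := by
  have : y ^ n = y ^ (n - k) * y ^ k := by rw [← pow_add]; congr 1; omega
  rw [this, mul_assoc, ← mul_pow, h, one_pow, mul_one]

theorem ev_a {s z t : A} (n : ℕ) (h : t * (1 - t) = z) : (pa s n).eval t = HH n (s * z) := by
  rw [eval_a, h]; unfold HH
  apply Finset.sum_congr rfl
  intro k _
  rw [mul_pow]; ring

theorem ev_b {s t t' : A} (n : ℕ) (h : t * t' = 1) :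
    (pb s n).eval t = t ^ (2 * n) * HH n (-s * (1 - t) * t' ^ 2) := by
  rw [eval_b]; unfold HH
  rw [Finset.mul_sum]
  apply Finset.sum_congr rfl
  intro k hk
  rw [Finset.mem_range] at hk
  rw [pow_sub_inv h (show 2 * k ≤ 2 * n by omega), mul_pow, mul_pow, ← pow_mul]; ring

theorem ev_c {s t t' : A} (n : ℕ) (h : (1 - t) * t' = 1) :
    (pc s n).eval t = (1 - t) ^ (2 * n) * HH n (-s * t * t' ^ 2) := by
  rw [eval_c]; unfold HH
  rw [Finset.mul_sum]
  apply Finset.sum_congr rfl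
  intro k hk
  rw [Finset.mem_range] at hk
  rw [pow_sub_inv h (show 2 * k ≤ 2 * n by omega), mul_pow, mul_pow, ← pow_mul]; ring

theorem ev_d {z t y y' : A} (n : ℕ) (h : t * (1 - t) = z) (hy : 256 * z = y) (hyy : y * y' = 1) :
    (pd A n).eval t = y ^ n * HH n y' := by
  rw [eval_d, h]; unfold HH
  rw [Finset.mul_sum]
  apply Finset.sum_congr rfl
  intro k hk
  rw [Finset.mem_range] at hk
  have : (256 : A) ^ (n - k) * z ^ (n - k) = y ^ n * y' ^ k := by
    rw [← mul_pow, hy, pow_sub_inv hyy (by omega)]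
  linear_combination (u2 k : A) * this

theorem ev_G {s z t v : A} (n K : ℕ) (h : t * (1 - t) = z) (hv : s ^ 2 * z ^ 2 = (v * (1 - z)) ^ 3)
    (hK : 3 * K ≤ 5 * n + 2) : (pG s n K).eval t =
      (1 - z) ^ (5 * n + 2) * ∑ k ∈ Finset.range (K + 1), (C6 k : A) * (v ^ 3) ^ k := by
  rw [eval_G, h, Finset.mul_sum]
  apply Finset.sum_congr rfl
  intro k hk
  rw [Finset.mem_range] at hk
  have e1 : 5 * n + 2 = (5 * n + 2 - 3 * k) + 3 * k := by omega
  have e2 : (1 - z) ^ (5 * n + 2) = (1 - z) ^ (5 * n + 2 - 3 * k) * ((1 - z) ^ 3) ^ k := by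
    conv_lhs => rw [e1, pow_add, pow_mul]
  rw [e2]
  have e3 : (s ^ 2) ^ k * z ^ (2 * k) = (v ^ 3) ^ k * ((1 - z) ^ 3) ^ k := by
    rw [pow_mul z, ← mul_pow (s ^ 2), hv, mul_pow v, mul_pow (v ^ 3)]
  linear_combination (C6 k : A) * (1 - z) ^ (5 * n + 2 - 3 * k) * e3

theorem map_HH {B : Type*} [CommRing B] (f : A →+* B) (n : ℕ) (x : A) : f (HH n x) = HH n (f x) := by
  unfold HH
  rw [map_sum]
  apply Finset.sum_congr rfl
  intro k _
  rw [map_mul, map_pow, map_intCast]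

end ev

variable {p : ℕ} [hp : Fact p.Prime]

theorem unit_dvd {u x : ℤ_[p]} {k : ℕ} (hu : IsUnit u) (h : (p : ℤ_[p]) ^ k ∣ u * x) :
    (p : ℤ_[p]) ^ k ∣ x := (hu.dvd_mul_left).1 h

theorem isUnit_of_red {x : ℤ_[p]} (h : PadicInt.toZMod x ≠ 0) : IsUnit x := by
  by_contra hx
  apply h
  rw [red_zero]
  rw [PadicInt.isUnit_iff] at hx
  have hlt : ‖x‖ < 1 := lt_of_le_of_ne (PadicInt.norm_le_one _) hx
  have := (PadicInt.norm_lt_one_iff_dvd x).1 hlt
  exact this

theorem toZMod_eval (F : ℤ_[p][X]) (t : ℤ_[p]) :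
    PadicInt.toZMod (F.eval t) = (rp F).eval (PadicInt.toZMod t) := by
  rw [rp_apply, eval_map_apply]

section

variable {s : ℤ_[p]} {n : ℕ} (hs : 16 * s = 1) (hn : p = 2 * n + 1) (h5 : 5 ≤ p)

include hs hn h5

/-- `a(1/2)` is a unit if `n` is even. -/
theorem h1_ne (hev : Even n) : PadicInt.toZMod (HH n (4 * s ^ 2)) ≠ 0 := by
  have h3 : 3 ≤ p := by omega
  have hsb := s_bar hs hn h3
  set T := rp (pT s n) with hT
  set x : ZMod p := 8 * PadicInt.toZMod s with hx
  have hx2 : 1 - x = x := by rw [hx]; linear_combination -hsb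
  have h2 : (2 : ZMod p) ≠ 0 := by
    have := zmod_nat_ne (p := p) (m := 2) (by norm_num) (by omega)
    exact_mod_cast this
  -- T is symmetric
  have ha : rp (pa s n) = T ^ 2 := rp_T hs hn h3
  have hsg : sg (ZMod p) T ^ 2 = T ^ 2 := by
    rw [← map_pow, ← ha, rp_apply, map_a, sg_a]
  have hTn : T.natDegree = n := T_deg hn hsb
  have hTne : T ≠ 0 := T_ne hs hn h3
  have hlc : (sg (ZMod p) T).leadingCoeff = T.leadingCoeff := by
    rw [sg_apply]
    have e : (1 - X : (ZMod p)[X]) = -(X - C 1) := by simp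
    have nd1 : (1 - X : (ZMod p)[X]).natDegree = 1 := by
      rw [e, natDegree_neg, natDegree_X_sub_C]
    rw [leadingCoeff_comp (by rw [nd1]; norm_num), e, leadingCoeff_neg, leadingCoeff_X_sub_C, hTn,
      hev.neg_one_pow, mul_one]
  have hsym : sg (ZMod p) T = T := by
    have h4 : (sg (ZMod p) T - T) * (sg (ZMod p) T + T) = 0 := by linear_combination hsg
    rcases mul_eq_zero.1 h4 with h | h
    · exact sub_eq_zero.1 h
    · exfalso
      have h6 : sg (ZMod p) T = -T := by linear_combination h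
      rw [h6, leadingCoeff_neg] at hlc
      have h7 : (2 : ZMod p) * T.leadingCoeff = 0 := by linear_combination -hlc
      rcases mul_eq_zero.1 h7 with h8 | h8
      · exact h2 h8
      · exact hTne (leadingCoeff_eq_zero.1 h8)
  have hder : (derivative T).eval x = 0 := by
    have h4 := congrArg derivative hsym
    rw [sg_apply, derivative_comp] at h4
    have h6 := congrArg (eval x) h4
    simp only [derivative_sub, derivative_one, derivative_X, eval_mul, eval_comp, eval_sub, eval_one,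
      eval_X, eval_zero] at h6
    rw [hx2] at h6
    have h7 : (2 : ZMod p) * (derivative T).eval x = 0 := by linear_combination -h6
    exact (mul_eq_zero.1 h7).resolve_left h2
  have hTx : T.eval x ≠ 0 := by
    intro h
    obtain ⟨α, β, hαβ⟩ := T_sep hs hn h3
    have h4 := congrArg (eval x) hαβ
    rw [eval_add, eval_mul, eval_mul, ← hT, h, hder, eval_one] at h4
    simp at h4
  have e1 : (pa s n).eval (8 * s) = HH n (4 * s ^ 2) := by
    rw [ev_a n (show (8 * s) * (1 - 8 * s) = 4 * s by linear_combination (-4 * s) * hs)]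
    congr 1; ring
  have e2 := toZMod_eval (pa s n) (8 * s)
  rw [e1, ha, eval_pow, map_mul, map_ofNat] at e2
  rw [e2]
  exact pow_ne_zero _ hTx

omit hs h5 in
theorem fermat {x : ℤ_[p]} (hx : PadicInt.toZMod x ≠ 0) : PadicInt.toZMod (x ^ (2 * n)) = 1 := by
  rw [map_pow]
  have := ZMod.pow_card_sub_one_eq_one hx
  rwa [show p - 1 = 2 * n by omega] at this

theorem s_ne : PadicInt.toZMod s ≠ 0 := by
  intro h
  have := s_bar hs hn (show 3 ≤ p by omega)
  rw [h, mul_zero] at this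
  exact zero_ne_one this

omit hn in
theorem unit_nat {m : ℕ} (hm : ¬ p ∣ m) : IsUnit (m : ℤ_[p]) := by
  apply isUnit_of_red
  rw [map_natCast, Ne, CharP.cast_eq_zero_iff (ZMod p) p]
  exact hm

theorem unit_two : IsUnit (2 : ℤ_[p]) := by
  have := unit_nat hs h5 (m := 2) (fun h => by have := Nat.le_of_dvd (by norm_num) h; omega)
  exact_mod_cast this

/-- `H(-1/8) ≡ H(1/64)` modulo `p`, hence a unit. -/
theorem h8_red : PadicInt.toZMod (HH n (-2 * s)) = PadicInt.toZMod (HH n (4 * s ^ 2)) := by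
  have h3 : 3 ≤ p := by omega
  have e1 : (pa s n).eval (8 * s) = HH n (4 * s ^ 2) := by
    rw [ev_a n (show (8 * s) * (1 - 8 * s) = 4 * s by linear_combination (-4 * s) * hs)]
    congr 1; ring
  have e2 : (pb s n).eval (8 * s) = (8 * s) ^ (2 * n) * HH n (-2 * s) := by
    rw [ev_b n (show (8 * s) * 2 = 1 by linear_combination hs)]
    congr 2
    linear_combination (2 * s) * hs
  have e3 : (rp (pb s n)).eval (PadicInt.toZMod (8 * s)) = (rp (pa s n)).eval (PadicInt.toZMod (8 * s)) := by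
    rw [rp_b hs hn h3]
  rw [← toZMod_eval, ← toZMod_eval, e1, e2, map_mul] at e3
  have h8s : PadicInt.toZMod (8 * s) ≠ 0 := by
    intro h
    have h4 : PadicInt.toZMod ((8 * s) * 2) = 1 := by
      have : (8 * s) * 2 = 1 := by linear_combination hs
      rw [this, map_one]
    rw [map_mul, h, zero_mul] at h4
    exact zero_ne_one h4
  rw [fermat hn h8s, one_mul] at e3
  exact e3

/-- `H(-1/8) ≡ H(1/64)` modulo `p ^ 3`. -/
theorem h8_eq (hev : Even n) : (p : ℤ_[p]) ^ 3 ∣ HH n (-2 * s) - HH n (4 * s ^ 2) := by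
  obtain ⟨M, hM⟩ := id_abc hs hn h5
  have e0 : (1 : ℤ_[p]) - 8 * s = 8 * s := by linear_combination -hs
  have e1 : (pa s n).eval (8 * s) = HH n (4 * s ^ 2) := by
    rw [ev_a n (show (8 * s) * (1 - 8 * s) = 4 * s by linear_combination (-4 * s) * hs)]
    congr 1; ring
  have e2 : (pb s n).eval (8 * s) = (8 * s) ^ (2 * n) * HH n (-2 * s) := by
    rw [ev_b n (show (8 * s) * 2 = 1 by linear_combination hs)]
    congr 2
    linear_combination (2 * s) * hs
  have e3 : (pc s n).eval (8 * s) = (8 * s) ^ (2 * n) * HH n (-2 * s) := by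
    rw [ev_c n (show (1 - 8 * s) * 2 = 1 by rw [e0]; linear_combination hs), e0]
    congr 2
    linear_combination (-2 * s) * hs
  have h := congrArg (eval (8 * s)) hM
  simp only [eval_sub, eval_mul, eval_add, eval_pow, eval_X, eval_one, eval_C, e0] at h
  rw [e1, e2, e3] at h
  have hp1 : (8 * s) ^ p = (8 * s) ^ (2 * n) * (8 * s) := by rw [← pow_succ, ← hn]
  rw [hp1] at h
  set e := (8 * s) ^ (2 * n) with he
  set h8 := HH n (-2 * s) with hh8
  set h1 := HH n (4 * s ^ 2) with hh1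
  have hu8 : IsUnit (8 * s) := IsUnit.of_mul_eq_one (2 : ℤ_[p]) (by linear_combination hs)
  have hue : IsUnit e := hu8.pow _
  have huh : IsUnit h8 := by
    apply isUnit_of_red
    rw [hh8, h8_red hs hn h5]
    exact h1_ne hs hn h5 hev
  apply unit_dvd ((hue.pow 2).mul huh)
  refine ⟨eval (8 * s) M, ?_⟩
  linear_combination h + e ^ 2 * h1 * h8 * hs

/-- the ratio of the constants -/
theorem const_eq (hev : Even n) : (p : ℤ_[p]) ^ 3 ∣
    (pd ℤ_[p] n).eval 0 ^ 2 - (pb s n).eval 0 * 2 ^ (16 * n) := by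
  obtain ⟨M, hM⟩ := id_bcd hs hn h5
  have e0 : (1 : ℤ_[p]) - 8 * s = 8 * s := by linear_combination -hs
  have e1 : (pd ℤ_[p] n).eval (8 * s) = 64 ^ n * HH n (4 * s ^ 2) := by
    rw [ev_d n (show (8 * s) * (1 - 8 * s) = 4 * s by linear_combination (-4 * s) * hs)
      (show 256 * (4 * s) = 64 by linear_combination 64 * hs)
      (show 64 * (4 * s ^ 2) = 1 by linear_combination (16 * s + 1) * hs)]
  have e2 : (pb s n).eval (8 * s) = (8 * s) ^ (2 * n) * HH n (-2 * s) := by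
    rw [ev_b n (show (8 * s) * 2 = 1 by linear_combination hs)]
    congr 2
    linear_combination (2 * s) * hs
  have e3 : (pc s n).eval (8 * s) = (8 * s) ^ (2 * n) * HH n (-2 * s) := by
    rw [ev_c n (show (1 - 8 * s) * 2 = 1 by rw [e0]; linear_combination hs), e0]
    congr 2
    linear_combination (-2 * s) * hs
  have h := congrArg (eval (8 * s)) hM
  simp only [eval_sub, eval_mul, eval_pow, eval_C] at h
  rw [e1, e2, e3] at h
  obtain ⟨r, hr⟩ := h8_eq hs hn h5 hev
  set β := (pb s n).eval 0 with hβ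
  set δ := (pd ℤ_[p] n).eval 0 with hδ
  have he : (8 * s) ^ (2 * n) * 2 ^ (2 * n) = 1 := by
    rw [← mul_pow, show 8 * s * 2 = 1 by linear_combination hs, one_pow]
  set e := (8 * s) ^ (2 * n) with hee
  set h8 := HH n (-2 * s) with hh8
  set h1 := HH n (4 * s ^ 2) with hh1
  have hu1 : IsUnit h1 := isUnit_of_red (h1_ne hs hn h5 hev)
  apply unit_dvd (hu1.pow 2)
  have hr' : h8 = h1 + (p : ℤ_[p]) ^ 3 * r := by linear_combination hr
  rw [hr'] at h
  have p64 : (64 : ℤ_[p]) ^ n = 2 ^ (6 * n) := by rw [pow_mul]; norm_num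
  have p16 : (2 : ℤ_[p]) ^ (16 * n) = (2 ^ (6 * n)) ^ 2 * (2 ^ (2 * n)) ^ 2 := by
    rw [← pow_mul, ← pow_mul, ← pow_add]; congr 1; ring
  rw [p64] at h
  rw [p16]
  set t2 := (2 : ℤ_[p]) ^ (2 * n) with ht2
  set t6 := (2 : ℤ_[p]) ^ (6 * n) with ht6
  refine ⟨-(eval (8 * s) M * t2 ^ 2 +
    δ ^ 2 * e ^ 2 * t2 ^ 2 * (2 * h1 * r + (p : ℤ_[p]) ^ 3 * r ^ 2)), ?_⟩
  linear_combination -t2 ^ 2 * h - δ ^ 2 * h1 ^ 2 * (e * t2 + 1) * he

/-- `H(-1/512)^2 ≡ H(1/64)^2` modulo `p ^ 3`. -/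
theorem h512_eq (hev : Even n) :
    (p : ℤ_[p]) ^ 3 ∣ HH n (-8 * s ^ 3) ^ 2 - HH n (4 * s ^ 2) ^ 2 := by
  obtain ⟨M, hM⟩ := id_bcd hs hn h5
  have e1 : (pd ℤ_[p] n).eval (-1) = (-512) ^ n * HH n (-8 * s ^ 3) := by
    rw [ev_d n (show (-1 : ℤ_[p]) * (1 - -1) = -2 by norm_num)
      (show 256 * (-2 : ℤ_[p]) = -512 by norm_num)
      (show (-512 : ℤ_[p]) * (-8 * s ^ 3) = 1 by linear_combination (256 * s ^ 2 + 16 * s + 1) * hs)]
  have e2 : (pb s n).eval (-1) = HH n (-2 * s) := by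
    rw [ev_b n (show (-1 : ℤ_[p]) * (-1) = 1 by norm_num), Even.neg_one_pow ⟨n, by ring⟩, one_mul]
    congr 1; ring
  have e3 : (pc s n).eval (-1) = 2 ^ (2 * n) * HH n (4 * s ^ 2) := by
    rw [ev_c n (show (1 - (-1) : ℤ_[p]) * (8 * s) = 1 by linear_combination hs)]
    congr 1
    · norm_num
    · congr 1
      linear_combination (4 * s ^ 2) * hs
  have h := congrArg (eval (-1)) hM
  simp only [eval_sub, eval_mul, eval_pow, eval_C] at h
  rw [e1, e2, e3] at h
  obtain ⟨r, hr⟩ := h8_eq hs hn h5 hev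
  obtain ⟨r2, hr2⟩ := const_eq hs hn h5 hev
  set β := (pb s n).eval 0 with hβ
  set δ := (pd ℤ_[p] n).eval 0 with hδ
  set h8 := HH n (-2 * s) with hh8
  set h1 := HH n (4 * s ^ 2) with hh1
  set h5' := HH n (-8 * s ^ 3) with hh5
  have hβu : IsUnit β := by
    apply isUnit_of_red
    have h3 : 3 ≤ p := by omega
    rw [hβ, toZMod_eval, rp_b hs hn h3, map_zero, rp_apply, map_a, a_at0]
    exact one_ne_zero
  have p512 : ((-512 : ℤ_[p]) ^ n) ^ 2 = (2 ^ (16 * n)) * 2 ^ (2 * n) := by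
    rw [← pow_mul, mul_comm n 2, pow_mul, ← pow_add, show 16 * n + 2 * n = 18 * n by ring, pow_mul]
    norm_num
  have hmul : ((-512 : ℤ_[p]) ^ n * h5') ^ 2 = (2 ^ (16 * n)) * 2 ^ (2 * n) * h5' ^ 2 := by
    rw [mul_pow, p512]
  rw [hmul] at h
  set t2 := (2 : ℤ_[p]) ^ (2 * n) with ht2
  set t16 := (2 : ℤ_[p]) ^ (16 * n) with ht16
  have hu2 : IsUnit t2 := (unit_two hs hn h5).pow _
  have hu16 : IsUnit t16 := (unit_two hs hn h5).pow _
  apply unit_dvd ((hβu.mul hu16).mul hu2)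
  refine ⟨eval (-1) M + r2 * h8 * t2 * h1 + β * t16 * t2 * h1 * r, ?_⟩
  linear_combination h + (h8 * t2 * h1) * hr2 + β * t16 * t2 * h1 * hr

end

end Pool.Agent.H78.FS
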