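import Pool.Agent.H78.FS.Ev
import Mathlib.Algebra.QuadraticAlgebra.Basic

/-!
The congruences for the sums, in the `p`-adic integers.
-/

set_option autoImplicit false
set_option linter.unusedSectionVars false
set_option linter.unusedSimpArgs false
set_option linter.unusedVariables false
set_option linter.unusedTactic false

namespace Pool.Agent.H78.FS

open Polynomial

variable {p : ℕ} [hp : Fact p.Prime]

/-- the sum of `C6 k x^k` -/
def GGs {A : Type*} [CommRing A] (K : ℕ) (x : A) : A := ∑ k ∈ Finset.range (K + 1), (C6 k : A) * x ^ k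

theorem map_GGs {A B : Type*} [CommRing A] [CommRing B] (f : A →+* B) (K : ℕ) (x : A) :
    f (GGs K x) = GGs K (f x) := by
  unfold GGs
  rw [map_sum]
  apply Finset.sum_congr rfl
  intro k _
  rw [map_mul, map_pow, map_natCast]

section

variable {s : ℤ_[p]} {n K m : ℕ} (hs : 16 * s = 1) (hn : p = 2 * n + 1) (h13 : 13 ≤ p)
  (hmn : 3 * m ≤ n) (hnK : n ≤ K) (hK : 3 * K ≤ 5 * n + 2) (hv : p ^ 3 ∣ C6 (K + 1))
  (hv1 : ∀ k, m < k → k ≤ K → p ∣ C6 k) (hv2 : ∀ k, n < k → k ≤ K → p ^ 2 ∣ C6 k)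

include hs hn h13 hmn hnK hK hv hv1 hv2

/-- `G ≡ J^{2p} a` modulo `p` -/
theorem G_modp : ∃ M : ℤ_[p][X], pG s n K = pJ ℤ_[p] ^ (2 * p) * pa s n + C (p : ℤ_[p]) * M := by
  have h3 : 3 ≤ p := by omega
  obtain ⟨B, hB⟩ := exists_B s n
  obtain ⟨w, hw, hw1⟩ := exists_w (p := p)
  obtain ⟨g0, g1, g2, nd0, nd1, nd2, g00, hG⟩ := G_dec s hn hmn hnK hK hv1 hv2
  have hC := Cl_G hs hn h3 hK hv hB hw hw1
  have h1 := prop_modp (a_coeff0 s n) hB
    ⟨5 * (8 * PowerSeries.C s) * (w * (1 - 2 * PowerSeries.X)), by ring⟩ hC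
  have hrG : rp (pG s n K) = pJ (ZMod p) ^ (2 * p) * rp g0 := by
    have e1 : C (p : ℤ_[p]) * (pJ ℤ_[p] ^ p * g1) + C (p : ℤ_[p]) ^ 2 * g2 =
      C (p : ℤ_[p]) * (pJ ℤ_[p] ^ p * g1 + C (p : ℤ_[p]) * g2) := by ring
    rw [hG, add_assoc, e1, map_add, rp_p_mul, add_zero, map_mul, map_pow, rp_apply (pJ ℤ_[p]), map_J]
  have hJne : pJ (ZMod p) ≠ 0 := by
    intro h
    have := congrArg (eval 0) h
    rw [eval_J] at this
    simp at this
  have hJp : pJ (ZMod p) ^ (2 * p) ≠ 0 := pow_ne_zero _ hJne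
  have hJd : derivative (pJ (ZMod p) ^ (2 * p)) = 0 := by
    rw [derivative_pow]
    have : ((2 * p : ℕ) : ZMod p) = 0 := by push_cast; simp
    rw [this, C_0, zero_mul, zero_mul]
  have h2 : rp (pa s n) * derivative (rp g0) = derivative (rp (pa s n)) * rp g0 := by
    rw [hrG, derivative_mul, hJd] at h1
    apply mul_left_cancel₀ hJp
    linear_combination h1
  have h4 := uniq p (rp_a0 hs hn h3) h2 (rp_a_deg hs hn h3) (by
    rw [rp_apply]
    exact lt_of_le_of_lt natDegree_map_le (by omega))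
  have h5 : (rp g0).coeff 0 = 1 := by
    rw [rp_apply, coeff_map, coeff_zero_eq_eval_zero, g00, map_one]
  rw [h5, C_1, one_mul] at h4
  have h6 : rp (pG s n K - pJ ℤ_[p] ^ (2 * p) * pa s n) = 0 := by
    rw [map_sub, hrG, h4, map_mul, map_pow, rp_apply (pJ ℤ_[p]), map_J, sub_self]
  obtain ⟨M, hM⟩ := (rp_eq_zero _).1 h6
  exact ⟨M, by linear_combination hM⟩

/-- First sum: squares. -/
theorem S2_sq (hev : Even n) {v : ℤ_[p]} (hv12 : 12 * v = 1) :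
    (p : ℤ_[p]) ^ 3 ∣ GGs K (v ^ 3) ^ 2 - HH n (4 * s ^ 2) ^ 2 := by
  have h5 : 5 ≤ p := by omega
  obtain ⟨M, hM⟩ := id_G hs hn h13 hmn hnK hK hv hv1 hv2
  have e0 : (1 : ℤ_[p]) - 8 * s = 8 * s := by linear_combination -hs
  have ez : (8 * s) * (1 - 8 * s) = 4 * s := by linear_combination (-4 * s) * hs
  have e1 : (pa s n).eval (8 * s) = HH n (4 * s ^ 2) := by
    rw [ev_a n ez]
    congr 1; ring
  have e2 : (pb s n).eval (8 * s) = (8 * s) ^ (2 * n) * HH n (-2 * s) := by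
    rw [ev_b n (show (8 * s) * 2 = 1 by linear_combination hs)]
    congr 2
    linear_combination (2 * s) * hs
  have e3 : (pc s n).eval (8 * s) = (8 * s) ^ (2 * n) * HH n (-2 * s) := by
    rw [ev_c n (show (1 - 8 * s) * 2 = 1 by rw [e0]; linear_combination hs), e0]
    congr 2
    linear_combination (-2 * s) * hs
  have hvs : v * (1 - 4 * s) = s := by linear_combination s * hv12 - v * hs
  have e4 : (pG s n K).eval (8 * s) = (1 - 4 * s) ^ (5 * n + 2) * GGs K (v ^ 3) := by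
    rw [ev_G n K ez (v := v) (by rw [hvs]; linear_combination s ^ 3 * hs) hK]
    rfl
  have e5 : (pJ ℤ_[p]).eval (8 * s) = 1 - 4 * s := by rw [eval_J, ez]
  have h := congrArg (eval (8 * s)) hM
  have two_C : (2 : ℤ_[p][X]) = C 2 := (map_ofNat C 2).symm
  rw [two_C] at h
  simp only [eval_sub, eval_mul, eval_add, eval_pow, eval_X, eval_one, eval_C, e0] at h
  rw [e1, e2, e3, e4, e5] at h
  obtain ⟨r, hr⟩ := h8_eq hs hn h5 hev
  have p1 : (8 * s) ^ (2 * p) = ((8 * s) ^ (2 * n)) ^ 2 * (8 * s) ^ 2 := by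
    rw [← pow_mul, ← pow_add]; congr 1; omega
  have p2 : (1 - 4 * s) ^ (5 * p) = ((1 - 4 * s) ^ (5 * n + 2)) ^ 2 * (1 - 4 * s) := by
    rw [← pow_mul, ← pow_succ]; congr 1; omega
  rw [p1, p2] at h
  have u8 : IsUnit (8 * s) := IsUnit.of_mul_eq_one (2 : ℤ_[p]) (by linear_combination hs)
  have us : IsUnit s := IsUnit.of_mul_eq_one (16 : ℤ_[p]) (by linear_combination hs)
  have uv : IsUnit v := IsUnit.of_mul_eq_one (12 : ℤ_[p]) (by linear_combination hv12)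
  have uq : IsUnit (1 - 4 * s) := by
    rw [← hvs] at us
    exact isUnit_of_mul_isUnit_right us
  have u1 : IsUnit (1 + 8 * s) := by
    have h2 : IsUnit (2 : ℤ_[p]) := unit_two hs hn h5
    have : (1 + 8 * s) = 2 * (1 - 4 * s) := by linear_combination hs
    rw [this]; exact h2.mul uq
  have uh1 : IsUnit (HH n (4 * s ^ 2)) := isUnit_of_red (h1_ne hs hn h5 hev)
  set e := (8 * s) ^ (2 * n) with he
  set q := (1 - 4 * s) ^ (5 * n + 2) with hq
  set h8 := HH n (-2 * s) with hh8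
  set h1 := HH n (4 * s ^ 2) with hh1
  set S2 := GGs K (v ^ 3) with hS2
  have ue : IsUnit e := u8.pow _
  have uq' : IsUnit q := uq.pow _
  apply unit_dvd ((((ue.pow 4).mul (uh1.pow 4)).mul (uq'.pow 2)).mul u1)
  have hr' : h8 = h1 + (p : ℤ_[p]) ^ 3 * r := by linear_combination hr
  have d2 : ∃ r2, h8 ^ 2 = h1 ^ 2 + (p : ℤ_[p]) ^ 3 * r2 :=
    ⟨2 * h1 * r + (p : ℤ_[p]) ^ 3 * r ^ 2, by rw [hr']; ring⟩
  obtain ⟨r2, d2⟩ := d2
  have d4 : h8 ^ 4 = h1 ^ 4 + (p : ℤ_[p]) ^ 3 * (2 * h1 ^ 2 * r2 + (p : ℤ_[p]) ^ 3 * r2 ^ 2) := by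
    have : h8 ^ 4 = (h8 ^ 2) ^ 2 := by ring
    rw [this, d2]; ring
  set r4 := 2 * h1 ^ 2 * r2 + (p : ℤ_[p]) ^ 3 * r2 ^ 2 with hr4
  refine ⟨-(eval (8 * s) M) + (2 * q ^ 2 * (1 - 4 * s) * h1 ^ 2 * e ^ 4 * r4 -
    q ^ 2 * S2 ^ 2 * (e ^ 4 * r4 + 128 * s ^ 2 * e ^ 4 * h1 ^ 2 * r2)), ?_⟩
  have hh : 2 * (q ^ 2 * (1 - 4 * s)) * (h1 ^ 2 * e ^ 4 * h8 ^ 4) -
      q ^ 2 * S2 ^ 2 * (e ^ 4 * h8 ^ 4 + 128 * s ^ 2 * e ^ 4 * h1 ^ 2 * h8 ^ 2) =
      (p : ℤ_[p]) ^ 3 * eval (8 * s) M := by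
    linear_combination h
  rw [d4, d2] at hh
  linear_combination -hh + (-q ^ 2 * e ^ 4 * h1 ^ 4 * (8 * s * S2 ^ 2 + h1 ^ 2)) * hs

theorem S2_mod (hev : Even n) {v : ℤ_[p]} (hv12 : 12 * v = 1) :
    (3 : ZMod p) ^ n * PadicInt.toZMod (GGs K (v ^ 3)) = PadicInt.toZMod (HH n (4 * s ^ 2)) := by
  have h5 : 5 ≤ p := by omega
  have h3 : 3 ≤ p := by omega
  obtain ⟨M, hM⟩ := G_modp hs hn h13 hmn hnK hK hv hv1 hv2
  have ez : (8 * s) * (1 - 8 * s) = 4 * s := by linear_combination (-4 * s) * hs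
  have e1 : (pa s n).eval (8 * s) = HH n (4 * s ^ 2) := by
    rw [ev_a n ez]
    congr 1; ring
  have hvs : v * (1 - 4 * s) = s := by linear_combination s * hv12 - v * hs
  have e4 : (pG s n K).eval (8 * s) = (1 - 4 * s) ^ (5 * n + 2) * GGs K (v ^ 3) := by
    rw [ev_G n K ez (v := v) (by rw [hvs]; linear_combination s ^ 3 * hs) hK]
    rfl
  have e5 : (pJ ℤ_[p]).eval (8 * s) = 1 - 4 * s := by rw [eval_J, ez]
  have h := congrArg (eval (8 * s)) hM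
  simp only [eval_mul, eval_add, eval_pow, eval_C] at h
  rw [e1, e4, e5] at h
  have h' := congrArg PadicInt.toZMod h
  rw [map_add, map_mul, map_mul, map_mul, map_pow, map_pow, toZMod_p, zero_mul, add_zero] at h'
  set q := PadicInt.toZMod (1 - 4 * s) with hq
  have hsb := s_bar hs hn h3
  have hq12 : q = 12 * PadicInt.toZMod s := by
    rw [hq, map_sub, map_mul, map_one, map_ofNat]; linear_combination -hsb
  have hq0 : q ≠ 0 := by
    intro h0
    have h4 := congrArg PadicInt.toZMod hvs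
    rw [map_mul, ← hq, h0, mul_zero] at h4
    exact s_ne hs hn h5 h4.symm
  have f1 : q ^ (2 * n) = 1 := by
    have := ZMod.pow_card_sub_one_eq_one hq0
    rwa [show p - 1 = 2 * n by omega] at this
  have f2 : q ^ (2 * p) = q ^ 2 := by
    rw [show 2 * p = 2 * n * 2 + 2 by omega, pow_add, pow_mul, f1, one_pow, one_mul]
  have f3 : q ^ (5 * n + 2) = q ^ n * q ^ 2 := by
    rw [show 5 * n + 2 = 2 * n * 2 + (n + 2) by omega, pow_add, pow_mul, f1, one_pow, one_mul, pow_add]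
  have f4 : q ^ n = 3 ^ n := by
    rw [hq12, mul_pow, s_pow hn hsb, mul_one, show (12 : ZMod p) = 3 * 2 ^ 2 by norm_num, mul_pow,
      ← pow_mul, two_pow hn, mul_one]
  rw [f2, f3, f4] at h'
  apply mul_left_cancel₀ (pow_ne_zero 2 hq0)
  linear_combination h'

/-- The evaluation at the quadratic point. -/
theorem S3_sq (hev : Even n) {v : ℤ_[p]} (hv66 : 66 * v = 1) :
    (p : ℤ_[p]) ^ 3 ∣ GGs K (v ^ 3) ^ 2 - HH n (4 * s ^ 2) ^ 2 := by
  have h5 : 5 ≤ p := by omega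
  obtain ⟨M1, hM1⟩ := id_abc hs hn h5
  obtain ⟨M2, hM2⟩ := id_bcd hs hn h5
  obtain ⟨M3, hM3⟩ := id_G hs hn h13 hmn hnK hK hv hv1 hv2
  set f : ℤ_[p] →+* QuadraticAlgebra ℤ_[p] (8 * s ^ 2) 1 := algebraMap _ _ with hf
  set τ : QuadraticAlgebra ℤ_[p] (8 * s ^ 2) 1 := QuadraticAlgebra.omega with hτ
  have hττ : τ * τ = f (8 * s ^ 2) + τ := by
    rw [hτ, QuadraticAlgebra.omega_mul_omega_eq_algebraMap]
    simp [hf]
  have hz : τ * (1 - τ) = f (-8 * s ^ 2) := by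
    have : f (-8 * s ^ 2) = -f (8 * s ^ 2) := by rw [← map_neg]; congr 1; ring
    rw [this]; linear_combination -hττ
  have f2 : f 2 = 2 := map_ofNat f 2
  have two_C : (2 : ℤ_[p][X]) = C 2 := (map_ofNat C 2).symm
  -- values
  have hvs : v * (1 + 8 * s ^ 2) = 4 * s ^ 2 := by
    linear_combination (4 * s ^ 2) * hv66 + (-(16 * s * v) - v) * hs
  have e1 : (pa (f s) n).eval τ = f (HH n (-8 * s ^ 3)) := by
    rw [ev_a n hz, ← map_mul, ← map_HH]
    congr 2; ring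
  have e4 : (pd (QuadraticAlgebra ℤ_[p] (8 * s ^ 2) 1) n).eval τ = f ((-8) ^ n * HH n (-2 * s)) := by
    rw [ev_d n hz (y := f (-8)) (y' := f (-2 * s)), map_mul f ((-8) ^ n), map_pow f, map_HH]
    · have h256 : (256 : QuadraticAlgebra ℤ_[p] (8 * s ^ 2) 1) = f 256 := (map_ofNat f 256).symm
      rw [h256, ← map_mul]
      congr 1; linear_combination -(128 * s + 8) * hs
    · rw [← map_mul, ← map_one f]
      congr 1; linear_combination hs
  have e5 : (pG (f s) n K).eval τ = f ((1 + 8 * s ^ 2) ^ (5 * n + 2) * GGs K (v ^ 3)) := by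
    have hJv : (1 : QuadraticAlgebra ℤ_[p] (8 * s ^ 2) 1) - f (-8 * s ^ 2) = f (1 + 8 * s ^ 2) := by
      rw [← map_one f, ← map_sub]; congr 1; ring
    rw [ev_G n K hz (v := f v) (by
      rw [hJv, ← map_mul, ← map_pow, ← map_pow, ← map_pow, ← map_mul]
      congr 1; rw [hvs]; ring) hK, hJv, map_mul, map_pow, map_GGs, map_pow]
    rfl
  have e6 : (pJ (QuadraticAlgebra ℤ_[p] (8 * s ^ 2) 1)).eval τ = f (1 + 8 * s ^ 2) := by
    rw [eval_J, hz, ← map_one f, ← map_sub]; congr 1; ring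
  set b := (pb (f s) n).eval τ with hb
  set c := (pc (f s) n).eval τ with hc
  have L1 := congrArg (fun F : ℤ_[p][X] => (F.map f).eval τ) hM1
  have L2 := congrArg (fun F : ℤ_[p][X] => (F.map f).eval τ) hM2
  have L3 := congrArg (fun F : ℤ_[p][X] => (F.map f).eval τ) hM3
  beta_reduce at L1 L2 L3
  rw [two_C] at L3
  simp only [Polynomial.map_sub, Polynomial.map_add, Polynomial.map_mul, Polynomial.map_pow,
    Polynomial.map_C, Polynomial.map_X, Polynomial.map_one, map_a, map_b, map_c, map_d, map_J, eval_sub,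
    eval_add, eval_mul, eval_pow, eval_C, eval_X, eval_one] at L1 L2 L3
  have map_G : (pG s n K).map f = pG (f s) n K := by
    unfold pG
    simp only [Polynomial.map_sum, Polynomial.map_sub, Polynomial.map_mul, Polynomial.map_pow,
      Polynomial.map_C, Polynomial.map_X, Polynomial.map_one, map_J, map_mul, map_pow, map_natCast,
      Polynomial.map_natCast]
  rw [map_G] at L3
  rw [e1, ← hb, ← hc] at L1
  rw [e4, ← hb, ← hc] at L2
  rw [e1, e5, e6, ← hb, ← hc, f2, mul_comm 2 p, pow_mul τ, pow_mul (1 - τ)] at L3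
  set β := (pb s n).eval 0 with hβ
  set δ := (pd ℤ_[p] n).eval 0 with hδ
  set m1 := ((M1.map f).eval τ) with hm1
  set m2 := ((M2.map f).eval τ) with hm2
  set m3 := ((M3.map f).eval τ) with hm3
  set P := f (p : ℤ_[p]) with hP
  set h8 := HH n (-2 * s) with hh8
  set h1 := HH n (4 * s ^ 2) with hh1
  set h5' := HH n (-8 * s ^ 3) with hh5
  set Jv := 1 + 8 * s ^ 2 with hJv
  set S3 := GGs K (v ^ 3) with hS3
  -- the product u v
  have huv : τ ^ p * (1 - τ) ^ p = f ((-8 * s ^ 2) ^ p) := by rw [← mul_pow, hz, map_pow]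
  set u := τ ^ p with hu
  set u' := (1 - τ) ^ p with hu'
  set gz : ℤ_[p] := β * ((-8) ^ n * h8) ^ 2 with hgz
  set Gz : ℤ_[p] := Jv ^ (5 * n + 2) * S3 with hGz
  set x : ℤ_[p] := 2 * gz * (Jv ^ (5 * p) * h5' ^ 2 * gz - Gz ^ 2 * (gz - δ ^ 2 * h5' ^ 2 *
    (-8 * s ^ 2) ^ p)) with hx
  have hxd : (p : ℤ_[p]) ^ 3 ∣ x := by
    rw [← QuadraticAlgebra.algebraMap_dvd_iff_dvd (a := 8 * s ^ 2) (b := 1)]
    change f ((p : ℤ_[p]) ^ 3) ∣ f x
    rw [map_pow, ← hP]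
    -- all in the quadratic algebra
    have k1 : ∃ t, f δ ^ 2 * (b * c) = f gz + P ^ 3 * t := by
      refine ⟨-m2, ?_⟩
      rw [hgz, map_mul f β, map_pow f _ 2]
      rw [map_pow f δ 2] at L2
      linear_combination -L2
    obtain ⟨t1, k1⟩ := k1
    have k2 : f x = 2 * f gz * (f Jv ^ (5 * p) * f h5' ^ 2 * f gz - f Gz ^ 2 * (f gz - f δ ^ 2 * f h5' ^ 2 *
        (u * u'))) := by
      rw [hx, huv]
      simp only [map_mul, map_sub, map_pow, f2]
    have k3 : f δ ^ 4 * (2 * (b * c) * (f Jv ^ (5 * p) * f h5' ^ 2 * (b * c) -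
        f Gz ^ 2 * ((b * c) - f h5' ^ 2 * (u * u')))) - f x =
        P ^ 3 * (2 * t1 * (f Jv ^ (5 * p) * f h5' ^ 2 * (f δ ^ 2 * (b * c)) -
            f Gz ^ 2 * ((f δ ^ 2 * (b * c)) - f δ ^ 2 * f h5' ^ 2 * (u * u'))) +
          2 * f gz * (f Jv ^ (5 * p) * f h5' ^ 2 - f Gz ^ 2) * t1) := by
      rw [k2]
      linear_combination (2 * (f Jv ^ (5 * p) * f h5' ^ 2 * (f δ ^ 2 * (b * c)) -
            f Gz ^ 2 * ((f δ ^ 2 * (b * c)) - f δ ^ 2 * f h5' ^ 2 * (u * u'))) +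
          2 * f gz * (f Jv ^ (5 * p) * f h5' ^ 2 - f Gz ^ 2)) * k1
    have k4 : P ^ 3 ∣ 2 * (b * c) * (f Jv ^ (5 * p) * f h5' ^ 2 * (b * c) -
        f Gz ^ 2 * ((b * c) - f h5' ^ 2 * (u * u'))) := by
      -- a0 (u c + u' b) = bc - P^3 m1
      have w1 : f h5' * (u * c + u' * b) = b * c - P ^ 3 * m1 := by linear_combination -L1
      have w2 : f h5' ^ 2 * (u ^ 2 * c ^ 2 + u' ^ 2 * b ^ 2) =
          (b * c - P ^ 3 * m1) ^ 2 - 2 * f h5' ^ 2 * (u * u') * (b * c) := by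
        rw [← w1]; ring
      refine ⟨m3 - f Gz ^ 2 * (2 * (b * c) * m1 - P ^ 3 * m1 ^ 2), ?_⟩
      have L3' : 2 * f Jv ^ (5 * p) * (f h5' ^ 2 * b ^ 2 * c ^ 2) - f Gz ^ 2 * (b ^ 2 * c ^ 2 +
          f h5' ^ 2 * (u ^ 2 * c ^ 2 + u' ^ 2 * b ^ 2)) = P ^ 3 * m3 := by
        linear_combination L3
      rw [w2] at L3'
      linear_combination L3'
    obtain ⟨t2, k4⟩ := k4
    rw [k4] at k3
    exact ⟨f δ ^ 4 * t2 - (2 * t1 * (f Jv ^ (5 * p) * f h5' ^ 2 * (f δ ^ 2 * (b * c)) -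
            f Gz ^ 2 * ((f δ ^ 2 * (b * c)) - f δ ^ 2 * f h5' ^ 2 * (u * u'))) +
          2 * f gz * (f Jv ^ (5 * p) * f h5' ^ 2 - f Gz ^ 2) * t1), by linear_combination -k3⟩
  -- units
  have us : IsUnit s := IsUnit.of_mul_eq_one (16 : ℤ_[p]) (by linear_combination hs)
  have u2' : IsUnit (2 : ℤ_[p]) := unit_two hs hn h5
  have uβ : IsUnit β := by
    apply isUnit_of_red
    have h3 : 3 ≤ p := by omega
    rw [hβ, toZMod_eval, rp_b hs hn h3, map_zero, rp_apply, map_a, a_at0]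
    exact one_ne_zero
  have uh1 : IsUnit h1 := isUnit_of_red (h1_ne hs hn h5 hev)
  have uh8 : IsUnit h8 := by
    apply isUnit_of_red
    rw [hh8, h8_red hs hn h5]
    exact h1_ne hs hn h5 hev
  have u8 : IsUnit (-8 : ℤ_[p]) := by
    have : (-8 : ℤ_[p]) = -(2 ^ 3) := by norm_num
    rw [this]; exact (u2'.pow 3).neg
  have uJ : IsUnit Jv := by
    have h4 : IsUnit (4 * s ^ 2) := by
      have : (4 : ℤ_[p]) = 2 ^ 2 := by norm_num
      rw [this]; exact (u2'.pow 2).mul (us.pow 2)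
    rw [← hvs] at h4
    exact isUnit_of_mul_isUnit_right h4
  have ugz : IsUnit gz := uβ.mul (((u8.pow n).mul uh8).pow 2)
  have hx2 : (p : ℤ_[p]) ^ 3 ∣ Jv ^ (5 * p) * h5' ^ 2 * gz - Gz ^ 2 * (gz - δ ^ 2 * h5' ^ 2 *
    (-8 * s ^ 2) ^ p) := unit_dvd (u2'.mul ugz) hxd
  obtain ⟨r0, hr0⟩ := hx2
  obtain ⟨r1, hr1⟩ := h8_eq hs hn h5 hev
  obtain ⟨r2, hr2⟩ := const_eq hs hn h5 hev
  obtain ⟨r3, hr3⟩ := h512_eq hs hn h5 hev
  rw [← hh8, ← hh1] at hr1
  rw [← hδ, ← hβ] at hr2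
  rw [← hh5, ← hh1] at hr3
  have q1 : Jv ^ (5 * p) = (Jv ^ (5 * n + 2)) ^ 2 * Jv := by
    rw [← pow_mul, ← pow_succ]; congr 1; omega
  have q2 : ((-8 : ℤ_[p]) ^ n) ^ 2 = 2 ^ (6 * n) := by
    rw [← pow_mul, mul_comm n 2, pow_mul, pow_mul]; norm_num
  have q3 : (-8 * s ^ 2) ^ p = -((8 * s ^ 2) ^ (2 * n) * (8 * s ^ 2)) := by
    have : (-8 * s ^ 2) ^ p = (-8 * s ^ 2) ^ (2 * n + 1) := by rw [← hn]
    rw [this, pow_succ, show (-8 * s ^ 2 : ℤ_[p]) = -(8 * s ^ 2) by ring, Even.neg_pow ⟨n, by ring⟩]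
    ring
  have q4 : (2 : ℤ_[p]) ^ (16 * n) * (8 * s ^ 2) ^ (2 * n) = 2 ^ (6 * n) := by
    rw [show 16 * n = 8 * (2 * n) by ring, pow_mul (2 : ℤ_[p]) 8 (2 * n), ← mul_pow,
      show 6 * n = 3 * (2 * n) by ring, pow_mul (2 : ℤ_[p]) 3 (2 * n)]
    congr 1
    linear_combination (128 * s + 8) * hs
  have hgz' : gz = β * 2 ^ (6 * n) * h8 ^ 2 := by rw [hgz, mul_pow, q2]; ring
  rw [hgz', hGz, q1, q3] at hr0
  set Jq := Jv ^ (5 * n + 2) with hJq
  set t6 := (2 : ℤ_[p]) ^ (6 * n) with ht6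
  set t16 := (2 : ℤ_[p]) ^ (16 * n) with ht16
  set e8 := (8 * s ^ 2) ^ (2 * n) with he8
  have uJq : IsUnit Jq := uJ.pow _
  have ut6 : IsUnit t6 := u2'.pow _
  have hδ2 : δ ^ 2 = β * t16 + (p : ℤ_[p]) ^ 3 * r2 := by linear_combination hr2
  have hh5s : h5' ^ 2 = h1 ^ 2 + (p : ℤ_[p]) ^ 3 * r3 := by linear_combination hr3
  have hh8s : h8 ^ 2 = h1 ^ 2 + (p : ℤ_[p]) ^ 3 * (2 * h1 * r1 + (p : ℤ_[p]) ^ 3 * r1 ^ 2) := by
    have : h8 = h1 + (p : ℤ_[p]) ^ 3 * r1 := by linear_combination hr1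
    rw [this]; ring
  set r8 := 2 * h1 * r1 + (p : ℤ_[p]) ^ 3 * r1 ^ 2 with hr8
  apply unit_dvd (((((uJq.pow 2).mul uβ).mul ut6).mul (uh1.pow 2)).mul uJ)
  have hr0' : Jq ^ 2 * Jv * h5' ^ 2 * (β * t6 * h8 ^ 2) - (Jq * S3) ^ 2 * (β * t6 * h8 ^ 2 +
      δ ^ 2 * h5' ^ 2 * (e8 * (8 * s ^ 2))) = (p : ℤ_[p]) ^ 3 * r0 := by
    linear_combination hr0
  rw [hδ2, hh5s, hh8s] at hr0'
  refine ⟨-r0 + (Jq ^ 2 * Jv * β * t6 * (h1 ^ 2 * r8 + r3 * h1 ^ 2 + (p : ℤ_[p]) ^ 3 * r3 * r8)) -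
    (Jq * S3) ^ 2 * (β * t6 * r8 + r2 * (h1 ^ 2 + (p : ℤ_[p]) ^ 3 * r3) * (e8 * (8 * s ^ 2)) +
      β * t16 * r3 * (e8 * (8 * s ^ 2))), ?_⟩
  linear_combination -hr0' - ((Jq * S3) ^ 2 * β * h1 ^ 2 * (8 * s ^ 2)) * q4

theorem S3_mod (hev : Even n) {v : ℤ_[p]} (hv66 : 66 * v = 1) :
    (33 : ZMod p) ^ n * PadicInt.toZMod (GGs K (v ^ 3)) = PadicInt.toZMod (HH n (4 * s ^ 2)) := by
  have h5 : 5 ≤ p := by omega
  have h3 : 3 ≤ p := by omega
  obtain ⟨M, hM⟩ := G_modp hs hn h13 hmn hnK hK hv hv1 hv2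
  have hdz : rp (pd ℤ_[p] n - C ((-1) ^ n) * pa s n) = 0 := by
    have e : PadicInt.toZMod ((-1 : ℤ_[p]) ^ n) = (-1) ^ n := by rw [map_pow, map_neg, map_one]
    rw [map_sub, map_mul, rp_d hs hn h3, rp_C, e, sub_self]
  obtain ⟨M', hM'⟩ := (rp_eq_zero _).1 hdz
  set f : ℤ_[p] →+* QuadraticAlgebra ℤ_[p] (8 * s ^ 2) 1 := algebraMap _ _ with hf
  set τ : QuadraticAlgebra ℤ_[p] (8 * s ^ 2) 1 := QuadraticAlgebra.omega with hτ
  have hττ : τ * τ = f (8 * s ^ 2) + τ := by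
    rw [hτ, QuadraticAlgebra.omega_mul_omega_eq_algebraMap]
    simp [hf]
  have hz : τ * (1 - τ) = f (-8 * s ^ 2) := by
    have : f (-8 * s ^ 2) = -f (8 * s ^ 2) := by rw [← map_neg]; congr 1; ring
    rw [this]; linear_combination -hττ
  have hvs : v * (1 + 8 * s ^ 2) = 4 * s ^ 2 := by
    linear_combination (4 * s ^ 2) * hv66 + (-(16 * s * v) - v) * hs
  have e1 : (pa (f s) n).eval τ = f (HH n (-8 * s ^ 3)) := by
    rw [ev_a n hz, ← map_mul, ← map_HH]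
    congr 2; ring
  have e4 : (pd (QuadraticAlgebra ℤ_[p] (8 * s ^ 2) 1) n).eval τ = f ((-8) ^ n * HH n (-2 * s)) := by
    rw [ev_d n hz (y := f (-8)) (y' := f (-2 * s)), map_mul f ((-8) ^ n), map_pow f, map_HH]
    · have h256 : (256 : QuadraticAlgebra ℤ_[p] (8 * s ^ 2) 1) = f 256 := (map_ofNat f 256).symm
      rw [h256, ← map_mul]
      congr 1; linear_combination -(128 * s + 8) * hs
    · rw [← map_mul, ← map_one f]
      congr 1; linear_combination hs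
  have e5 : (pG (f s) n K).eval τ = f ((1 + 8 * s ^ 2) ^ (5 * n + 2) * GGs K (v ^ 3)) := by
    have hJv : (1 : QuadraticAlgebra ℤ_[p] (8 * s ^ 2) 1) - f (-8 * s ^ 2) = f (1 + 8 * s ^ 2) := by
      rw [← map_one f, ← map_sub]; congr 1; ring
    rw [ev_G n K hz (v := f v) (by
      rw [hJv, ← map_mul, ← map_pow, ← map_pow, ← map_pow, ← map_mul]
      congr 1; rw [hvs]; ring) hK, hJv, map_mul, map_pow, map_GGs, map_pow]
    rfl
  have e6 : (pJ (QuadraticAlgebra ℤ_[p] (8 * s ^ 2) 1)).eval τ = f (1 + 8 * s ^ 2) := by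
    rw [eval_J, hz, ← map_one f, ← map_sub]; congr 1; ring
  have map_G : (pG s n K).map f = pG (f s) n K := by
    unfold pG
    simp only [Polynomial.map_sum, Polynomial.map_sub, Polynomial.map_mul, Polynomial.map_pow,
      Polynomial.map_C, Polynomial.map_X, Polynomial.map_one, map_J, map_mul, map_pow, map_natCast,
      Polynomial.map_natCast]
  have L1 := congrArg (fun F : ℤ_[p][X] => (F.map f).eval τ) hM
  have L2 := congrArg (fun F : ℤ_[p][X] => (F.map f).eval τ) hM'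
  beta_reduce at L1 L2
  simp only [Polynomial.map_sub, Polynomial.map_add, Polynomial.map_mul, Polynomial.map_pow,
    Polynomial.map_C, Polynomial.map_X, Polynomial.map_one, map_a, map_b, map_c, map_d, map_J, eval_sub,
    eval_add, eval_mul, eval_pow, eval_C, eval_X, eval_one] at L1 L2
  rw [map_G, e1, e5, e6] at L1
  rw [e1, e4] at L2
  set Jv := 1 + 8 * s ^ 2 with hJv
  set S3 := GGs K (v ^ 3) with hS3
  set h8 := HH n (-2 * s) with hh8
  set h5' := HH n (-8 * s ^ 3) with hh5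
  have D1 : (p : ℤ_[p]) ∣ Jv ^ (5 * n + 2) * S3 - Jv ^ (2 * p) * h5' := by
    rw [← QuadraticAlgebra.algebraMap_dvd_iff_dvd (a := 8 * s ^ 2) (b := 1)]
    change f (p : ℤ_[p]) ∣ f _
    rw [map_sub f, map_mul f (Jv ^ (2 * p)), map_pow f Jv (2 * p)]
    exact ⟨(M.map f).eval τ, by linear_combination L1⟩
  have D2 : (p : ℤ_[p]) ∣ (-8) ^ n * h8 - (-1) ^ n * h5' := by
    rw [← QuadraticAlgebra.algebraMap_dvd_iff_dvd (a := 8 * s ^ 2) (b := 1)]
    change f (p : ℤ_[p]) ∣ f _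
    rw [map_sub f, map_mul f ((-1) ^ n)]
    exact ⟨(M'.map f).eval τ, by linear_combination L2⟩
  rw [← red_zero, map_sub, map_mul, map_mul, map_pow, map_pow] at D1
  rw [← red_zero, map_sub, map_mul, map_mul, map_pow, map_pow, hh8, h8_red hs hn h5, map_neg, map_neg,
    map_one, map_ofNat, hev.neg_pow, hev.neg_pow, one_pow, one_mul] at D2
  have hsb := s_bar hs hn h3
  set q := PadicInt.toZMod Jv with hq
  set σ := PadicInt.toZMod s with hσ
  have hqv : q = 33 * 8 * σ ^ 2 := by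
    rw [hq, hJv, map_add, map_one, map_mul, map_pow, map_ofNat]
    linear_combination -(16 * σ + 1) * hsb
  have hq0 : q ≠ 0 := by
    intro h0
    have h4 := congrArg PadicInt.toZMod hvs
    rw [map_mul, ← hq, h0, mul_zero, map_mul, map_pow, map_ofNat] at h4
    have hs0 := s_ne hs hn h5
    have h2 : (2 : ZMod p) ≠ 0 := by
      have := zmod_nat_ne (p := p) (m := 2) (by norm_num) (by omega)
      exact_mod_cast this
    have h40 : (4 : ZMod p) ≠ 0 := by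
      rw [show (4 : ZMod p) = 2 * 2 by norm_num]; exact mul_ne_zero h2 h2
    exact mul_ne_zero h40 (pow_ne_zero 2 hs0) h4.symm
  have f1 : q ^ (2 * n) = 1 := by
    have := ZMod.pow_card_sub_one_eq_one hq0
    rwa [show p - 1 = 2 * n by omega] at this
  have f2 : q ^ (2 * p) = q ^ 2 := by
    rw [show 2 * p = 2 * n * 2 + 2 by omega, pow_add, pow_mul, f1, one_pow, one_mul]
  have f3 : q ^ (5 * n + 2) = q ^ n * q ^ 2 := by
    rw [show 5 * n + 2 = 2 * n * 2 + (n + 2) by omega, pow_add, pow_mul, f1, one_pow, one_mul, pow_add]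
  have f4 : q ^ n = 33 ^ n * 8 ^ n := by
    rw [hqv, mul_pow, mul_pow, ← pow_mul, mul_comm 2 n, pow_mul, s_pow hn hsb, one_pow, mul_one]
  rw [f2, f3, f4] at D1
  have h8n : (8 : ZMod p) ^ n ≠ 0 := by
    apply pow_ne_zero
    have h2 : (2 : ZMod p) ≠ 0 := by
      have := zmod_nat_ne (p := p) (m := 2) (by norm_num) (by omega)
      exact_mod_cast this
    rw [show (8 : ZMod p) = 2 ^ 3 by norm_num]; exact pow_ne_zero _ h2
  apply mul_left_cancel₀ (mul_ne_zero (pow_ne_zero 2 hq0) h8n)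
  linear_combination D1 - q ^ 2 * D2

end

end Pool.Agent.H78.FS
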