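import Pool.Agent.H78.FS.Refl

/-!
The function `G`.
-/

set_option autoImplicit false
set_option linter.unusedSectionVars false
set_option linter.unusedSimpArgs false
set_option linter.unusedVariables false
set_option linter.unusedTactic false

namespace Pool.Agent.H78.FS

open Polynomial

variable {p : ℕ} [hp : Fact p.Prime]

theorem exists_w : ∃ w : PowerSeries ℤ_[p],
    PowerSeries.X * (1 - PowerSeries.X) * w = w - PowerSeries.X * (1 - PowerSeries.X) ∧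
    (1 - PowerSeries.X * (1 - PowerSeries.X)) * (1 + w) = 1 := by
  have hu : IsUnit (1 - PowerSeries.X * (1 - PowerSeries.X) : PowerSeries ℤ_[p]) := by
    rw [PowerSeries.isUnit_iff_constantCoeff]; simp
  obtain ⟨Ji, hJ⟩ := hu.exists_right_inv
  refine ⟨PowerSeries.X * (1 - PowerSeries.X) * Ji, ?_, ?_⟩
  · linear_combination -(PowerSeries.X * (1 - PowerSeries.X)) * hJ
  · linear_combination (PowerSeries.X * (1 - PowerSeries.X)) * hJ

theorem coe_G {w : PowerSeries ℤ_[p]}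
    (hw : PowerSeries.X * (1 - PowerSeries.X) * w = w - PowerSeries.X * (1 - PowerSeries.X))
    (hw1 : (1 - PowerSeries.X * (1 - PowerSeries.X)) * (1 + w) = 1) (s : ℤ_[p]) (n K : ℕ)
    (hK : 3 * K ≤ 5 * n + 2) : ((pG s n K : ℤ_[p][X]) : PowerSeries ℤ_[p]) =
    ∑ k ∈ Finset.range (K + 1), PowerSeries.C ((C6 k : ℤ_[p]) * (s ^ 2) ^ k) *
        ((1 - PowerSeries.X * (1 - PowerSeries.X)) ^ (5 * n + 2) * (w ^ 2 * (1 + w)) ^ k) := by
  unfold pG; rw [coe_sum]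
  apply Finset.sum_congr rfl
  intro k hk
  rw [Finset.mem_range] at hk
  rw [Polynomial.coe_mul, Polynomial.coe_C]
  congr 1
  rw [Polynomial.coe_mul, Polynomial.coe_pow, Polynomial.coe_pow, coe_J, Polynomial.coe_mul,
    Polynomial.coe_X, Polynomial.coe_sub, Polynomial.coe_one, Polynomial.coe_X]
  have e1 : 5 * n + 2 = (5 * n + 2 - 3 * k) + 3 * k := by omega
  conv_rhs => rw [e1, pow_add]
  have e2 : w ^ 2 * (1 + w) = (PowerSeries.X * (1 - PowerSeries.X)) ^ 2 * (1 + w) ^ 3 := by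
    have : w = PowerSeries.X * (1 - PowerSeries.X) * (1 + w) := by linear_combination -hw
    calc w ^ 2 * (1 + w) = (PowerSeries.X * (1 - PowerSeries.X) * (1 + w)) ^ 2 * (1 + w) := by
          rw [← this]
      _ = _ := by ring
  have e4 : ((PowerSeries.X * (1 - PowerSeries.X) : PowerSeries ℤ_[p]) ^ 2 * (1 + w) ^ 3) ^ k =
      (PowerSeries.X * (1 - PowerSeries.X)) ^ (2 * k) * (1 + w) ^ (3 * k) := by
    rw [mul_pow, ← pow_mul, ← pow_mul]
  rw [e2, e4]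
  have e3 : (1 - PowerSeries.X * (1 - PowerSeries.X) : PowerSeries ℤ_[p]) ^ (3 * k) * (1 + w) ^ (3 * k) = 1 := by
    rw [← mul_pow, hw1, one_pow]
  linear_combination -((PowerSeries.X * (1 - PowerSeries.X)) ^ (2 * k) *
    (1 - PowerSeries.X * (1 - PowerSeries.X)) ^ (5 * n + 2 - 3 * k)) * e3

theorem Cl_G {s : ℤ_[p]} {n K : ℕ} (hs : 16 * s = 1) (hn : p = 2 * n + 1) (h3 : 3 ≤ p)
    (hK : 3 * K ≤ 5 * n + 2) (hv : p ^ 3 ∣ C6 (K + 1)) {B w : PowerSeries ℤ_[p]}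
    (hB : ((pa s n : ℤ_[p][X]) : PowerSeries ℤ_[p]) * B = 1)
    (hw : PowerSeries.X * (1 - PowerSeries.X) * w = w - PowerSeries.X * (1 - PowerSeries.X))
    (hw1 : (1 - PowerSeries.X * (1 - PowerSeries.X)) * (1 + w) = 1) :
    Cl ((pa s n : ℤ_[p][X]) : PowerSeries ℤ_[p])
      (5 * (p : PowerSeries ℤ_[p]) * (8 * PowerSeries.C s) * (w * (1 - 2 * PowerSeries.X)))
      (B * ((pG s n K : ℤ_[p][X]) : PowerSeries ℤ_[p])) := by
  have h0 := LL_a' hs n
  rw [← coe_a, ← hn] at h0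
  apply Cl_sol (a_coeff0 s n) hB ⟨5 * (8 * PowerSeries.C s) * (w * (1 - 2 * PowerSeries.X)), by ring⟩
    (Dl_a hs hn h3) h0
  rw [coe_G hw hw1 s n K hK]
  have h1 := LL_G hs hw n (K + 1)
  rw [← hn] at h1
  rw [h1]
  obtain ⟨r, hr⟩ := hv
  have : (PowerSeries.C ((C6 (K + 1) : ℤ_[p]) * (s ^ 2) ^ (K + 1)) : PowerSeries ℤ_[p]) =
      (p : PowerSeries ℤ_[p]) ^ 3 * PowerSeries.C ((r : ℤ_[p]) * (s ^ 2) ^ (K + 1)) := by
    rw [hr]; push_cast
    simp only [map_mul, map_pow, map_natCast]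
    ring
  rw [this]
  exact ⟨-(4 * (1 - 2 * PowerSeries.X) * (2 + PowerSeries.X * (1 - PowerSeries.X))) *
    ((K + 1 : ℕ) : PowerSeries ℤ_[p]) ^ 3 * PowerSeries.C ((r : ℤ_[p]) * (s ^ 2) ^ (K + 1)) *
    ((1 - PowerSeries.X * (1 - PowerSeries.X)) ^ (5 * n + 2) * (w ^ 2 * (1 + w)) ^ (K + 1)), by ring⟩

/-- The decomposition of `G` by the powers of `p`. -/
theorem G_dec (s : ℤ_[p]) {n K m : ℕ} (hn : p = 2 * n + 1) (hmn : 3 * m ≤ n) (hnK : n ≤ K)
    (hK : 3 * K ≤ 5 * n + 2) (h1 : ∀ k, m < k → k ≤ K → p ∣ C6 k) (h2 : ∀ k, n < k → k ≤ K → p ^ 2 ∣ C6 k) :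
    ∃ g0 g1 g2 : ℤ_[p][X], g0.natDegree ≤ 2 * n ∧ g1.natDegree ≤ 6 * n + 2 ∧
      g2.natDegree ≤ 10 * n + 4 ∧ g0.eval 0 = 1 ∧
      pG s n K = pJ ℤ_[p] ^ (2 * p) * g0 + C (p : ℤ_[p]) * (pJ ℤ_[p] ^ p * g1) +
        C (p : ℤ_[p]) ^ 2 * g2 := by
  refine ⟨∑ k ∈ Finset.range (K + 1), if k ≤ m then C ((C6 k : ℤ_[p]) * (s ^ 2) ^ k) *
      ((X * (1 - X)) ^ (2 * k) * pJ ℤ_[p] ^ (n - 3 * k)) else 0,
    ∑ k ∈ Finset.range (K + 1), if m < k ∧ k ≤ n then C (((C6 k / p : ℕ) : ℤ_[p]) * (s ^ 2) ^ k) *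
      ((X * (1 - X)) ^ (2 * k) * pJ ℤ_[p] ^ (3 * n + 1 - 3 * k)) else 0,
    ∑ k ∈ Finset.range (K + 1), if n < k then C (((C6 k / p ^ 2 : ℕ) : ℤ_[p]) * (s ^ 2) ^ k) *
      ((X * (1 - X)) ^ (2 * k) * pJ ℤ_[p] ^ (5 * n + 2 - 3 * k)) else 0, ?_, ?_, ?_, ?_, ?_⟩
  · apply natDegree_sum_le_of_forall_le
    intro k hk
    split_ifs with h
    · refine (nd_Cmul _ (nd_mul (nd_pow nd_z _) (nd_pow nd_J _))).trans ?_
      omega
    · simp
  · apply natDegree_sum_le_of_forall_le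
    intro k hk
    split_ifs with h
    · refine (nd_Cmul _ (nd_mul (nd_pow nd_z _) (nd_pow nd_J _))).trans ?_
      omega
    · simp
  · apply natDegree_sum_le_of_forall_le
    intro k hk
    rw [Finset.mem_range] at hk
    split_ifs with h
    · refine (nd_Cmul _ (nd_mul (nd_pow nd_z _) (nd_pow nd_J _))).trans ?_
      omega
    · simp
  · rw [eval_finsetSum, Finset.sum_eq_single 0]
    · simp [C6_zero, eval_J]
    · intro k _ hk
      split_ifs
      · simp [zero_pow (show 2 * k ≠ 0 by omega)]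
      · simp
    · intro h; simp at h
  · unfold pG
    rw [Finset.mul_sum, Finset.mul_sum, Finset.mul_sum, Finset.mul_sum, ← Finset.sum_add_distrib,
      ← Finset.sum_add_distrib]
    apply Finset.sum_congr rfl
    intro k hk
    rw [Finset.mem_range] at hk
    by_cases hkm : k ≤ m
    · rw [if_pos hkm, if_neg (by omega), if_neg (by omega), mul_zero, mul_zero, mul_zero, add_zero,
        add_zero]
      have e : 5 * n + 2 - 3 * k = 2 * p + (n - 3 * k) := by omega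
      rw [e, pow_add]; ring
    · by_cases hkn : k ≤ n
      · rw [if_neg hkm, if_pos ⟨by omega, hkn⟩, if_neg (by omega), mul_zero, mul_zero, zero_add,
          add_zero]
        have e : 5 * n + 2 - 3 * k = p + (3 * n + 1 - 3 * k) := by omega
        have hd := Nat.mul_div_cancel' (h1 k (by omega) (by omega))
        have e2 : (C ((C6 k : ℤ_[p]) * (s ^ 2) ^ k) : ℤ_[p][X]) =
            C (p : ℤ_[p]) * C (((C6 k / p : ℕ) : ℤ_[p]) * (s ^ 2) ^ k) := by
          rw [← C_mul]; congr 1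
          rw [← mul_assoc, ← Nat.cast_mul, hd]
        rw [e, pow_add, e2]; ring
      · rw [if_neg hkm, if_neg (by omega), if_pos (by omega), mul_zero, mul_zero, zero_add, mul_zero,
          zero_add]
        have hd := Nat.mul_div_cancel' (h2 k (by omega) (by omega))
        have e2 : (C ((C6 k : ℤ_[p]) * (s ^ 2) ^ k) : ℤ_[p][X]) =
            C (p : ℤ_[p]) ^ 2 * C (((C6 k / p ^ 2 : ℕ) : ℤ_[p]) * (s ^ 2) ^ k) := by
          rw [← C_pow, ← C_mul]; congr 1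
          rw [← mul_assoc, ← Nat.cast_pow, ← Nat.cast_mul, hd]
        rw [e2]; ring

end Pool.Agent.H78.FS
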