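import Pool.Agent.H78.FS.Sol

/-!
The first two identities modulo `p ^ 3`.
-/

set_option autoImplicit false
set_option linter.unusedSectionVars false
set_option linter.unusedSimpArgs false
set_option linter.unusedVariables false
set_option linter.unusedTactic false

namespace Pool.Agent.H78.FS

open Polynomial

variable {p : ℕ} [hp : Fact p.Prime]

theorem climb {E : ℤ_[p][X]} (H : ∀ j ≤ 2, ∀ Ej : ℤ_[p][X], E = C (p : ℤ_[p]) ^ j * Ej → rp Ej = 0) :
    ∃ M : ℤ_[p][X], E = C (p : ℤ_[p]) ^ 3 * M := by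
  obtain ⟨M1, h1⟩ := (rp_eq_zero _).1 (H 0 (by norm_num) E (by simp))
  obtain ⟨M2, h2⟩ := (rp_eq_zero _).1 (H 1 (by norm_num) M1 (by rw [h1]; ring))
  obtain ⟨M3, h3⟩ := (rp_eq_zero _).1 (H 2 (by norm_num) M2 (by rw [h1, h2]; ring))
  exact ⟨M3, by rw [h1, h2, h3]; ring⟩

theorem cp_ne (j : ℕ) : (C (p : ℤ_[p]) ^ j : ℤ_[p][X]) ≠ 0 := by
  apply pow_ne_zero
  rw [Ne, C_eq_zero]
  exact_mod_cast hp.out.ne_zero

theorem nd_Ej {E Ej : ℤ_[p][X]} {j : ℕ} (h : E = C (p : ℤ_[p]) ^ j * Ej) : Ej.natDegree = E.natDegree := by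
  rw [h, ← C_pow, natDegree_C_mul]
  intro h0
  exact cp_ne (p := p) j (by rw [← C_pow, h0, C_0])

theorem eval_Ej {E Ej : ℤ_[p][X]} {j : ℕ} (h : E = C (p : ℤ_[p]) ^ j * Ej) {t : ℤ_[p]} (h0 : E.eval t = 0) :
    Ej.eval t = 0 := by
  rw [h, eval_mul, eval_pow, eval_C] at h0
  rcases mul_eq_zero.1 h0 with h1 | h1
  · exfalso
    have : (p : ℤ_[p]) ≠ 0 := by exact_mod_cast hp.out.ne_zero
    exact pow_ne_zero j this h1
  · exact h1

theorem rp_eval0 {F : ℤ_[p][X]} (h : F.eval 0 = 0) : (rp F).eval 0 = 0 := by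
  have := eval_map_apply PadicInt.toZMod (p := F) 0
  rw [map_zero] at this
  rw [rp_apply, this, h, map_zero]

theorem rp_eval1 {F : ℤ_[p][X]} (h : F.eval 1 = 0) : (rp F).eval 1 = 0 := by
  have := eval_map_apply PadicInt.toZMod (p := F) 1
  rw [map_one] at this
  rw [rp_apply, this, h, map_zero]

section

variable {s : ℤ_[p]} {n : ℕ} (hs : 16 * s = 1) (hn : p = 2 * n + 1) (h5 : 5 ≤ p)

include hs hn h5

/-- The identity between `b c` and `d ^ 2`. -/
theorem id_bcd : ∃ M : ℤ_[p][X], C ((pb s n).eval 0) * pd ℤ_[p] n ^ 2 -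
    C ((pd ℤ_[p] n).eval 0 ^ 2) * (pb s n * pc s n) = C (p : ℤ_[p]) ^ 3 * M := by
  have h3 : 3 ≤ p := by omega
  obtain ⟨B, hB⟩ := exists_B s n
  set E : ℤ_[p][X] := C ((pb s n).eval 0) * pd ℤ_[p] n ^ 2 -
    C ((pd ℤ_[p] n).eval 0 ^ 2) * (pb s n * pc s n) with hE
  set A : PowerSeries ℤ_[p] := ((pa s n : ℤ_[p][X]) : PowerSeries ℤ_[p]) with hA
  set ψ : PowerSeries ℤ_[p] := PowerSeries.C ((pb s n).eval 0) *
    ((B * ((pd ℤ_[p] n : ℤ_[p][X]) : PowerSeries ℤ_[p])) *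
      (B * ((pd ℤ_[p] n : ℤ_[p][X]) : PowerSeries ℤ_[p]))) -
    PowerSeries.C ((pd ℤ_[p] n).eval 0 ^ 2) * ((B * ((pb s n : ℤ_[p][X]) : PowerSeries ℤ_[p])) *
      (B * ((pc s n : ℤ_[p][X]) : PowerSeries ℤ_[p]))) with hψ
  set ω : PowerSeries ℤ_[p] := -(p : PowerSeries ℤ_[p]) * (1 - PowerSeries.X) +
    (p : PowerSeries ℤ_[p]) * PowerSeries.X with hω
  have hC : Cl A ω ψ := by
    apply Cl.sub
    · apply Cl.const_mul _ (dl_C _)
      have h := (Cl_d hs hn h3 hB).mul (Cl_d hs hn h3 hB)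
      have e : -(8 * PowerSeries.C s * (p : PowerSeries ℤ_[p])) * (1 - 2 * PowerSeries.X) +
        -(8 * PowerSeries.C s * (p : PowerSeries ℤ_[p])) * (1 - 2 * PowerSeries.X) = ω := by
        rw [hω]
        linear_combination -((p : PowerSeries ℤ_[p]) * (1 - 2 * PowerSeries.X)) * (hS hs)
      rw [← e]; exact h
    · apply Cl.const_mul _ (dl_C _)
      exact (Cl_b hs hn h3 hB).mul (Cl_c hs hn h3 hB)
  have hpω : (p : PowerSeries ℤ_[p]) ∣ ω := ⟨-(1 - PowerSeries.X) + PowerSeries.X, by rw [hω]; ring⟩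
  have hEψ : (E : PowerSeries ℤ_[p]) = A ^ 2 * ψ := by
    rw [hE, hψ]
    simp only [Polynomial.coe_sub, Polynomial.coe_mul, Polynomial.coe_pow, Polynomial.coe_C]
    linear_combination (-PowerSeries.C ((pb s n).eval 0) *
      ((pd ℤ_[p] n : ℤ_[p][X]) : PowerSeries ℤ_[p]) ^ 2 * (A * B + 1) +
      PowerSeries.C ((pd ℤ_[p] n).eval 0 ^ 2) * ((pb s n : ℤ_[p][X]) : PowerSeries ℤ_[p]) *
        ((pc s n : ℤ_[p][X]) : PowerSeries ℤ_[p]) * (A * B + 1)) * hB
  have ndE : E.natDegree ≤ 4 * n := by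
    rw [hE]
    refine nd_sub (nd_Cmul _ ?_) (nd_Cmul _ ?_)
    · refine (nd_pow (nd_d n) 2).trans ?_; omega
    · refine (nd_mul (nd_b s n) (nd_c s n)).trans ?_; omega
  have hE0 : E.eval 0 = 0 := by
    rw [hE]
    simp only [eval_sub, eval_mul, eval_pow, eval_C, c_at0]
    ring
  apply climb
  intro j hj Ej he
  have h1 := final_engine hs hn h3 hpω hC 2 hEψ hj he
  obtain ⟨κ, hκ, hdκ⟩ := kill p (T_sep hs hn h3) (T_ne hs hn h3) (2 * 2) (by omega) _ h1
  have ndEj : (rp Ej).natDegree ≤ 4 * n := by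
    rw [rp_apply]
    exact natDegree_map_le.trans (by rw [nd_Ej he]; exact ndE)
  by_cases hκ0 : κ = 0
  · rw [hκ, hκ0, mul_zero]
  have hdeg : κ.natDegree = 0 := by
    rw [hκ, natDegree_mul (pow_ne_zero _ (T_ne hs hn h3)) hκ0, natDegree_pow,
      T_deg hn (s_bar hs hn h3)] at ndEj
    omega
  rw [natDegree_eq_zero] at hdeg
  obtain ⟨x, hx⟩ := hdeg
  have h0 := rp_eval0 (eval_Ej he hE0)
  rw [hκ, ← hx, eval_mul, eval_pow, eval_C] at h0
  have hT0 : (rp (pT s n)).eval 0 ≠ 0 := by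
    intro h
    have ha := rp_T hs hn h3
    have e0 : (rp (pT s n)).eval 0 ^ 2 = 1 := by
      rw [← eval_pow, ← ha, rp_apply, map_a, a_at0]
    rw [h] at e0; norm_num at e0
  rcases mul_eq_zero.1 h0 with h | h
  · exact absurd h (pow_ne_zero _ hT0)
  · rw [hκ, ← hx, h, C_0, mul_zero]

omit hs hn h5 in
/-- the polynomial `t^p` is flat for the first connection -/
theorem flat_Xp : nab (dl p) (-(p : PowerSeries ℤ_[p]) * (1 - PowerSeries.X))
    ((PowerSeries.X : PowerSeries ℤ_[p]) ^ p) = 0 := by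
  have h1 : dl p ((PowerSeries.X : PowerSeries ℤ_[p]) ^ p) =
      PowerSeries.X ^ p * ((p : PowerSeries ℤ_[p]) * (1 - PowerSeries.X)) := (LDX (p := p)).pow _ p
  unfold nab
  rw [h1]; ring

omit hs hn h5 in
theorem flat_1Xp : nab (dl p) ((p : PowerSeries ℤ_[p]) * PowerSeries.X)
    ((1 - PowerSeries.X : PowerSeries ℤ_[p]) ^ p) = 0 := by
  have h1 : dl p ((1 - PowerSeries.X : PowerSeries ℤ_[p]) ^ p) =
      (1 - PowerSeries.X) ^ p * ((p : PowerSeries ℤ_[p]) * (-PowerSeries.X)) := (LD1X (p := p)).pow _ p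
  unfold nab
  rw [h1]; ring

/-- The identity `b c ≡ a (t^p c + (1-t)^p b)`. -/
theorem id_abc : ∃ M : ℤ_[p][X], pb s n * pc s n -
    pa s n * (X ^ p * pc s n + (1 - X) ^ p * pb s n) = C (p : ℤ_[p]) ^ 3 * M := by
  have h3 : 3 ≤ p := by omega
  obtain ⟨B, hB⟩ := exists_B s n
  set E : ℤ_[p][X] := pb s n * pc s n -
    pa s n * (X ^ p * pc s n + (1 - X) ^ p * pb s n) with hE
  set A : PowerSeries ℤ_[p] := ((pa s n : ℤ_[p][X]) : PowerSeries ℤ_[p]) with hA
  set b : PowerSeries ℤ_[p] := ((pb s n : ℤ_[p][X]) : PowerSeries ℤ_[p]) with hb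
  set c : PowerSeries ℤ_[p] := ((pc s n : ℤ_[p][X]) : PowerSeries ℤ_[p]) with hc
  set ψ : PowerSeries ℤ_[p] := (B * b) * (B * c) -
    (PowerSeries.X ^ p * (B * c) + (B * b) * (1 - PowerSeries.X) ^ p) with hψ
  set ω : PowerSeries ℤ_[p] := -(p : PowerSeries ℤ_[p]) * (1 - PowerSeries.X) +
    (p : PowerSeries ℤ_[p]) * PowerSeries.X with hω
  have hC : Cl A ω ψ := by
    apply Cl.sub
    · exact (Cl_b hs hn h3 hB).mul (Cl_c hs hn h3 hB)
    · apply Cl.add
      · exact (Cl.of_flat flat_Xp).mul (Cl_c hs hn h3 hB)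
      · exact (Cl_b hs hn h3 hB).mul (Cl.of_flat flat_1Xp)
  have hpω : (p : PowerSeries ℤ_[p]) ∣ ω := ⟨-(1 - PowerSeries.X) + PowerSeries.X, by rw [hω]; ring⟩
  have hEψ : (E : PowerSeries ℤ_[p]) = A ^ 2 * ψ := by
    rw [hE, hψ]
    simp only [Polynomial.coe_sub, Polynomial.coe_add, Polynomial.coe_mul, Polynomial.coe_pow,
      Polynomial.coe_C, Polynomial.coe_X, Polynomial.coe_one]
    rw [← hA, ← hb, ← hc]
    linear_combination (-(b * c) * (A * B + 1) +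
      A * (PowerSeries.X ^ p * c + (1 - PowerSeries.X) ^ p * b)) * hB
  have ndE : E.natDegree ≤ 4 * n + p := by
    rw [hE]
    refine nd_sub ?_ ?_
    · refine (nd_mul (nd_b s n) (nd_c s n)).trans ?_; omega
    · refine (nd_mul (nd_a s n) (nd_add (d := p + 2 * n) ?_ ?_)).trans ?_
      · refine (nd_mul (natDegree_X_pow_le p) (nd_c s n)).trans ?_; omega
      · refine (nd_mul (nd_pow nd_1X p) (nd_b s n)).trans ?_; omega
      · omega
  have hpp : p ≠ 0 := hp.out.ne_zero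
  have hE0 : E.eval 0 = 0 := by
    rw [hE]
    simp only [eval_sub, eval_add, eval_mul, eval_pow, eval_C, eval_X, eval_one, c_at0, a_at0,
      zero_pow hpp]
    ring
  have hE1 : E.eval 1 = 0 := by
    rw [hE]
    simp only [eval_sub, eval_add, eval_mul, eval_pow, eval_C, eval_X, eval_one, b_at1, a_at1,
      sub_self, zero_pow hpp]
    ring
  apply climb
  intro j hj Ej he
  have h1 := final_engine hs hn h3 hpω hC 2 hEψ hj he
  obtain ⟨κ, hκ, hdκ⟩ := kill p (T_sep hs hn h3) (T_ne hs hn h3) (2 * 2) (by omega) _ h1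
  have ndEj : (rp Ej).natDegree ≤ 4 * n + p := by
    rw [rp_apply]
    exact natDegree_map_le.trans (by rw [nd_Ej he]; exact ndE)
  by_cases hκ0 : κ = 0
  · rw [hκ, hκ0, mul_zero]
  exfalso
  apply hκ0
  have hdeg : κ.natDegree ≤ p := by
    rw [hκ, natDegree_mul (pow_ne_zero _ (T_ne hs hn h3)) hκ0, natDegree_pow,
      T_deg hn (s_bar hs hn h3)] at ndEj
    omega
  -- κ is a polynomial in `X ^ p`
  have hexp : expand (ZMod p) p (contract p κ) = κ := expand_contract p hdκ hpp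
  set κ0 := contract p κ with hκ0'
  have hd0 : κ0.natDegree ≤ 1 := by
    have := natDegree_expand p κ0
    rw [hexp] at this
    by_contra hcon
    have h2 : 2 ≤ κ0.natDegree := by omega
    have : 2 * p ≤ κ0.natDegree * p := Nat.mul_le_mul_right _ h2
    omega
  have hev : ∀ x : ZMod p, κ.eval (x) = κ0.eval (x ^ p) := by
    intro x; rw [← hexp, expand_eval]
  have ha := rp_T hs hn h3
  have hT0 : (rp (pT s n)).eval 0 ≠ 0 := by
    intro h
    have e0 : (rp (pT s n)).eval 0 ^ 2 = 1 := by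
      rw [← eval_pow, ← ha, rp_apply, map_a, a_at0]
    rw [h] at e0; norm_num at e0
  have hT1 : (rp (pT s n)).eval 1 ≠ 0 := by
    intro h
    have e0 : (rp (pT s n)).eval 1 ^ 2 = 1 := by
      rw [← eval_pow, ← ha, rp_apply, map_a, a_at1]
    rw [h] at e0; norm_num at e0
  have k0 : κ0.eval 0 = 0 := by
    have h0 := rp_eval0 (eval_Ej he hE0)
    rw [hκ, eval_mul, eval_pow] at h0
    have := (mul_eq_zero.1 h0).resolve_left (pow_ne_zero _ hT0)
    rw [hev, zero_pow hpp] at this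
    exact this
  have k1 : κ0.eval 1 = 0 := by
    have h0 := rp_eval1 (eval_Ej he hE1)
    rw [hκ, eval_mul, eval_pow] at h0
    have := (mul_eq_zero.1 h0).resolve_left (pow_ne_zero _ hT1)
    rw [hev, one_pow] at this
    exact this
  have hlin : κ0 = C (κ0.coeff 1) * X + C (κ0.coeff 0) := eq_X_add_C_of_natDegree_le_one hd0
  have c0 : κ0.coeff 0 = 0 := by rw [coeff_zero_eq_eval_zero]; exact k0
  have c1 : κ0.coeff 1 = 0 := by
    rw [hlin] at k1
    simp only [eval_add, eval_mul, eval_C, eval_X, mul_one] at k1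
    rw [c0, add_zero] at k1
    exact k1
  rw [← hexp, hlin, c0, c1]; simp

end

end Pool.Agent.H78.FS
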