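import Pool.Agent.H78.FS.GG

/-!
The third identity modulo `p ^ 3`.
-/

set_option autoImplicit false
set_option linter.unusedSectionVars false
set_option linter.unusedSimpArgs false
set_option linter.unusedVariables false
set_option linter.unusedTactic false

namespace Pool.Agent.H78.FS

open Polynomial

variable {p : ℕ} [hp : Fact p.Prime]

/-- A polynomial of degree at most four with the symmetries of the anharmonic group which vanishes at
`0` is zero. -/
theorem quartic_zero {κ : (ZMod p)[X]} (h5 : 5 ≤ p) (hd : κ.natDegree ≤ 4) (h0 : κ.eval 0 = 0)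
    (hs : ∀ x : ZMod p, κ.eval (1 - x) = κ.eval x) (hr : ∀ i ≤ 4, κ.coeff (4 - i) = κ.coeff i) :
    κ = 0 := by
  have hev : ∀ x : ZMod p, κ.eval x = κ.coeff 0 + κ.coeff 1 * x + κ.coeff 2 * x ^ 2 +
      κ.coeff 3 * x ^ 3 + κ.coeff 4 * x ^ 4 := by
    intro x
    rw [eval_eq_sum_range' (show κ.natDegree < 5 by omega)]
    simp [Finset.sum_range_succ]
  have c0 : κ.coeff 0 = 0 := by rw [coeff_zero_eq_eval_zero]; exact h0
  have c4 : κ.coeff 4 = 0 := by rw [← c0]; exact hr 0 (by norm_num)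
  have c3 : κ.coeff 3 = κ.coeff 1 := hr 1 (by norm_num)
  have e1 := hs 0
  have e2 := hs 2
  rw [hev, hev, c0, c4, c3] at e1 e2
  have f1 : 2 * κ.coeff 1 + κ.coeff 2 = 0 := by linear_combination e1
  have f2 : 12 * κ.coeff 1 + 3 * κ.coeff 2 = 0 := by linear_combination -e2
  have f3 : (6 : ZMod p) * κ.coeff 1 = 0 := by linear_combination f2 - 3 * f1
  have h6 : (6 : ZMod p) ≠ 0 := by
    have h2 : (2 : ZMod p) ≠ 0 := by
      have := zmod_nat_ne (p := p) (m := 2) (by norm_num) (by omega)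
      exact_mod_cast this
    have h3 : (3 : ZMod p) ≠ 0 := by
      have := zmod_nat_ne (p := p) (m := 3) (by norm_num) (by omega)
      exact_mod_cast this
    have : (6 : ZMod p) = 2 * 3 := by norm_num
    rw [this]; exact mul_ne_zero h2 h3
  have c1 : κ.coeff 1 = 0 := (mul_eq_zero.1 f3).resolve_left h6
  have c2 : κ.coeff 2 = 0 := by rw [c1] at f1; linear_combination f1
  rw [c1] at c3
  ext i
  rw [coeff_zero]
  by_cases hi : i ≤ 4
  · interval_cases i
    · exact c0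
    · exact c1
    · exact c2
    · exact c3
    · exact c4
  · exact coeff_eq_zero_of_natDegree_lt (by omega)

theorem reflect_map' {A B : Type*} [CommRing A] [CommRing B] (f : A →+* B) (g : A[X]) (N : ℕ) :
    (g.reflect N).map f = (g.map f).reflect N := by
  ext i
  rw [coeff_map, coeff_reflect, coeff_reflect, coeff_map]

/-- Mod `p` form of `W`. -/
theorem W_mod {a : (ZMod p)[X]} : a ^ 2 * a ^ 2 + (X : (ZMod p)[X]) ^ (2 * p) * (a ^ 2 * a ^ 2) +
    (1 - X) ^ (2 * p) * (a ^ 2 * a ^ 2) = 2 * pJ (ZMod p) ^ p * a ^ 4 := by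
  have h1 : ((1 - X : (ZMod p)[X])) ^ p = 1 - X ^ p := by
    rw [sub_pow_char, one_pow]
  have h2 : pJ (ZMod p) ^ p = 1 - X ^ p * (1 - X ^ p) := by
    unfold pJ
    rw [sub_pow_char, one_pow, mul_pow, h1]
  rw [h2, mul_comm 2 p, pow_mul, pow_mul, h1]
  ring

section

variable {s : ℤ_[p]} {n K m : ℕ} (hs : 16 * s = 1) (hn : p = 2 * n + 1) (h13 : 13 ≤ p)
  (hmn : 3 * m ≤ n) (hnK : n ≤ K) (hK : 3 * K ≤ 5 * n + 2) (hv : p ^ 3 ∣ C6 (K + 1))
  (hv1 : ∀ k, m < k → k ≤ K → p ∣ C6 k) (hv2 : ∀ k, n < k → k ≤ K → p ^ 2 ∣ C6 k)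

include hs hn h13 hmn hnK hK hv hv1 hv2

theorem id_G : ∃ M : ℤ_[p][X], 2 * pJ ℤ_[p] ^ (5 * p) * (pa s n ^ 2 * pb s n ^ 2 * pc s n ^ 2) -
    pG s n K ^ 2 * (pb s n ^ 2 * pc s n ^ 2 + X ^ (2 * p) * (pa s n ^ 2 * pc s n ^ 2) +
      (1 - X) ^ (2 * p) * (pa s n ^ 2 * pb s n ^ 2)) = C (p : ℤ_[p]) ^ 3 * M := by
  have h3 : 3 ≤ p := by omega
  have hpp : p ≠ 0 := hp.out.ne_zero
  obtain ⟨B, hB⟩ := exists_B s n
  obtain ⟨w, hw, hw1⟩ := exists_w (p := p)
  obtain ⟨g0, g1, g2, nd0, nd1, nd2, g00, hG⟩ := G_dec s hn hmn hnK hK hv1 hv2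
  set a := pa s n with ha
  set b := pb s n with hb
  set c := pc s n with hc
  set G := pG s n K with hGdef
  set J := pJ ℤ_[p] with hJ
  set W : ℤ_[p][X] := b ^ 2 * c ^ 2 + X ^ (2 * p) * (a ^ 2 * c ^ 2) +
      (1 - X) ^ (2 * p) * (a ^ 2 * b ^ 2) with hW
  set E : ℤ_[p][X] := 2 * J ^ (5 * p) * (a ^ 2 * b ^ 2 * c ^ 2) - G ^ 2 * W with hE
  have nda : a.natDegree ≤ 2 * n := nd_a s n
  have ndb : b.natDegree ≤ 2 * n := nd_b s n
  have ndc : c.natDegree ≤ 2 * n := nd_c s n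
  have ndJ : J.natDegree ≤ 2 := nd_J
  have ndW : W.natDegree ≤ 12 * n + 2 := by
    rw [hW]
    refine nd_add (nd_add ?_ ?_) ?_
    · refine (nd_mul (nd_pow ndb 2) (nd_pow ndc 2)).trans ?_; omega
    · refine (nd_mul (natDegree_X_pow_le _) (nd_mul (nd_pow nda 2) (nd_pow ndc 2))).trans ?_; omega
    · refine (nd_mul (nd_pow nd_1X _) (nd_mul (nd_pow nda 2) (nd_pow ndb 2))).trans ?_; omega
  -- W modulo p
  have hWp : rp (W - 2 * J ^ p * a ^ 4) = 0 := by
    have r1 : rp b = rp a := rp_b hs hn h3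
    have r2 : rp c = rp a := rp_c hs hn h3
    have r3 : rp J = pJ (ZMod p) := by rw [rp_apply, hJ, map_J]
    rw [hW]
    simp only [map_sub, map_add, map_mul, map_pow, rp_X, map_one, r1, r2, r3, map_ofNat]
    rw [W_mod]; ring
  obtain ⟨W1, hW1⟩ := (rp_eq_zero _).1 hWp
  have two_C : (2 : ℤ_[p][X]) = C 2 := (map_ofNat C 2).symm
  have ndW1 : W1.natDegree ≤ 12 * n + 2 := by
    have h := nd_Ej (p := p) (E := W - 2 * J ^ p * a ^ 4) (Ej := W1) (j := 1) (by rw [hW1, pow_one])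
    rw [h]
    refine nd_sub ndW ?_
    rw [two_C]
    refine (nd_mul (nd_Cmul _ (nd_pow ndJ p)) (nd_pow nda 4)).trans ?_
    omega
  -- the polynomial F
  set F : ℤ_[p][X] := 2 * J ^ (2 * p) * (a ^ 2 * b ^ 2 * c ^ 2) - J ^ p * g0 ^ 2 * W -
    2 * C (p : ℤ_[p]) * g0 * g1 * W - 2 * C (p : ℤ_[p]) ^ 2 * (g1 ^ 2 + 2 * g0 * g2) * a ^ 4 with hF
  set R3 : ℤ_[p][X] := -(J ^ (2 * p) * (g1 ^ 2 + 2 * g0 * g2) * W1 + 2 * J ^ p * g1 * g2 * W +
    C (p : ℤ_[p]) * g2 ^ 2 * W) with hR3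
  have hEF : E = J ^ (3 * p) * F + C (p : ℤ_[p]) ^ 3 * R3 := by
    rw [hE, hF, hR3, hG]
    have q1 : J ^ (5 * p) = (J ^ p) ^ 5 := by rw [← pow_mul]; congr 1; ring
    have q2 : J ^ (2 * p) = (J ^ p) ^ 2 := by rw [← pow_mul]; congr 1; ring
    have q3 : J ^ (3 * p) = (J ^ p) ^ 3 := by rw [← pow_mul]; congr 1; ring
    rw [q1, q2, q3]
    generalize J ^ p = Q at hW1
    generalize C (p : ℤ_[p]) = P at hW1
    linear_combination -P ^ 2 * Q ^ 2 * (g1 ^ 2 + 2 * g0 * g2) * hW1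
  have ndF : F.natDegree ≤ 20 * n + 4 := by
    rw [hF, two_C]
    have ndg0W : (g0 * g1).natDegree ≤ 8 * n + 2 := (nd_mul nd0 nd1).trans (by omega)
    refine nd_sub (nd_sub (nd_sub ?_ ?_) ?_) ?_
    · refine (nd_mul (nd_Cmul _ (nd_pow ndJ _)) (nd_mul (nd_mul (nd_pow nda 2) (nd_pow ndb 2))
        (nd_pow ndc 2))).trans ?_
      omega
    · refine (nd_mul (nd_mul (nd_pow ndJ _) (nd_pow nd0 2)) ndW).trans ?_
      omega
    · rw [← C_mul]
      refine (nd_mul (nd_mul (nd_Cmul _ nd0) nd1) ndW).trans ?_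
      omega
    · rw [← C_pow, ← C_mul]
      have q : (g1 ^ 2 + C 2 * g0 * g2).natDegree ≤ 12 * n + 4 := by
        refine nd_add ?_ ?_
        · refine (nd_pow nd1 2).trans ?_; omega
        · refine (nd_mul (nd_Cmul _ nd0) nd2).trans ?_; omega
      refine (nd_mul (nd_Cmul _ q) (nd_pow nda 4)).trans ?_
      omega
  -- the function of the class
  set A' : PowerSeries ℤ_[p] := ((a : ℤ_[p][X]) : PowerSeries ℤ_[p]) with hA'
  set b' : PowerSeries ℤ_[p] := ((b : ℤ_[p][X]) : PowerSeries ℤ_[p]) with hb'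
  set c' : PowerSeries ℤ_[p] := ((c : ℤ_[p][X]) : PowerSeries ℤ_[p]) with hc'
  set G' : PowerSeries ℤ_[p] := ((G : ℤ_[p][X]) : PowerSeries ℤ_[p]) with hG'
  set J' : PowerSeries ℤ_[p] := 1 - PowerSeries.X * (1 - PowerSeries.X) with hJ'
  set ωb : PowerSeries ℤ_[p] := -(p : PowerSeries ℤ_[p]) * (1 - PowerSeries.X) with hωb
  set ωc : PowerSeries ℤ_[p] := (p : PowerSeries ℤ_[p]) * PowerSeries.X with hωc
  set ωG : PowerSeries ℤ_[p] := 5 * (p : PowerSeries ℤ_[p]) * (8 * PowerSeries.C s) *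
    (w * (1 - 2 * PowerSeries.X)) with hωG
  have Cb : Cl A' ωb (B * b') := Cl_b hs hn h3 hB
  have Cc : Cl A' ωc (B * c') := Cl_c hs hn h3 hB
  have CG : Cl A' ωG (B * G') := Cl_G hs hn h3 hK hv hB hw hw1
  have Cb2 := Cb.mul Cb
  have Cc2 := Cc.mul Cc
  have CG2 := CG.mul CG
  have CX2 : Cl A' (ωb + ωb) ((PowerSeries.X : PowerSeries ℤ_[p]) ^ p * PowerSeries.X ^ p) :=
    (Cl.of_flat flat_Xp).mul (Cl.of_flat flat_Xp)
  have C1X2 : Cl A' (ωc + ωc) ((1 - PowerSeries.X : PowerSeries ℤ_[p]) ^ p * (1 - PowerSeries.X) ^ p) :=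
    (Cl.of_flat flat_1Xp).mul (Cl.of_flat flat_1Xp)
  have CJ : Cl A' (ωG + ωG) (J' ^ (5 * p)) := by
    apply Cl.of_flat
    have h02 : LD (dl p) J' (-(w * (1 - 2 * PowerSeries.X))) := by
      unfold LD
      rw [hJ', map_sub, dl_one, der_mul, map_sub, dl_one, dl_X]
      linear_combination (-(1 - 2 * PowerSeries.X)) * hw
    have h03 : dl p (J' ^ (5 * p)) = J' ^ (5 * p) * (((5 * p : ℕ) : PowerSeries ℤ_[p]) *
      (-(w * (1 - 2 * PowerSeries.X)))) := h02.pow _ (5 * p)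
    unfold nab
    rw [h03, hωG]
    push_cast
    linear_combination (5 * (p : PowerSeries ℤ_[p]) * w * (1 - 2 * PowerSeries.X) * J' ^ (5 * p)) * hS hs
  set ψ : PowerSeries ℤ_[p] := 2 * (J' ^ (5 * p) * ((B * b' * (B * b')) * (B * c' * (B * c')))) -
    (B * G' * (B * G')) * ((B * b' * (B * b')) * (B * c' * (B * c')) +
      (PowerSeries.X ^ p * PowerSeries.X ^ p) * (B * c' * (B * c')) +
      (B * b' * (B * b')) * ((1 - PowerSeries.X) ^ p * (1 - PowerSeries.X) ^ p)) with hψ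
  set ω : PowerSeries ℤ_[p] := (ωG + ωG) + ((ωb + ωb) + (ωc + ωc)) with hω
  have hC : Cl A' ω ψ := by
    apply Cl.sub
    · exact Cl.const_mul _ dl_two (CJ.mul (Cb2.mul Cc2))
    · exact CG2.mul (((Cb2.mul Cc2).add (CX2.mul Cc2)).add (Cb2.mul C1X2))
  have hpω : (p : PowerSeries ℤ_[p]) ∣ ω := by
    refine ⟨2 * (5 * (8 * PowerSeries.C s) * (w * (1 - 2 * PowerSeries.X))) +
      (2 * (-(1 - PowerSeries.X)) + 2 * PowerSeries.X), ?_⟩
    rw [hω, hωb, hωc, hωG]; ring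
  have coe_two : ((2 : ℤ_[p][X]) : PowerSeries ℤ_[p]) = 2 :=
    map_ofNat (Polynomial.coeToPowerSeries.ringHom (R := ℤ_[p])) 2
  have hEψ : (E : PowerSeries ℤ_[p]) = A' ^ 6 * ψ := by
    have e6 : A' ^ 6 * ψ = 2 * (J' ^ (5 * p) * (A' ^ 2 * b' ^ 2 * c' ^ 2)) * (A' * B) ^ 4 -
        G' ^ 2 * (b' ^ 2 * c' ^ 2 * (A' * B) ^ 6 +
          (PowerSeries.X ^ p) ^ 2 * (A' ^ 2 * c' ^ 2) * (A' * B) ^ 4 +
          ((1 - PowerSeries.X) ^ p) ^ 2 * (A' ^ 2 * b' ^ 2) * (A' * B) ^ 4) := by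
      rw [hψ]; ring
    rw [e6, hB, hE, hW]
    simp only [Polynomial.coe_sub, Polynomial.coe_add, Polynomial.coe_mul, Polynomial.coe_pow,
      Polynomial.coe_C, Polynomial.coe_X, Polynomial.coe_one, coe_two]
    rw [← hA', ← hb', ← hc', ← hG', hJ, coe_J, ← hJ', mul_comm 2 p, pow_mul, pow_mul]
    ring
  -- symmetries of E
  have sgE : sg ℤ_[p] E = E := by
    have t1 : sg ℤ_[p] a = a := sg_a s n
    have t2 : sg ℤ_[p] b = c := sg_b s n
    have t3 : sg ℤ_[p] c = b := sg_c s n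
    have t4 : sg ℤ_[p] G = G := sg_G s n K
    have t5 : sg ℤ_[p] J = J := sg_J
    rw [hE, hW]
    simp only [map_sub, map_add, map_mul, map_pow, t1, t2, t3, t4, t5, sg_X, map_one, map_ofNat]
    ring
  have rfE : Rf (32 * n + 10) E E := by
    have q1 : Rf (2 * n) a b := Rf_a s n
    have q2 : Rf (2 * n) b a := Rf_b s n
    have q3 : Rf (2 * n) c c := Rf_c s n
    have q4 : Rf (10 * n + 4) G G := Rf_G s n K hK
    have q5 : Rf 2 J J := Rf_J
    have t1 := ((q5.pow (5 * p)).C_mul (2 : ℤ_[p])).mul (((q1.pow 2).mul (q2.pow 2)).mul (q3.pow 2))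
    have d1 : 5 * p * 2 + (2 * (2 * n) + 2 * (2 * n) + 2 * (2 * n)) = 32 * n + 10 := by omega
    rw [d1] at t1
    have w1 := ((q2.pow 2).mul (q3.pow 2)).mul (Rf.one (A := ℤ_[p]) (2 * p))
    have w2 := ((Rf_X (A := ℤ_[p])).pow (2 * p)).mul ((q1.pow 2).mul (q3.pow 2))
    have w3 := ((Rf_1X (A := ℤ_[p])).pow (2 * p)).mul ((q1.pow 2).mul (q2.pow 2))
    have d2 : 2 * (2 * n) + 2 * (2 * n) + 2 * p = 12 * n + 2 := by omega
    have d3 : 2 * p * 1 + (2 * (2 * n) + 2 * (2 * n)) = 12 * n + 2 := by omega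
    rw [d2] at w1
    rw [d3] at w2 w3
    have t2 := (q4.pow 2).mul ((w1.add w2).add w3)
    have d4 : 2 * (10 * n + 4) + (12 * n + 2) = 32 * n + 10 := by omega
    rw [d4] at t2
    have t3 := t1.sub t2
    have e1 : C (2 : ℤ_[p]) * J ^ (5 * p) * (a ^ 2 * b ^ 2 * c ^ 2) -
        G ^ 2 * (b ^ 2 * c ^ 2 * 1 + X ^ (2 * p) * (a ^ 2 * c ^ 2) +
          (1 - X) ^ (2 * p) * (a ^ 2 * b ^ 2)) = E := by
      rw [hE, hW, two_C]; ring
    have e2 : C (2 : ℤ_[p]) * J ^ (5 * p) * (b ^ 2 * a ^ 2 * c ^ 2) -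
        G ^ 2 * (a ^ 2 * c ^ 2 * X ^ (2 * p) + 1 ^ (2 * p) * (b ^ 2 * c ^ 2) +
          (X - 1) ^ (2 * p) * (b ^ 2 * a ^ 2)) = E := by
      have e3 : (X - 1 : ℤ_[p][X]) = -(1 - X) := by ring
      have e4 : Even (2 * p) := ⟨p, by ring⟩
      rw [hE, hW, two_C, e3, e4.neg_pow, one_pow]; ring
    rw [e1, e2] at t3
    exact t3
  have hE0 : E.eval 0 = 0 := by
    have t1 : a.eval 0 = 1 := a_at0 s n
    have t3 : c.eval 0 = 1 := c_at0 s n
    have t4 : G.eval 0 = 1 := G_at0 s n K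
    have t5 : J.eval 0 = 1 := by rw [hJ, eval_J]; ring
    rw [hE, hW, two_C]
    simp only [eval_sub, eval_add, eval_mul, eval_pow, eval_C, eval_X, eval_one, t1, t3, t4, t5,
      zero_pow (show 2 * p ≠ 0 by omega), sub_zero, one_pow]
    ring
  -- climbing
  have hmain : ∃ M : ℤ_[p][X], F = C (p : ℤ_[p]) ^ 3 * M := by
    apply climb
    intro j hj Fj hFj
    set Ej : ℤ_[p][X] := J ^ (3 * p) * Fj + C (p : ℤ_[p]) ^ (3 - j) * R3 with hEj
    have he : E = C (p : ℤ_[p]) ^ j * Ej := by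
      have : C (p : ℤ_[p]) ^ 3 = C (p : ℤ_[p]) ^ j * C (p : ℤ_[p]) ^ (3 - j) := by
        rw [← pow_add]; congr 1; omega
      rw [hEF, hEj, hFj, this]; ring
    have h1 := final_engine hs hn h3 hpω hC 6 hEψ hj he
    have hrE : rp Ej = pJ (ZMod p) ^ (3 * p) * rp Fj := by
      have e1 : C (p : ℤ_[p]) ^ (3 - j) * R3 = C (p : ℤ_[p]) * (C (p : ℤ_[p]) ^ (2 - j) * R3) := by
        rw [← mul_assoc, ← pow_succ']; congr 2; omega
      rw [hEj, e1, map_add, rp_p_mul, add_zero, map_mul, map_pow, rp_apply J, hJ, map_J]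
    have hJne : pJ (ZMod p) ≠ 0 := by
      intro h
      have := congrArg (eval 0) h
      rw [eval_J] at this
      simp at this
    have hJp : pJ (ZMod p) ^ (3 * p) ≠ 0 := pow_ne_zero _ hJne
    have hJd : derivative (pJ (ZMod p) ^ (3 * p)) = 0 := by
      rw [derivative_pow]
      have : ((3 * p : ℕ) : ZMod p) = 0 := by push_cast; simp
      rw [this, C_0, zero_mul, zero_mul]
    have h2 : rp (pT s n) * derivative (rp Fj) =
        ((2 * 6 : ℕ) : (ZMod p)[X]) * derivative (rp (pT s n)) * rp Fj := by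
      rw [hrE, derivative_mul, hJd] at h1
      apply mul_left_cancel₀ hJp
      linear_combination h1
    obtain ⟨κ, hκ, hdκ⟩ := kill p (T_sep hs hn h3) (T_ne hs hn h3) (2 * 6) (by omega) _ h2
    have hT2 : rp (pT s n) ^ (2 * 6) = rp a ^ 6 := by rw [pow_mul, ← rp_T hs hn h3]
    have ndFj : (rp Fj).natDegree ≤ 20 * n + 4 := by
      rw [rp_apply]
      exact natDegree_map_le.trans (by rw [nd_Ej hFj]; exact ndF)
    by_cases hκ0 : κ = 0
    · rw [hκ, hκ0, mul_zero]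
    exfalso
    apply hκ0
    have hdeg : κ.natDegree ≤ 4 * p := by
      have h := ndFj
      rw [hκ, natDegree_mul (pow_ne_zero _ (T_ne hs hn h3)) hκ0, natDegree_pow,
        T_deg hn (s_bar hs hn h3)] at h
      omega
    have hra : rp a ≠ 0 := by
      rw [rp_T hs hn h3]; exact pow_ne_zero _ (T_ne hs hn h3)
    have hexp : expand (ZMod p) p (contract p κ) = κ := expand_contract p hdκ hpp
    set κ0 := contract p κ with hκ0'
    have hd0 : κ0.natDegree ≤ 4 := by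
      have := natDegree_expand p κ0
      rw [hexp] at this
      by_contra hcon
      have h2 : 5 ≤ κ0.natDegree := by omega
      have : 5 * p ≤ κ0.natDegree * p := Nat.mul_le_mul_right _ h2
      omega
    have hev : ∀ x : ZMod p, κ.eval (x) = κ0.eval x := by
      intro x; rw [← hexp, expand_eval, ZMod.pow_card]
    -- symmetry 1
    have sgEj : sg ℤ_[p] Ej = Ej := by
      have : C (p : ℤ_[p]) ^ j * sg ℤ_[p] Ej = C (p : ℤ_[p]) ^ j * Ej := by
        rw [← he]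
        conv_rhs => rw [← sgE, he]
        rw [map_mul, map_pow, sg_C]
      exact mul_left_cancel₀ (cp_ne j) this
    have sgF : sg (ZMod p) (rp Fj) = rp Fj := by
      have h := congrArg rp sgEj
      rw [rp_apply (sg ℤ_[p] Ej), map_sg, ← rp_apply, hrE, map_mul, map_pow, sg_J] at h
      exact mul_left_cancel₀ hJp h
    have sgκ : sg (ZMod p) κ = κ := by
      have h := sgF
      rw [hκ, hT2, map_mul, map_pow] at h
      have t1 : sg (ZMod p) (rp a) = rp a := by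
        rw [rp_apply, ha, map_a, sg_a]
      rw [t1] at h
      exact mul_left_cancel₀ (pow_ne_zero _ hra) h
    -- symmetry 2
    have rfEj : Ej.reflect (32 * n + 10) = Ej := by
      have h := rfE.2
      rw [he, ← C_pow, reflect_C_mul] at h
      exact mul_left_cancel₀ (by rw [C_pow]; exact cp_ne j) h
    have rfF : (rp Fj).reflect (20 * n + 4) = rp Fj := by
      have h := congrArg rp rfEj
      rw [rp_apply (Ej.reflect _), reflect_map', ← rp_apply, hrE] at h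
      have d : 32 * n + 10 = 3 * p * 2 + (20 * n + 4) := by omega
      rw [d, reflect_mul _ _ ((Rf_J (A := ZMod p)).pow (3 * p)).1 ndFj,
        ((Rf_J (A := ZMod p)).pow (3 * p)).2] at h
      exact mul_left_cancel₀ hJp h
    have rfκ : κ.reflect (4 * p) = κ := by
      have h := rfF
      have q1 : Rf (2 * n) (rp a) (rp a) := by
        have := Rf_a (PadicInt.toZMod s) n
        rw [← map_a, ← map_b, ← rp_apply, ← rp_apply, rp_b hs hn h3] at this
        exact this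
      have d : 20 * n + 4 = 6 * (2 * n) + 4 * p := by omega
      rw [hκ, hT2, d, reflect_mul _ _ (q1.pow 6).1 hdeg, (q1.pow 6).2] at h
      exact mul_left_cancel₀ (pow_ne_zero _ hra) h
    have hz : κ0 = 0 := by
      apply quartic_zero (by omega) hd0
      · have h0 := rp_eval0 (eval_Ej he hE0)
        rw [hrE, hκ, eval_mul, eval_mul, eval_pow, eval_pow, eval_J] at h0
        have hT0 : (rp (pT s n)).eval 0 ≠ 0 := by
          intro h
          have e0 : (rp (pT s n)).eval 0 ^ 2 = 1 := by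
            rw [← eval_pow, ← rp_T hs hn h3, rp_apply, map_a, a_at0]
          rw [h] at e0; norm_num at e0
        have h01 : (1 - 0 * (1 - 0) : ZMod p) ^ (3 * p) ≠ 0 := by simp
        have h02 := (mul_eq_zero.1 h0).resolve_left h01
        have h03 := (mul_eq_zero.1 h02).resolve_left (pow_ne_zero _ hT0)
        rw [hev] at h03
        exact h03
      · intro x
        rw [← hev, ← hev]
        have h := congrArg (eval x) sgκ
        rw [sg_apply, eval_comp] at h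
        simp only [eval_sub, eval_one, eval_X] at h
        exact h
      · intro i hi
        have h := congrArg (fun f : (ZMod p)[X] => f.coeff (i * p)) rfκ
        beta_reduce at h
        rw [coeff_reflect, revAt_le (Nat.mul_le_mul_right p hi), ← Nat.sub_mul] at h
        rw [← hexp, coeff_expand_mul hp.out.pos, coeff_expand_mul hp.out.pos] at h
        exact h
    rw [← hexp, hz]; simp
  obtain ⟨M, hM⟩ := hmain
  exact ⟨J ^ (3 * p) * M + R3, by rw [hEF, hM]; ring⟩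

end

end Pool.Agent.H78.FS
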