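import Pool.Agent.H78.FS.Fin

/-!
The congruences for all primes `p ≡ 1 (mod 4)`, `p ≥ 13`.
-/

set_option autoImplicit false
set_option linter.unusedSectionVars false
set_option linter.unusedSimpArgs false
set_option linter.unusedVariables false
set_option linter.unusedTactic false

namespace Pool.Agent.H78.FS

/-- `C6` has the expected divisibility. -/
theorem C6_data {p : ℕ} [hp : Fact p.Prime] (h13 : 13 ≤ p) {n : ℕ} (hn : p = 2 * n + 1) :
    ∃ m K : ℕ, 3 * m ≤ n ∧ n ≤ K ∧ 3 * K ≤ 5 * n + 2 ∧ K + 1 < p ∧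
      (∀ k, m < k → k < p → p ∣ C6 k) ∧ (∀ k, n < k → k < p → p ^ 2 ∣ C6 k) ∧
      (∀ k, K < k → k < p → p ^ 3 ∣ C6 k) := by
  have h3 : ¬ p % 3 = 0 := by
    intro h
    have hd : 3 ∣ p := Nat.dvd_of_mod_eq_zero h
    have := (Nat.prime_dvd_prime_iff_eq Nat.prime_three hp.out).1 hd
    omega
  have hcase : (∃ m, p = 6 * m + 1) ∨ (∃ m, p = 6 * m + 5) := by
    have h1 : p % 6 = 1 ∨ p % 6 = 5 := by omega
    rcases h1 with h | h
    · exact Or.inl ⟨p / 6, by omega⟩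
    · exact Or.inr ⟨p / 6, by omega⟩
  rcases hcase with ⟨m, hm⟩ | ⟨m, hm⟩
  · have f1 : ∀ k, m < k → k < p → p ^ 1 ∣ C6 k := by
      intro k h1 h2
      exact C6_jump (i := 0) (j := m) ⟨(2 * m + 1) * (6 * m + 5), by rw [hm]; ring⟩ (by simp) h1 h2
    have f2 : ∀ k, n < k → k < p → p ^ 2 ∣ C6 k := by
      intro k h1 h2
      exact C6_jump (i := 1) (j := n) ⟨(6 * n + 1) * (6 * n + 5), by rw [← hn]; ring⟩
        (f1 n (by omega) (by omega)) h1 h2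
    have f3 : ∀ k, 5 * m < k → k < p → p ^ 3 ∣ C6 k := by
      intro k h1 h2
      exact C6_jump (i := 2) (j := 5 * m)
        ⟨5 * (2 * (5 * m) + 1) * (6 * (5 * m) + 1), by rw [hm]; ring⟩
        (f2 (5 * m) (by omega) (by omega)) h1 h2
    exact ⟨m, 5 * m, by omega, by omega, by omega, by omega, fun k h1 h2 => by simpa using f1 k h1 h2,
      f2, f3⟩
  · have f1 : ∀ k, m < k → k < p → p ^ 1 ∣ C6 k := by
      intro k h1 h2
      exact C6_jump (i := 0) (j := m) ⟨(2 * m + 1) * (6 * m + 1), by rw [hm]; ring⟩ (by simp) h1 h2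
    have f2 : ∀ k, n < k → k < p → p ^ 2 ∣ C6 k := by
      intro k h1 h2
      exact C6_jump (i := 1) (j := n) ⟨(6 * n + 1) * (6 * n + 5), by rw [← hn]; ring⟩
        (f1 n (by omega) (by omega)) h1 h2
    have f3 : ∀ k, 5 * m + 4 < k → k < p → p ^ 3 ∣ C6 k := by
      intro k h1 h2
      exact C6_jump (i := 2) (j := 5 * m + 4)
        ⟨5 * (2 * (5 * m + 4) + 1) * (6 * (5 * m + 4) + 5), by rw [hm]; ring⟩
        (f2 (5 * m + 4) (by omega) (by omega)) h1 h2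
    exact ⟨m, 5 * m + 4, by omega, by omega, by omega, by omega,
      fun k h1 h2 => by simpa using f1 k h1 h2, f2, f3⟩

variable {p : ℕ} [hp : Fact p.Prime]

theorem trunc {K : ℕ} (hK : K < p) (h : ∀ k, K < k → k < p → p ^ 3 ∣ C6 k) (x : ℤ_[p]) :
    (p : ℤ_[p]) ^ 3 ∣ (∑ k ∈ Finset.range p, (C6 k : ℤ_[p]) * x ^ k) - GGs K x := by
  have e : ∑ k ∈ Finset.range p, (C6 k : ℤ_[p]) * x ^ k =
      GGs K x + ∑ k ∈ Finset.Ico (K + 1) p, (C6 k : ℤ_[p]) * x ^ k := by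
    unfold GGs
    rw [Finset.sum_range_add_sum_Ico _ (by omega)]
  rw [e, add_sub_cancel_left]
  apply Finset.dvd_sum
  intro k hk
  rw [Finset.mem_Ico] at hk
  apply Dvd.dvd.mul_right
  obtain ⟨r, hr⟩ := h k (by omega) hk.2
  exact ⟨(r : ℤ_[p]), by rw [hr]; push_cast; ring⟩

theorem sign_lemma {x h : ℤ_[p]} {ε : ℤ} (hε : ε = 1 ∨ ε = -1) (h2 : 3 ≤ p)
    (hsq : (p : ℤ_[p]) ^ 3 ∣ x ^ 2 - h ^ 2) (hm : (ε : ZMod p) * PadicInt.toZMod x = PadicInt.toZMod h)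
    (hu : PadicInt.toZMod h ≠ 0) : (p : ℤ_[p]) ^ 3 ∣ h - ε * x := by
  have hun : IsUnit (h + ε * x) := by
    apply isUnit_of_red
    rw [map_add, map_mul, map_intCast, hm, ← two_mul]
    apply mul_ne_zero _ hu
    have := zmod_nat_ne (p := p) (m := 2) (by norm_num) (by omega)
    exact_mod_cast this
  apply unit_dvd hun
  have hε2 : ((ε : ℤ) : ℤ_[p]) ^ 2 = 1 := by
    rcases hε with h | h <;> rw [h] <;> norm_num
  obtain ⟨r, hr⟩ := hsq
  exact ⟨-r, by linear_combination -hr - x ^ 2 * hε2⟩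

/-- The two congruences in the `p`-adic integers. -/
theorem main_padic (h13 : 13 ≤ p) (h4 : p % 4 = 1) {n : ℕ} (hn : p = 2 * n + 1) {i64 i12 i66 : ℤ_[p]}
    (h64 : 64 * i64 = 1) (h12 : 1728 * i12 = 1) (h66 : 287496 * i66 = 1) :
    (p : ℤ_[p]) ^ 3 ∣ (∑ k ∈ Finset.range (n + 1), ((Nat.centralBinom k ^ 3 : ℕ) : ℤ_[p]) * i64 ^ k) -
      (legendreSym p 3 : ℤ_[p]) * ∑ k ∈ Finset.range p, (C6 k : ℤ_[p]) * i12 ^ k ∧
    (p : ℤ_[p]) ^ 3 ∣ (∑ k ∈ Finset.range (n + 1), ((Nat.centralBinom k ^ 3 : ℕ) : ℤ_[p]) * i64 ^ k) -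
      (legendreSym p 33 : ℤ_[p]) * ∑ k ∈ Finset.range p, (C6 k : ℤ_[p]) * i66 ^ k := by
  have hev : Even n := ⟨n / 2, by omega⟩
  have hpr := hp.out
  -- inverses
  have uinv : ∀ N : ℕ, ¬ p ∣ N → ∃ y : ℤ_[p], (N : ℤ_[p]) * y = 1 := by
    intro N hN
    have h : IsUnit (N : ℤ_[p]) := by
      apply isUnit_of_red
      rw [map_natCast, Ne, CharP.cast_eq_zero_iff (ZMod p) p]
      exact hN
    exact h.exists_right_inv
  have small : ∀ N : ℕ, 0 < N → N < p → ¬ p ∣ N := fun N h0 h1 hd =>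
    absurd (Nat.le_of_dvd h0 hd) (by omega)
  obtain ⟨s, hs⟩ := uinv 16 (by
    intro hd
    rw [show 16 = 4 * 4 by norm_num] at hd
    rcases (Nat.Prime.dvd_mul hpr).1 hd with h | h <;> exact small 4 (by norm_num) (by omega) h)
  obtain ⟨v2, hv2⟩ := uinv 12 (small 12 (by norm_num) (by omega))
  obtain ⟨v3, hv3⟩ := uinv 66 (by
    intro hd
    rw [show 66 = 6 * 11 by norm_num] at hd
    rcases (Nat.Prime.dvd_mul hpr).1 hd with h | h
    · exact small 6 (by norm_num) (by omega) h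
    · exact small 11 (by norm_num) (by omega) h)
  push_cast at hs hv2 hv3
  obtain ⟨m, K, hmn, hnK, hK, hKp, c1, c2, c3⟩ := C6_data h13 hn
  have hv : p ^ 3 ∣ C6 (K + 1) := c3 (K + 1) (by omega) hKp
  have hv1 : ∀ k, m < k → k ≤ K → p ∣ C6 k := fun k h1 h2 => c1 k h1 (by omega)
  have hv2' : ∀ k, n < k → k ≤ K → p ^ 2 ∣ C6 k := fun k h1 h2 => c2 k h1 (by omega)
  have s2 := S2_sq hs hn h13 hmn hnK hK hv hv1 hv2' hev hv2
  have m2 := S2_mod hs hn h13 hmn hnK hK hv hv1 hv2' hev hv2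
  have s3 := S3_sq hs hn h13 hmn hnK hK hv hv1 hv2' hev hv3
  have m3 := S3_mod hs hn h13 hmn hnK hK hv hv1 hv2' hev hv3
  have hne := h1_ne hs hn (by omega) hev
  -- identification of the arguments
  have a1 : 4 * s ^ 2 = i64 := by
    have h256 : (256 : ℤ_[p]) * s ^ 2 = 1 := by linear_combination (16 * s + 1) * hs
    linear_combination -(4 * s ^ 2) * h64 + i64 * h256
  have a2 : v2 ^ 3 = i12 := by
    have h1728 : (1728 : ℤ_[p]) * v2 ^ 3 = 1 := by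
      linear_combination (144 * v2 ^ 2 + 12 * v2 + 1) * hv2
    linear_combination -(v2 ^ 3) * h12 + i12 * h1728
  have a3 : v3 ^ 3 = i66 := by
    have h287 : (287496 : ℤ_[p]) * v3 ^ 3 = 1 := by
      linear_combination (4356 * v3 ^ 2 + 66 * v3 + 1) * hv3
    linear_combination -(v3 ^ 3) * h66 + i66 * h287
  have a4 : HH n (4 * s ^ 2) = ∑ k ∈ Finset.range (n + 1), ((Nat.centralBinom k ^ 3 : ℕ) : ℤ_[p]) *
      i64 ^ k := by
    unfold HH
    rw [a1]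
    apply Finset.sum_congr rfl
    intro k _
    unfold u2; push_cast; ring
  have hdiv2 : p / 2 = n := by omega
  have e3 : ((legendreSym p 3 : ℤ) : ZMod p) = 3 ^ n := by
    have := legendreSym.eq_pow p 3
    rw [hdiv2] at this; push_cast at this; exact this
  have e33 : ((legendreSym p 33 : ℤ) : ZMod p) = 33 ^ n := by
    have := legendreSym.eq_pow p 33
    rw [hdiv2] at this; push_cast at this; exact this
  have n3 : ((3 : ℤ) : ZMod p) ≠ 0 := by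
    have := zmod_nat_ne (p := p) (m := 3) (by norm_num) (by omega)
    exact_mod_cast this
  have n33 : ((33 : ℤ) : ZMod p) ≠ 0 := by
    have h11 := zmod_nat_ne (p := p) (m := 11) (by norm_num) (by omega)
    have h3 := zmod_nat_ne (p := p) (m := 3) (by norm_num) (by omega)
    have := mul_ne_zero h3 h11
    rw [← Nat.cast_mul] at this
    norm_num at this ⊢
    exact this
  rw [← e3] at m2
  rw [← e33] at m3
  have r2 := sign_lemma (legendreSym.eq_one_or_neg_one p n3) (by omega) s2 m2 hne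
  have r3 := sign_lemma (legendreSym.eq_one_or_neg_one p n33) (by omega) s3 m3 hne
  rw [a4, a2] at r2
  rw [a4, a3] at r3
  have t2 := trunc (show K < p by omega) c3 i12
  have t3 := trunc (show K < p by omega) c3 i66
  constructor
  · obtain ⟨x, hx⟩ := r2
    obtain ⟨y, hy⟩ := t2
    exact ⟨x - (legendreSym p 3 : ℤ_[p]) * y, by linear_combination hx - (legendreSym p 3 : ℤ_[p]) * hy⟩
  · obtain ⟨x, hx⟩ := r3
    obtain ⟨y, hy⟩ := t3
    exact ⟨x - (legendreSym p 33 : ℤ_[p]) * y, by linear_combination hx - (legendreSym p 33 : ℤ_[p]) * hy⟩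

/-! ### Rational numbers -/

theorem to_rat {x : ℚ} {N Z : ℤ} (hN : ¬ (p : ℤ) ∣ N) (h : (N : ℚ) * x = Z) (hZ : (p : ℤ) ^ 3 ∣ Z) :
    ∃ u : ℚ, ¬ p ∣ u.den ∧ x = (p : ℚ) ^ 3 * u := by
  obtain ⟨W, hW⟩ := hZ
  have hN0 : (N : ℚ) ≠ 0 := by
    intro h0
    apply hN
    have : N = 0 := by exact_mod_cast h0
    rw [this]; exact dvd_zero _
  refine ⟨(W : ℚ) / (N : ℚ), ?_, ?_⟩
  · intro hd
    have h4 := Rat.den_dvd W N
    rw [Rat.divInt_eq_div] at h4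
    exact hN ((Int.natCast_dvd_natCast.2 hd).trans h4)
  · have h5 : (Z : ℚ) = (p : ℚ) ^ 3 * W := by rw [hW]; push_cast; rfl
    rw [mul_div_assoc', ← h5, ← h]
    field_simp

/-- common denominators -/
theorem conv {A : Type*} [CommRing A] {m mi : A} (h : m * mi = 1) (c : ℕ → ℕ) (L : ℕ) :
    ∑ k ∈ Finset.range (L + 1), (c k : A) * m ^ (L - k) = m ^ L * ∑ k ∈ Finset.range (L + 1), (c k : A) * mi ^ k := by
  rw [Finset.mul_sum]
  apply Finset.sum_congr rfl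
  intro k hk
  rw [Finset.mem_range] at hk
  rw [pow_sub_inv h (by omega)]; ring

/-- Passage from the `p`-adic integers to the rationals. -/
theorem transfer {m1 m2 : ℤ} {i1 i2 : ℤ_[p]} (h1 : (m1 : ℤ_[p]) * i1 = 1) (h2 : (m2 : ℤ_[p]) * i2 = 1)
    (q1 : (m1 : ℚ) ≠ 0) (q2 : (m2 : ℚ) ≠ 0) (n1 : ¬ (p : ℤ) ∣ m1) (n2 : ¬ (p : ℤ) ∣ m2)
    (c1 c2 : ℕ → ℕ) (L1 L2 : ℕ) (e1 e2 : ℤ)
    (h : (p : ℤ_[p]) ^ 3 ∣ e1 * (∑ k ∈ Finset.range (L1 + 1), (c1 k : ℤ_[p]) * i1 ^ k) -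
      e2 * ∑ k ∈ Finset.range (L2 + 1), (c2 k : ℤ_[p]) * i2 ^ k) :
    ∃ u : ℚ, ¬ p ∣ u.den ∧ e1 * (∑ k ∈ Finset.range (L1 + 1), (c1 k : ℚ) * ((m1 : ℚ)⁻¹) ^ k) -
      e2 * (∑ k ∈ Finset.range (L2 + 1), (c2 k : ℚ) * ((m2 : ℚ)⁻¹) ^ k) = (p : ℚ) ^ 3 * u := by
  have hpi := Nat.prime_iff_prime_int.1 hp.out
  set I1 : ℤ := ∑ k ∈ Finset.range (L1 + 1), (c1 k : ℤ) * m1 ^ (L1 - k) with hI1
  set I2 : ℤ := ∑ k ∈ Finset.range (L2 + 1), (c2 k : ℤ) * m2 ^ (L2 - k) with hI2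
  apply to_rat (N := m1 ^ L1 * m2 ^ L2) (Z := e1 * I1 * m2 ^ L2 - e2 * I2 * m1 ^ L1)
  · intro hd
    rcases hpi.dvd_or_dvd hd with hd | hd
    · exact n1 (hpi.dvd_of_dvd_pow hd)
    · exact n2 (hpi.dvd_of_dvd_pow hd)
  · have r1 := conv (mul_inv_cancel₀ q1) c1 L1
    have r2 := conv (mul_inv_cancel₀ q2) c2 L2
    rw [hI1, hI2]
    push_cast
    rw [r1, r2]; ring
  · have r1 := conv h1 c1 L1
    have r2 := conv h2 c2 L2
    have h5 : (p : ℤ_[p]) ^ 3 ∣ ((e1 * I1 * m2 ^ L2 - e2 * I2 * m1 ^ L1 : ℤ) : ℤ_[p]) := by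
      rw [hI1, hI2]
      push_cast
      rw [r1, r2]
      obtain ⟨t, ht⟩ := h
      exact ⟨(m1 : ℤ_[p]) ^ L1 * (m2 : ℤ_[p]) ^ L2 * t, by
        linear_combination (m1 : ℤ_[p]) ^ L1 * (m2 : ℤ_[p]) ^ L2 * ht⟩
    exact (PadicInt.pow_p_dvd_int_iff 3 _).1 h5

end Pool.Agent.H78.FS
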