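import Pool.Agent.H78.FS.Data

/-!
Facts modulo `p`.
-/

set_option autoImplicit false
set_option linter.unusedSectionVars false
set_option linter.unusedSimpArgs false
set_option linter.unusedVariables false
set_option linter.unusedTactic false

namespace Pool.Agent.H78.FS

open Polynomial

/-- `Σ C(2k,k)^2 s^k t^k` -/
noncomputable def pT {A : Type*} [CommRing A] (s : A) (n : ℕ) : A[X] :=
  ∑ k ∈ Finset.range (n + 1), C ((Nat.centralBinom k : A) ^ 2 * s ^ k) * X ^ k

variable {p : ℕ} [hp : Fact p.Prime]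

theorem map_T {A B : Type*} [CommRing A] [CommRing B] (f : A →+* B) (s : A) (n : ℕ) :
    (pT s n).map f = pT (f s) n := by
  unfold pT
  simp [Polynomial.map_sum]

theorem cb_sq_rec (k : ℕ) : (k + 1) ^ 2 * (Nat.centralBinom (k + 1)) ^ 2 =
    4 * (2 * k + 1) ^ 2 * (Nat.centralBinom k) ^ 2 := by
  have h := Nat.succ_mul_centralBinom_succ k
  calc (k + 1) ^ 2 * (Nat.centralBinom (k + 1)) ^ 2 = ((k + 1) * Nat.centralBinom (k + 1)) ^ 2 := by ring
    _ = _ := by rw [h]; ring

section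

variable {s : ℤ_[p]} (hs : 16 * s = 1)

include hs

theorem T_eps (m : ℕ) :
    dl p (dl p (∑ k ∈ Finset.range m, PowerSeries.C ((Nat.centralBinom k : ℤ_[p]) ^ 2 * s ^ k) *
      PowerSeries.X ^ k)) + qq s * (∑ k ∈ Finset.range m,
      PowerSeries.C ((Nat.centralBinom k : ℤ_[p]) ^ 2 * s ^ k) * PowerSeries.X ^ k) =
      -(1 - PowerSeries.X) * (m : PowerSeries ℤ_[p]) ^ 2 *
        PowerSeries.C ((Nat.centralBinom m : ℤ_[p]) ^ 2 * s ^ m) * PowerSeries.X ^ m := by
  induction m with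
  | zero => simp
  | succ m ih =>
    rw [Finset.sum_range_succ, map_add, map_add, mul_add]
    have h1 : dl p ((PowerSeries.X : PowerSeries ℤ_[p]) ^ m) =
        PowerSeries.X ^ m * ((m : PowerSeries ℤ_[p]) * (1 - PowerSeries.X)) := (LDX (p := p)).pow _ m
    have h2 : dl p (dl p (PowerSeries.C ((Nat.centralBinom m : ℤ_[p]) ^ 2 * s ^ m) *
        PowerSeries.X ^ m)) = PowerSeries.C ((Nat.centralBinom m : ℤ_[p]) ^ 2 * s ^ m) *
        PowerSeries.X ^ m * ((m : PowerSeries ℤ_[p]) ^ 2 * (1 - PowerSeries.X) ^ 2 -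
          (m : PowerSeries ℤ_[p]) * (PowerSeries.X * (1 - PowerSeries.X))) := by
      rw [der_mul, dl_C, mul_zero, add_zero, h1, der_mul, dl_C, mul_zero, add_zero, der_mul, der_mul,
        h1, dl_natCast, map_sub, dl_one, dl_X]
      ring
    rw [h2]
    have hS' := hS hs
    have hr : ((m : PowerSeries ℤ_[p]) + 1) ^ 2 *
        PowerSeries.C ((Nat.centralBinom (m + 1) : ℤ_[p]) ^ 2 * s ^ (m + 1)) =
        4 * (2 * m + 1) ^ 2 * PowerSeries.C s *
          PowerSeries.C ((Nat.centralBinom m : ℤ_[p]) ^ 2 * s ^ m) := by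
      have := congrArg (fun x : ℕ => (PowerSeries.C ((x : ℤ_[p]) * s ^ (m + 1)) : PowerSeries ℤ_[p]))
        (cb_sq_rec m)
      beta_reduce at this
      push_cast at this ⊢
      simp only [map_mul, map_pow, map_add, map_natCast, map_one, map_ofNat, pow_succ] at this ⊢
      linear_combination this
    rw [pow_succ (PowerSeries.X : PowerSeries ℤ_[p]) m]
    unfold qq at ih ⊢
    push_cast
    generalize (PowerSeries.C ((Nat.centralBinom m : ℤ_[p]) ^ 2 * s ^ m) : PowerSeries ℤ_[p]) = cm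
      at hr ih ⊢
    generalize (PowerSeries.C ((Nat.centralBinom (m + 1) : ℤ_[p]) ^ 2 * s ^ (m + 1)) :
      PowerSeries ℤ_[p]) = cm1 at hr ⊢
    generalize (PowerSeries.X : PowerSeries ℤ_[p]) ^ m = ym at ih ⊢
    generalize (PowerSeries.C s : PowerSeries ℤ_[p]) = S at hr hS' ih ⊢
    linear_combination ih + (1 - PowerSeries.X) * (ym * PowerSeries.X) * hr +
      (cm * ym * PowerSeries.X * (1 - PowerSeries.X) * (m ^ 2 + m)) * hS'

theorem T_eps' (n : ℕ) (hn : p = 2 * n + 1) :
    (p : PowerSeries ℤ_[p]) ∣ dl p (dl p ((pT s n : ℤ_[p][X]) : PowerSeries ℤ_[p])) +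
      qq s * ((pT s n : ℤ_[p][X]) : PowerSeries ℤ_[p]) := by
  have hc : ((pT s n : ℤ_[p][X]) : PowerSeries ℤ_[p]) = ∑ k ∈ Finset.range (n + 1),
      PowerSeries.C ((Nat.centralBinom k : ℤ_[p]) ^ 2 * s ^ k) * PowerSeries.X ^ k := by
    unfold pT; rw [coe_sum]
    apply Finset.sum_congr rfl
    intro k _
    rw [Polynomial.coe_mul, Polynomial.coe_C, Polynomial.coe_pow, Polynomial.coe_X]
  rw [hc, T_eps hs]
  have hr : ((n : PowerSeries ℤ_[p]) + 1) ^ 2 *
      PowerSeries.C ((Nat.centralBinom (n + 1) : ℤ_[p]) ^ 2 * s ^ (n + 1)) =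
      4 * (2 * n + 1) ^ 2 * PowerSeries.C s *
        PowerSeries.C ((Nat.centralBinom n : ℤ_[p]) ^ 2 * s ^ n) := by
    have := congrArg (fun x : ℕ => (PowerSeries.C ((x : ℤ_[p]) * s ^ (n + 1)) : PowerSeries ℤ_[p]))
      (cb_sq_rec n)
    beta_reduce at this
    push_cast at this ⊢
    simp only [map_mul, map_pow, map_add, map_natCast, map_one, map_ofNat, pow_succ] at this ⊢
    linear_combination this
  have hpn : (p : PowerSeries ℤ_[p]) = 2 * n + 1 := by
    have := congrArg (fun x : ℕ => (x : PowerSeries ℤ_[p])) hn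
    beta_reduce at this
    push_cast at this; exact this
  refine ⟨-(1 - PowerSeries.X) * 4 * (2 * (n : PowerSeries ℤ_[p]) + 1) * PowerSeries.C s *
    PowerSeries.C ((Nat.centralBinom n : ℤ_[p]) ^ 2 * s ^ n) * PowerSeries.X ^ (n + 1), ?_⟩
  rw [hpn]
  push_cast at hr ⊢
  linear_combination -(1 - PowerSeries.X) * PowerSeries.X ^ (n + 1) * hr

omit hs in
theorem sym2 {R : Type*} [CommRing R] {S : Type*} [CommRing S] [Algebra S R] (δ : Derivation S R R)
    (q u : R) : LL δ q 0 (u * u) = 6 * δ u * (δ (δ u) + q * u) + 2 * u * δ (δ (δ u) + q * u) := by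
  unfold LL nab
  simp only [map_add, der_mul, zero_mul, add_zero]
  ring

/-- The second order equation modulo `p`. -/
theorem T_ode (n : ℕ) (hn : p = 2 * n + 1) :
    X * (1 - X) * derivative (derivative (rp (pT s n))) + (1 - 2 * X) * derivative (rp (pT s n)) =
      C (4 * PadicInt.toZMod s) * rp (pT s n) := by
  have h := T_eps' hs n hn
  set T := pT s n with hT
  have h0 : dl p (dl p ((T : ℤ_[p][X]) : PowerSeries ℤ_[p])) +
      qq s * ((T : ℤ_[p][X]) : PowerSeries ℤ_[p]) =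
      ((X * (1 - X) * (X * (1 - X) * derivative (derivative T) + (1 - 2 * X) * derivative T -
        C (4 * s) * T) : ℤ_[p][X]) : PowerSeries ℤ_[p]) := by
    have e1 : dl p ((T : ℤ_[p][X]) : PowerSeries ℤ_[p]) =
        ((X * (1 - X) * derivative T : ℤ_[p][X]) : PowerSeries ℤ_[p]) := by
      rw [dl_apply, PowerSeries.derivative_coe]
      simp only [Polynomial.coe_mul, Polynomial.coe_X, Polynomial.coe_sub, Polynomial.coe_one]
    have e2 : dl p (dl p ((T : ℤ_[p][X]) : PowerSeries ℤ_[p])) =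
        ((X * (1 - X) * derivative (X * (1 - X) * derivative T) : ℤ_[p][X]) : PowerSeries ℤ_[p]) := by
      rw [e1, dl_apply, PowerSeries.derivative_coe]
      simp only [Polynomial.coe_mul, Polynomial.coe_X, Polynomial.coe_sub, Polynomial.coe_one]
    have e3 : qq s = ((-(C (4 * s) * (X * (1 - X))) : ℤ_[p][X]) : PowerSeries ℤ_[p]) := by
      unfold qq
      simp only [Polynomial.coe_neg, Polynomial.coe_mul, Polynomial.coe_X, Polynomial.coe_sub,
        Polynomial.coe_one, Polynomial.coe_C, map_mul]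
      have : (PowerSeries.C (4 : ℤ_[p]) : PowerSeries ℤ_[p]) = 4 := map_ofNat _ 4
      rw [this]
    rw [e2, e3, ← Polynomial.coe_mul, ← Polynomial.coe_add]
    congr 1
    simp only [derivative_mul, derivative_sub, derivative_one, derivative_X]
    ring
  rw [h0, ← rd_eq_zero, rp_coe] at h
  have h1 : rp (X * (1 - X) * (X * (1 - X) * derivative (derivative T) + (1 - 2 * X) * derivative T -
        C (4 * s) * T)) = 0 := by
    apply Polynomial.coe_injective
    rw [h, Polynomial.coe_zero]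
  rw [map_mul] at h1
  have hne : rp (X * (1 - X) : ℤ_[p][X]) ≠ 0 := by
    rw [map_mul, map_sub, map_one, rp_X]
    apply mul_ne_zero X_ne_zero
    intro h
    have := congrArg (eval 0) h
    simp at this
  have h2 := (mul_eq_zero.1 h1).resolve_left hne
  simp only [map_sub, map_add, map_mul, rp_X, map_one, rp_der, rp_C, map_ofNat] at h2
  rw [C_mul]
  have e4 : (C (4 : ZMod p) : (ZMod p)[X]) = 4 := map_ofNat C 4
  have e4' : (C (PadicInt.toZMod (4 : ℤ_[p])) : (ZMod p)[X]) = 4 := by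
    rw [map_ofNat]; exact e4
  rw [e4]
  linear_combination h2

end

/-! ### Binomial coefficients modulo `p` -/

theorem zmod_nat_ne {m : ℕ} (h0 : 0 < m) (h : m < p) : (m : ZMod p) ≠ 0 := by
  rw [Ne, CharP.cast_eq_zero_iff (ZMod p) p]
  intro hd
  exact absurd (Nat.le_of_dvd h0 hd) (by omega)

theorem cb_cong {h : ℕ} (hh : p = 2 * h + 1) (j : ℕ) (hj : j ≤ h) :
    (4 : ZMod p) ^ j * (Nat.choose h j : ℕ) = (-1) ^ j * (Nat.centralBinom j : ℕ) := by
  induction j with
  | zero => simp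
  | succ j ih =>
    have ih' := ih (by omega)
    have hj1 : ((j + 1 : ℕ) : ZMod p) ≠ 0 := zmod_nat_ne (by omega) (by omega)
    have h1 := congrArg (fun x : ℕ => (x : ZMod p)) (Nat.choose_succ_right_eq h j)
    have h2 := congrArg (fun x : ℕ => (x : ZMod p)) (Nat.succ_mul_centralBinom_succ j)
    have hp0 : (2 : ZMod p) * h + 1 = 0 := by
      have : ((2 * h + 1 : ℕ) : ZMod p) = 0 := by rw [← hh]; exact CharP.cast_eq_zero (ZMod p) p
      push_cast at this; exact this
    beta_reduce at h1 h2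
    push_cast [Nat.cast_sub (show j ≤ h by omega)] at h1 h2 hj1
    apply mul_right_cancel₀ hj1
    linear_combination (4 ^ (j + 1)) * h1 + 4 * (h - j : ZMod p) * ih' - (-1) ^ (j + 1) * h2 +
      2 * (-1) ^ j * (Nat.centralBinom j : ℕ) * hp0

theorem two_pow {n : ℕ} (hn : p = 2 * n + 1) : (2 : ZMod p) ^ (2 * n) = 1 := by
  have h2 : (2 : ZMod p) ≠ 0 := by
    have := zmod_nat_ne (p := p) (m := 2) (by norm_num) (by have := hp.out.two_le; omega)
    exact_mod_cast this
  have := ZMod.pow_card_sub_one_eq_one h2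
  rwa [show p - 1 = 2 * n by omega] at this

theorem cb_n {n : ℕ} (hn : p = 2 * n + 1) : ((Nat.centralBinom n : ℕ) : ZMod p) = (-1) ^ n := by
  have h := cb_cong hn n le_rfl
  rw [Nat.choose_self, Nat.cast_one, mul_one] at h
  have h4 : (4 : ZMod p) ^ n = 1 := by
    have : (4 : ZMod p) = 2 ^ 2 := by norm_num
    rw [this, ← pow_mul]; exact two_pow hn
  rw [h4] at h
  have h1 : ((-1 : ZMod p)) ^ n * (-1) ^ n = 1 := by rw [← mul_pow]; simp
  linear_combination (-(-1) ^ n : ZMod p) * h - ((Nat.centralBinom n : ℕ) : ZMod p) * h1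

theorem u2_n {n : ℕ} (hn : p = 2 * n + 1) : ((u2 n : ℤ) : ZMod p) = (-1) ^ n := by
  unfold u2
  push_cast
  rw [cb_n hn, ← pow_mul, mul_comm n 3, pow_mul]
  norm_num

theorem s_pow {n : ℕ} (hn : p = 2 * n + 1) {s : ZMod p} (hs : 16 * s = 1) : s ^ n = 1 := by
  have h1 : (16 : ZMod p) ^ n = 1 := by
    have : (16 : ZMod p) = 2 ^ 4 := by norm_num
    rw [this, ← pow_mul, show 4 * n = 2 * n * 2 by ring, pow_mul, two_pow hn, one_pow]
  have h2 : ((16 : ZMod p) * s) ^ n = 1 := by rw [hs, one_pow]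
  rw [mul_pow, h1, one_mul] at h2
  exact h2

/-! ### Valuations of `C6` -/

theorem C6_step {i k : ℕ} (hk : k + 1 < p) (h : p ^ i ∣ C6 k) : p ^ i ∣ C6 (k + 1) := by
  have h1 := C6_rec k
  have h2 : p ^ i ∣ (k + 1) ^ 3 * C6 (k + 1) := by rw [h1]; exact Dvd.dvd.mul_left h _
  refine Nat.Coprime.dvd_of_dvd_mul_left ?_ h2
  apply Nat.Coprime.pow
  rw [Nat.Prime.coprime_iff_not_dvd hp.out]
  intro hd; exact absurd (Nat.le_of_dvd (by omega) hd) (by omega)

theorem C6_jump {i j k : ℕ} (hj : p ∣ (2 * j + 1) * (6 * j + 1) * (6 * j + 5)) (h : p ^ i ∣ C6 j)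
    (hjk : j < k) (hk : k < p) : p ^ (i + 1) ∣ C6 k := by
  induction k with
  | zero => omega
  | succ k ih =>
    by_cases hjk' : j = k
    · subst hjk'
      have h1 := C6_rec j
      have h2 : p ^ (i + 1) ∣ (j + 1) ^ 3 * C6 (j + 1) := by
        rw [h1, pow_succ, mul_comm (p ^ i) p]
        have : 24 * (2 * j + 1) * (6 * j + 1) * (6 * j + 5) * C6 j =
            ((2 * j + 1) * (6 * j + 1) * (6 * j + 5)) * (24 * C6 j) := by ring
        rw [this]
        exact mul_dvd_mul hj (Dvd.dvd.mul_left h _)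
      refine Nat.Coprime.dvd_of_dvd_mul_left ?_ h2
      apply Nat.Coprime.pow
      rw [Nat.Prime.coprime_iff_not_dvd hp.out]
      intro hd; exact absurd (Nat.le_of_dvd (by omega) hd) (by omega)
    · exact C6_step hk (ih (by omega) (by omega))

end Pool.Agent.H78.FS
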