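import Pool.Agent.H78.FS.Alg

/-!
Power series over the `p`-adic integers: the absence of logarithms modulo `p`.
-/

set_option autoImplicit false
set_option linter.unusedSectionVars false
set_option linter.unusedSimpArgs false
set_option linter.unusedVariables false

namespace Pool.Agent.H78.FS

open PowerSeries

section charp

variable {K : Type*} [Field K]

/-- `t d/dt` -/
noncomputable def th (f : K⟦X⟧) : K⟦X⟧ := X * d⁄dX K f

theorem coeff_th (f : K⟦X⟧) (i : ℕ) : coeff i (th f) = (i : K) * coeff i f := by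
  unfold th
  rcases i with _ | i
  · simp
  · rw [coeff_succ_X_mul, PowerSeries.coeff_derivative]; push_cast; ring

theorem nolog0 (p : ℕ) [CharP K p] {u g : K⟦X⟧} (hu : constantCoeff u ≠ 0)
    (h : th (u * th g) = 0) : th g = 0 := by
  have key : ∀ i, coeff i (th g) = 0 := by
    intro i
    induction i using Nat.strong_induction_on with
    | _ i ih =>
      by_cases hi : (i : K) = 0
      · rw [coeff_th, hi, zero_mul]
      · have h1 : coeff i (th (u * th g)) = 0 := by rw [h]; simp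
        rw [coeff_th] at h1
        have h2 : coeff i (u * th g) = 0 := by
          rcases mul_eq_zero.1 h1 with h1 | h1
          · exact absurd h1 hi
          · exact h1
        rw [coeff_mul] at h2
        have h3 : ∑ x ∈ Finset.HasAntidiagonal.antidiagonal i, coeff x.1 u * coeff x.2 (th g) =
            coeff 0 u * coeff i (th g) := by
          apply Finset.sum_eq_single_of_mem (0, i)
          · simp
          · rintro ⟨j, k⟩ hjk hne
            rw [Finset.HasAntidiagonal.mem_antidiagonal] at hjk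
            have : k < i := by
              rcases Nat.eq_zero_or_pos j with hj | hj
              · exfalso; apply hne; subst hj; simp at hjk; simp [hjk]
              · simp at hjk; omega
            simp only
            rw [ih k this, mul_zero]
        rw [h3, coeff_zero_eq_constantCoeff_apply] at h2
        rcases mul_eq_zero.1 h2 with h2 | h2
        · exact absurd h2 hu
        · exact h2
  ext i
  rw [key i]; simp

end charp

variable {p : ℕ} [hp : Fact p.Prime]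

theorem red_zero (x : ℤ_[p]) : PadicInt.toZMod x = 0 ↔ (p : ℤ_[p]) ∣ x := by
  rw [← RingHom.mem_ker, PadicInt.ker_toZMod, PadicInt.maximalIdeal_eq_span_p,
    Ideal.mem_span_singleton]

/-- reduction modulo `p` -/
noncomputable def rd : ℤ_[p]⟦X⟧ →+* (ZMod p)⟦X⟧ := PowerSeries.map PadicInt.toZMod

theorem coeff_rd (f : ℤ_[p]⟦X⟧) (i : ℕ) : coeff i (rd f) = PadicInt.toZMod (coeff i f) := by
  unfold rd; rw [coeff_map]

theorem natCast_mul_coeff (m : ℕ) (f : ℤ_[p]⟦X⟧) (i : ℕ) :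
    coeff i ((m : ℤ_[p]⟦X⟧) * f) = m * coeff i f := by
  have : (m : ℤ_[p]⟦X⟧) = C (m : ℤ_[p]) := by simp
  rw [this, coeff_C_mul]

theorem pow_dvd_iff (k : ℕ) (f : ℤ_[p]⟦X⟧) :
    (p : ℤ_[p]⟦X⟧) ^ k ∣ f ↔ ∀ i, (p : ℤ_[p]) ^ k ∣ coeff i f := by
  have e : (p : ℤ_[p]⟦X⟧) ^ k = C ((p : ℤ_[p]) ^ k) := by simp
  constructor
  · rintro ⟨g, rfl⟩ i
    rw [e, coeff_C_mul]; exact dvd_mul_right _ _
  · intro h
    choose g hg using h
    refine ⟨PowerSeries.mk g, ?_⟩
    ext i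
    rw [e, coeff_C_mul, coeff_mk, hg i]

theorem dvd_iff' (f : ℤ_[p]⟦X⟧) : (p : ℤ_[p]⟦X⟧) ∣ f ↔ ∀ i, (p : ℤ_[p]) ∣ coeff i f := by
  have := pow_dvd_iff (p := p) 1 f
  simpa using this

theorem rd_eq_zero (f : ℤ_[p]⟦X⟧) : rd f = 0 ↔ (p : ℤ_[p]⟦X⟧) ∣ f := by
  rw [dvd_iff']
  constructor
  · intro h i
    rw [← red_zero, ← coeff_rd, h]; simp
  · intro h
    ext i
    rw [coeff_rd, (red_zero _).2 (h i)]; simp

theorem rd_der (f : ℤ_[p]⟦X⟧) : rd (d⁄dX ℤ_[p] f) = d⁄dX (ZMod p) (rd f) := by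
  ext i
  rw [coeff_rd, PowerSeries.coeff_derivative, PowerSeries.coeff_derivative, coeff_rd]
  simp

variable (p) in
/-- `t (1 - t) d/dt` -/
noncomputable def dl : Derivation ℤ_[p] ℤ_[p]⟦X⟧ ℤ_[p]⟦X⟧ := (X * (1 - X) : ℤ_[p]⟦X⟧) • d⁄dX ℤ_[p]

theorem dl_apply (f : ℤ_[p]⟦X⟧) : dl p f = X * (1 - X) * d⁄dX ℤ_[p] f := by
  unfold dl; rw [Derivation.smul_apply, smul_eq_mul]

theorem p_ne : (p : ℤ_[p]⟦X⟧) ≠ 0 := by
  intro h
  have := congrArg constantCoeff h
  rw [map_natCast, map_zero] at this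
  exact hp.out.ne_zero (by exact_mod_cast this)

theorem dl_p : dl p (p : ℤ_[p]⟦X⟧) = 0 := Derivation.map_natCast _ _

theorem dl_ppow (k : ℕ) : dl p ((p : ℤ_[p]⟦X⟧) ^ k) = 0 := by
  rw [← Nat.cast_pow]; exact Derivation.map_natCast _ _

/-- The derivation is `unit * theta` modulo `p`. -/
theorem rd_DD (a ω f : ℤ_[p]⟦X⟧) (hω : (p : ℤ_[p]⟦X⟧) ∣ ω) :
    rd (DD (dl p) a ω f) = rd (a * (1 - X)) * th (rd f) := by
  unfold DD nab th
  have h0 : rd ω = 0 := (rd_eq_zero ω).2 hω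
  rw [map_mul, map_add, map_mul, h0, zero_mul, add_zero, dl_apply, map_mul, map_mul, rd_der,
    map_mul]
  have hX : rd (X : ℤ_[p]⟦X⟧) = X := by unfold rd; rw [PowerSeries.map_X]
  rw [hX]; ring

theorem const_rd {a : ℤ_[p]⟦X⟧} (ha : constantCoeff a = 1) :
    constantCoeff (rd (a * (1 - X))) ≠ 0 := by
  have : constantCoeff (rd (a * (1 - X))) = 1 := by
    have h := coeff_rd (a * (1 - X)) 0
    rw [coeff_zero_eq_constantCoeff_apply, coeff_zero_eq_constantCoeff_apply] at h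
    rw [h, map_mul, ha]; simp
  rw [this]; exact one_ne_zero

theorem unit_of_const {K : Type*} [Field K] {u : K⟦X⟧} (h : constantCoeff u ≠ 0) : IsUnit u := by
  rw [PowerSeries.isUnit_iff_constantCoeff]; exact isUnit_iff_ne_zero.2 h

theorem nolog {a ω ω' g : ℤ_[p]⟦X⟧} (ha : constantCoeff a = 1) (hω : (p : ℤ_[p]⟦X⟧) ∣ ω)
    (hω' : (p : ℤ_[p]⟦X⟧) ∣ ω')
    (h : (p : ℤ_[p]⟦X⟧) ∣ DD (dl p) a ω (DD (dl p) a ω' g)) :
    (p : ℤ_[p]⟦X⟧) ∣ DD (dl p) a ω' g := by
  rw [← rd_eq_zero] at h ⊢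
  rw [rd_DD _ _ _ hω, rd_DD _ _ _ hω'] at h
  rw [rd_DD _ _ _ hω']
  have hu := unit_of_const (const_rd ha)
  have h1 : th (rd (a * (1 - X)) * th (rd g)) = 0 := by
    exact (hu.mul_right_eq_zero).1 h
  rw [nolog0 p (const_rd ha) h1, mul_zero]

end Pool.Agent.H78.FS
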