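import Pool.Agent.H78.FS.Chain

/-!
The solutions of the third order equation modulo `p ^ 3`.
-/

set_option autoImplicit false
set_option linter.unusedSectionVars false
set_option linter.unusedSimpArgs false
set_option linter.unusedVariables false

namespace Pool.Agent.H78.FS

open PowerSeries

variable {p : ℕ} [hp : Fact p.Prime]

theorem dl_X : dl p (X : ℤ_[p]⟦X⟧) = X * (1 - X) := by
  rw [dl_apply, PowerSeries.derivative_X, mul_one]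

theorem dl_C (c : ℤ_[p]) : dl p (C c : ℤ_[p]⟦X⟧) = 0 := by
  rw [dl_apply, PowerSeries.derivative_C, mul_zero]

theorem dl_natCast (k : ℕ) : dl p (k : ℤ_[p]⟦X⟧) = 0 := Derivation.map_natCast _ k

theorem dl_one : dl p (1 : ℤ_[p]⟦X⟧) = 0 := Derivation.map_one_eq_zero _

theorem dl_two : dl p (2 : ℤ_[p]⟦X⟧) = 0 := der_ofNat _ 2

theorem dl_three : dl p (3 : ℤ_[p]⟦X⟧) = 0 := der_ofNat _ 3

theorem dl_four : dl p (4 : ℤ_[p]⟦X⟧) = 0 := der_ofNat _ 4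

theorem dl_eight : dl p (8 : ℤ_[p]⟦X⟧) = 0 := der_ofNat _ 8

theorem LDX : LD (dl p) (X : ℤ_[p]⟦X⟧) (1 - X) := dl_X

theorem LD1X : LD (dl p) (1 - X : ℤ_[p]⟦X⟧) (-X) := by
  unfold LD; rw [map_sub, dl_one, dl_X]; ring

/-- the coefficient `Q` of the second order equation -/
noncomputable def qq (s : ℤ_[p]) : ℤ_[p]⟦X⟧ := -(4 * C s * (X * (1 - X)))

theorem dl_qq (s : ℤ_[p]) : dl p (qq s) = -(4 * C s * (X * (1 - X) * (1 - 2 * X))) := by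
  unfold qq
  simp only [map_neg, der_mul, dl_four, dl_C, dl_X, map_sub, dl_one]
  ring

/-- the cube of the central binomial coefficient -/
def u2 (k : ℕ) : ℤ := ((Nat.centralBinom k ^ 3 : ℕ) : ℤ)

theorem u2_rec (k : ℕ) : ((k : ℤ) + 1) ^ 3 * u2 (k + 1) = 8 * (2 * k + 1) ^ 3 * u2 k := by
  unfold u2
  have h := Nat.succ_mul_centralBinom_succ k
  have h' := congrArg (fun x : ℕ => (x : ℤ)) h
  push_cast at h' ⊢
  have := congrArg (fun x : ℤ => x ^ 3) h'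
  beta_reduce at this
  linear_combination this

section

variable {s : ℤ_[p]} (hs : 16 * s = 1)

include hs

theorem hS : (16 : ℤ_[p]⟦X⟧) * C s = 1 := by
  have : (16 : ℤ_[p]⟦X⟧) = C (16 : ℤ_[p]) := (map_ofNat C 16).symm
  rw [this, ← map_mul, hs, map_one]

omit hs in
theorem LL_C_mul (q ω f : ℤ_[p]⟦X⟧) (c : ℤ_[p]) :
    LL (dl p) q ω (C c * f) = C c * LL (dl p) q ω f := LL_const_mul _ _ _ _ _ (dl_C c)

omit hs in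
theorem LL_zero (q ω : ℤ_[p]⟦X⟧) : LL (dl p) q ω 0 = 0 := by
  have := LL_const_mul (dl p) q ω 0 0 (map_zero _)
  simpa using this

/-- The solution `a`. -/
theorem LL_a (m : ℕ) :
    LL (dl p) (qq s) 0 (∑ k ∈ Finset.range m, C ((u2 k : ℤ_[p]) * s ^ k) * (X * (1 - X)) ^ k) =
      -(1 - 2 * X) * (m : ℤ_[p]⟦X⟧) ^ 3 * C ((u2 m : ℤ_[p]) * s ^ m) * (X * (1 - X)) ^ m := by
  induction m with
  | zero => simp [LL_zero]
  | succ m ih =>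
    rw [Finset.sum_range_succ, LL_add, ih, LL_C_mul]
    have h1 : LD (dl p) ((X * (1 - X) : ℤ_[p]⟦X⟧) ^ m) ((m : ℤ_[p]⟦X⟧) * ((1 - X) + (-X))) :=
      ((LDX (p := p)).mul _ LD1X).pow _ m
    rw [LL_of_LD _ _ _ h1]
    have hS' := hS hs
    have hr : ((m : ℤ_[p]⟦X⟧) + 1) ^ 3 * C ((u2 (m + 1) : ℤ_[p]) * s ^ (m + 1)) =
        8 * (2 * m + 1) ^ 3 * C s * C ((u2 m : ℤ_[p]) * s ^ m) := by
      have := congrArg (fun x : ℤ => (C ((x : ℤ_[p]) * s ^ (m + 1)) : ℤ_[p]⟦X⟧)) (u2_rec m)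
      beta_reduce at this
      push_cast at this ⊢
      simp only [map_mul, map_pow, map_add, map_natCast, map_one, map_ofNat, pow_succ] at this ⊢
      linear_combination this
    simp only [add_zero, map_add, map_sub, map_neg, der_mul, dl_natCast, dl_one, dl_X, dl_qq, map_zero]
    unfold qq
    push_cast
    rw [pow_succ (X * (1 - X) : ℤ_[p]⟦X⟧) m]
    generalize (C ((u2 m : ℤ_[p]) * s ^ m) : ℤ_[p]⟦X⟧) = cm at hr ⊢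
    generalize (C ((u2 (m + 1) : ℤ_[p]) * s ^ (m + 1)) : ℤ_[p]⟦X⟧) = cm1 at hr ⊢
    generalize ((X * (1 - X) : ℤ_[p]⟦X⟧) ^ m) = ym
    generalize (C s : ℤ_[p]⟦X⟧) = S at hr hS' ⊢
    linear_combination (1 - 2 * X) * (ym * (X * (1 - X))) * hr +
      cm * ym * 2 * m * (1 + m) * (1 + 2 * m) * X * (1 - X) * (1 - 2 * X) * hS'

/-- The operator on the monomials of `b`. -/
theorem LL_mon_b {n m : ℕ} (hm : m ≤ n) :
    LL (dl p) (qq s) (-((2 * n + 1 : ℕ) : ℤ_[p]⟦X⟧) * (1 - X)) ((1 - X) ^ m * X ^ (2 * n - 2 * m)) =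
      ((1 - X) ^ m * X ^ (2 * n - 2 * m)) *
        ((2 - X) * (-(8 * C s * (2 * (m : ℤ_[p]⟦X⟧) + 1) ^ 3 * (1 - X)) -
          (m : ℤ_[p]⟦X⟧) ^ 3 * X ^ 2)) := by
  have h1 : LD (dl p) ((1 - X : ℤ_[p]⟦X⟧) ^ m * X ^ (2 * n - 2 * m))
      ((m : ℤ_[p]⟦X⟧) * (-X) + ((2 * n - 2 * m : ℕ) : ℤ_[p]⟦X⟧) * (1 - X)) :=
    ((LD1X (p := p)).pow _ m).mul _ ((LDX (p := p)).pow _ _)
  rw [LL_of_LD _ _ _ h1]
  have hS' := hS hs
  have hc : ((2 * n - 2 * m : ℕ) : ℤ_[p]⟦X⟧) = 2 * (n : ℤ_[p]⟦X⟧) - 2 * (m : ℤ_[p]⟦X⟧) := by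
    rw [Nat.cast_sub (by omega)]; push_cast; ring
  congr 1
  have hmu : (m : ℤ_[p]⟦X⟧) * (-X) + ((2 * n - 2 * m : ℕ) : ℤ_[p]⟦X⟧) * (1 - X) +
      (-((2 * n + 1 : ℕ) : ℤ_[p]⟦X⟧) * (1 - X)) =
      ((m : ℤ_[p]⟦X⟧) + 1) * X - (2 * (m : ℤ_[p]⟦X⟧) + 1) := by
    rw [hc]; push_cast; ring
  rw [hmu]
  simp only [add_zero, map_add, map_sub, map_neg, der_mul, dl_natCast, dl_one, dl_X, dl_qq, map_zero,
    dl_two]
  unfold qq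
  push_cast
  generalize (C s : ℤ_[p]⟦X⟧) = S at hS' ⊢
  generalize (m : ℤ_[p]⟦X⟧) = M
  linear_combination -(((M + 1) * X - (2 * M + 1)) ^ 3 +
    3 * ((M + 1) * X - (2 * M + 1)) * (M + 1) * X * (1 - X) + (M + 1) * X * (1 - X) * (1 - 2 * X) +
    (2 - X) * M ^ 3 * X ^ 2) * hS'

/-- The operator on the monomials of `c`. -/
theorem LL_mon_c {n m : ℕ} (hm : m ≤ n) :
    LL (dl p) (qq s) (((2 * n + 1 : ℕ) : ℤ_[p]⟦X⟧) * X) (X ^ m * (1 - X) ^ (2 * n - 2 * m)) =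
      (X ^ m * (1 - X) ^ (2 * n - 2 * m)) *
        ((1 + X) * (8 * C s * (2 * (m : ℤ_[p]⟦X⟧) + 1) ^ 3 * X +
          (m : ℤ_[p]⟦X⟧) ^ 3 * (1 - X) ^ 2)) := by
  have h1 : LD (dl p) ((X : ℤ_[p]⟦X⟧) ^ m * (1 - X) ^ (2 * n - 2 * m))
      ((m : ℤ_[p]⟦X⟧) * (1 - X) + ((2 * n - 2 * m : ℕ) : ℤ_[p]⟦X⟧) * (-X)) :=
    ((LDX (p := p)).pow _ m).mul _ ((LD1X (p := p)).pow _ _)
  rw [LL_of_LD _ _ _ h1]
  have hS' := hS hs
  have hc : ((2 * n - 2 * m : ℕ) : ℤ_[p]⟦X⟧) = 2 * (n : ℤ_[p]⟦X⟧) - 2 * (m : ℤ_[p]⟦X⟧) := by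
    rw [Nat.cast_sub (by omega)]; push_cast; ring
  congr 1
  have hmu : (m : ℤ_[p]⟦X⟧) * (1 - X) + ((2 * n - 2 * m : ℕ) : ℤ_[p]⟦X⟧) * (-X) +
      (((2 * n + 1 : ℕ) : ℤ_[p]⟦X⟧) * X) = ((m : ℤ_[p]⟦X⟧) + 1) * X + (m : ℤ_[p]⟦X⟧) := by
    rw [hc]; push_cast; ring
  rw [hmu]
  simp only [add_zero, map_add, map_sub, map_neg, der_mul, dl_natCast, dl_one, dl_X, dl_qq, map_zero,
    dl_two]
  unfold qq
  push_cast
  generalize (C s : ℤ_[p]⟦X⟧) = S at hS' ⊢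
  generalize (m : ℤ_[p]⟦X⟧) = M
  linear_combination -(((M + 1) * X + M) ^ 3 +
    3 * ((M + 1) * X + M) * (M + 1) * X * (1 - X) + (M + 1) * X * (1 - X) * (1 - 2 * X) -
    (1 + X) * M ^ 3 * (1 - X) ^ 2) * hS'

/-- The operator on the monomials of `d`. -/
theorem LL_mon_d {n m : ℕ} (hm : m ≤ n) :
    LL (dl p) (qq s) (-(8 * C s * ((2 * n + 1 : ℕ) : ℤ_[p]⟦X⟧)) * (1 - 2 * X)) ((X * (1 - X)) ^ (n - m)) =
      ((X * (1 - X)) ^ (n - m)) *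
        ((1 - 2 * X) * (-(2 * C s * (2 * (m : ℤ_[p]⟦X⟧) + 1) ^ 3) +
          4 * (m : ℤ_[p]⟦X⟧) ^ 3 * (X * (1 - X)))) := by
  have h1 : LD (dl p) ((X * (1 - X) : ℤ_[p]⟦X⟧) ^ (n - m))
      (((n - m : ℕ) : ℤ_[p]⟦X⟧) * ((1 - X) + (-X))) :=
    ((LDX (p := p)).mul _ LD1X).pow _ _
  rw [LL_of_LD _ _ _ h1]
  have hS' := hS hs
  have hc : ((n - m : ℕ) : ℤ_[p]⟦X⟧) = (n : ℤ_[p]⟦X⟧) - (m : ℤ_[p]⟦X⟧) := by
    rw [Nat.cast_sub (by omega)]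
  congr 1
  have hmu : ((n - m : ℕ) : ℤ_[p]⟦X⟧) * ((1 - X) + (-X)) +
      (-(8 * C s * ((2 * n + 1 : ℕ) : ℤ_[p]⟦X⟧)) * (1 - 2 * X)) =
      -(8 * C s) * (2 * (m : ℤ_[p]⟦X⟧) + 1) * (1 - 2 * X) := by
    rw [hc]; push_cast
    linear_combination ((m : ℤ_[p]⟦X⟧) - (n : ℤ_[p]⟦X⟧)) * (1 - 2 * (X : ℤ_[p]⟦X⟧)) * hS'
  rw [hmu]
  simp only [add_zero, map_add, map_sub, map_neg, der_mul, dl_natCast, dl_one, dl_X, dl_qq, map_zero,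
    dl_two, dl_eight, dl_C]
  unfold qq
  push_cast
  generalize (C s : ℤ_[p]⟦X⟧) = S at hS' ⊢
  generalize (m : ℤ_[p]⟦X⟧) = M
  linear_combination (1 - 2 * X) * (4 * M ^ 3 * (X * (1 - X)) -
    2 * S * (16 * S + 1) * (2 * M + 1) ^ 3 * (1 - 4 * (X * (1 - X))) -
    24 * S * (2 * M + 1) ^ 2 * (X * (1 - X)) + 8 * S * (2 * M + 1) * (X * (1 - X))) * hS'

end

end Pool.Agent.H78.FS
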