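import Pool.Agent.H78.FS.Ode

/-!
The solutions `b`, `c`, `d` and `G` of the third order equation modulo `p ^ 3`.
-/

set_option autoImplicit false
set_option linter.unusedSectionVars false
set_option linter.unusedSimpArgs false
set_option linter.unusedVariables false
set_option linter.unusedTactic false

namespace Pool.Agent.H78.FS

open PowerSeries

variable {p : ℕ} [hp : Fact p.Prime]

section

variable {s : ℤ_[p]} (hs : 16 * s = 1)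

include hs

omit hs in
theorem cb_rec (s : ℤ_[p]) (m : ℕ) :
    ((m : ℤ_[p]⟦X⟧) + 1) ^ 3 * C ((u2 (m + 1) : ℤ_[p]) * (-s) ^ (m + 1)) =
      -(8 * (2 * (m : ℤ_[p]⟦X⟧) + 1) ^ 3 * C s) * C ((u2 m : ℤ_[p]) * (-s) ^ m) := by
  have := congrArg (fun x : ℤ => (C ((x : ℤ_[p]) * (-s) ^ (m + 1)) : ℤ_[p]⟦X⟧)) (u2_rec m)
  beta_reduce at this
  push_cast at this ⊢
  simp only [map_mul, map_pow, map_add, map_natCast, map_one, map_ofNat, pow_succ, map_neg] at this ⊢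
  linear_combination this

/-- The solution `b`. -/
theorem LL_b {n : ℕ} (m : ℕ) (hm : m ≤ n) :
    LL (dl p) (qq s) (-((2 * n + 1 : ℕ) : ℤ_[p]⟦X⟧) * (1 - X))
      (∑ k ∈ Finset.range m, C ((u2 k : ℤ_[p]) * (-s) ^ k) * ((1 - X) ^ k * X ^ (2 * n - 2 * k))) =
      (2 - X) * X ^ 2 * (m : ℤ_[p]⟦X⟧) ^ 3 * C ((u2 m : ℤ_[p]) * (-s) ^ m) *
        ((1 - X) ^ m * X ^ (2 * n - 2 * m)) := by
  induction m with
  | zero => simp [LL_zero]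
  | succ m ih =>
    rw [Finset.sum_range_succ, LL_add, ih (by omega), LL_C_mul, LL_mon_b hs (show m ≤ n by omega)]
    have hr := cb_rec s m
    have e : (X : ℤ_[p]⟦X⟧) ^ (2 * n - 2 * m) = X ^ (2 * n - 2 * (m + 1)) * X ^ 2 := by
      rw [← pow_add]; congr 1; omega
    rw [e, pow_succ (1 - X : ℤ_[p]⟦X⟧) m]
    push_cast
    generalize (C ((u2 m : ℤ_[p]) * (-s) ^ m) : ℤ_[p]⟦X⟧) = cm at hr ⊢
    generalize (C ((u2 (m + 1) : ℤ_[p]) * (-s) ^ (m + 1)) : ℤ_[p]⟦X⟧) = cm1 at hr ⊢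
    generalize ((1 - X : ℤ_[p]⟦X⟧) ^ m) = ym
    generalize (X : ℤ_[p]⟦X⟧) ^ (2 * n - 2 * (m + 1)) = xm
    linear_combination -(2 - X) * X ^ 2 * (ym * (1 - X) * xm) * hr

theorem LL_b' (n : ℕ) :
    ((2 * n + 1 : ℕ) : ℤ_[p]⟦X⟧) ^ 3 ∣ LL (dl p) (qq s) (-((2 * n + 1 : ℕ) : ℤ_[p]⟦X⟧) * (1 - X))
      (∑ k ∈ Finset.range (n + 1),
        C ((u2 k : ℤ_[p]) * (-s) ^ k) * ((1 - X) ^ k * X ^ (2 * n - 2 * k))) := by
  rw [Finset.sum_range_succ, LL_add, LL_b hs n le_rfl, LL_C_mul, LL_mon_b hs (le_refl n)]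
  refine ⟨-(8 * C s * (1 - X) * (2 - X)) * C ((u2 n : ℤ_[p]) * (-s) ^ n) *
    ((1 - X) ^ n * X ^ (2 * n - 2 * n)), ?_⟩
  push_cast
  ring

/-- The solution `c`. -/
theorem LL_c {n : ℕ} (m : ℕ) (hm : m ≤ n) :
    LL (dl p) (qq s) (((2 * n + 1 : ℕ) : ℤ_[p]⟦X⟧) * X)
      (∑ k ∈ Finset.range m, C ((u2 k : ℤ_[p]) * (-s) ^ k) * (X ^ k * (1 - X) ^ (2 * n - 2 * k))) =
      -(1 + X) * (1 - X) ^ 2 * (m : ℤ_[p]⟦X⟧) ^ 3 * C ((u2 m : ℤ_[p]) * (-s) ^ m) *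
        (X ^ m * (1 - X) ^ (2 * n - 2 * m)) := by
  induction m with
  | zero => simp [LL_zero]
  | succ m ih =>
    rw [Finset.sum_range_succ, LL_add, ih (by omega), LL_C_mul, LL_mon_c hs (show m ≤ n by omega)]
    have hr := cb_rec s m
    have e : (1 - X : ℤ_[p]⟦X⟧) ^ (2 * n - 2 * m) = (1 - X) ^ (2 * n - 2 * (m + 1)) * (1 - X) ^ 2 := by
      rw [← pow_add]; congr 1; omega
    rw [e, pow_succ (X : ℤ_[p]⟦X⟧) m]
    push_cast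
    generalize (C ((u2 m : ℤ_[p]) * (-s) ^ m) : ℤ_[p]⟦X⟧) = cm at hr ⊢
    generalize (C ((u2 (m + 1) : ℤ_[p]) * (-s) ^ (m + 1)) : ℤ_[p]⟦X⟧) = cm1 at hr ⊢
    generalize ((X : ℤ_[p]⟦X⟧) ^ m) = ym
    generalize (1 - X : ℤ_[p]⟦X⟧) ^ (2 * n - 2 * (m + 1)) = xm
    linear_combination (1 + X) * (1 - X) ^ 2 * (ym * X * xm) * hr

theorem LL_c' (n : ℕ) :
    ((2 * n + 1 : ℕ) : ℤ_[p]⟦X⟧) ^ 3 ∣ LL (dl p) (qq s) (((2 * n + 1 : ℕ) : ℤ_[p]⟦X⟧) * X)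
      (∑ k ∈ Finset.range (n + 1),
        C ((u2 k : ℤ_[p]) * (-s) ^ k) * (X ^ k * (1 - X) ^ (2 * n - 2 * k))) := by
  rw [Finset.sum_range_succ, LL_add, LL_c hs n le_rfl, LL_C_mul, LL_mon_c hs (le_refl n)]
  refine ⟨(8 * C s * X * (1 + X)) * C ((u2 n : ℤ_[p]) * (-s) ^ n) *
    (X ^ n * (1 - X) ^ (2 * n - 2 * n)), ?_⟩
  push_cast
  ring

/-- The solution `d`. -/
theorem LL_d {n : ℕ} (m : ℕ) (hm : m ≤ n) :
    LL (dl p) (qq s) (-(8 * C s * ((2 * n + 1 : ℕ) : ℤ_[p]⟦X⟧)) * (1 - 2 * X))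
      (∑ k ∈ Finset.range m, C ((u2 k : ℤ_[p]) * 256 ^ (n - k)) * (X * (1 - X)) ^ (n - k)) =
      -(4 * (1 - 2 * X)) * (m : ℤ_[p]⟦X⟧) ^ 3 * C ((u2 m : ℤ_[p]) * 256 ^ (n - m)) *
        (X * (1 - X)) * (X * (1 - X)) ^ (n - m) := by
  induction m with
  | zero => simp [LL_zero]
  | succ m ih =>
    rw [Finset.sum_range_succ, LL_add, ih (by omega), LL_C_mul, LL_mon_d hs (show m ≤ n by omega)]
    have hS' := hS hs
    have hr : ((m : ℤ_[p]⟦X⟧) + 1) ^ 3 * 256 * C ((u2 (m + 1) : ℤ_[p]) * 256 ^ (n - (m + 1))) =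
        8 * (2 * (m : ℤ_[p]⟦X⟧) + 1) ^ 3 * C ((u2 m : ℤ_[p]) * 256 ^ (n - m)) := by
      have := congrArg (fun x : ℤ => (C ((x : ℤ_[p]) * 256 ^ (n - m)) : ℤ_[p]⟦X⟧)) (u2_rec m)
      beta_reduce at this
      have e : n - m = n - (m + 1) + 1 := by omega
      rw [e] at this ⊢
      push_cast at this ⊢
      simp only [map_mul, map_pow, map_add, map_natCast, map_one, map_ofNat, pow_succ] at this ⊢
      linear_combination this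
    have e : (X * (1 - X) : ℤ_[p]⟦X⟧) ^ (n - m) = (X * (1 - X)) ^ (n - (m + 1)) * (X * (1 - X)) := by
      rw [← pow_succ]; congr 1; omega
    rw [e]
    push_cast
    generalize (C ((u2 m : ℤ_[p]) * 256 ^ (n - m)) : ℤ_[p]⟦X⟧) = cm at hr ⊢
    generalize (C ((u2 (m + 1) : ℤ_[p]) * 256 ^ (n - (m + 1))) : ℤ_[p]⟦X⟧) = cm1 at hr ⊢
    generalize ((X * (1 - X) : ℤ_[p]⟦X⟧) ^ (n - (m + 1))) = ym
    generalize (C s : ℤ_[p]⟦X⟧) = S at hS' ⊢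
    generalize (m : ℤ_[p]⟦X⟧) = M at hr ⊢
    -- 256 * S ^ 2 = 1
    linear_combination (4 * (1 - 2 * X)) * (X * (1 - X)) * ym * S ^ 2 * hr -
      (4 * (1 - 2 * X)) * (X * (1 - X)) * ym * cm1 * (M + 1) ^ 3 * (16 * S + 1) * hS' +
      (1 - 2 * X) * (X * (1 - X)) * ym * cm * 2 * S * (2 * M + 1) ^ 3 * hS'

theorem LL_d' (n : ℕ) :
    ((2 * n + 1 : ℕ) : ℤ_[p]⟦X⟧) ^ 3 ∣ LL (dl p) (qq s)
      (-(8 * C s * ((2 * n + 1 : ℕ) : ℤ_[p]⟦X⟧)) * (1 - 2 * X))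
      (∑ k ∈ Finset.range (n + 1), C ((u2 k : ℤ_[p]) * 256 ^ (n - k)) * (X * (1 - X)) ^ (n - k)) := by
  rw [Finset.sum_range_succ, LL_add, LL_d hs n le_rfl, LL_C_mul, LL_mon_d hs (le_refl n)]
  refine ⟨-(2 * C s * (1 - 2 * X)) * C ((u2 n : ℤ_[p]) * 256 ^ (n - n)) *
    (X * (1 - X)) ^ (n - n), ?_⟩
  push_cast
  ring

theorem LL_a' (n : ℕ) :
    ((2 * n + 1 : ℕ) : ℤ_[p]⟦X⟧) ^ 3 ∣ LL (dl p) (qq s) 0
      (∑ k ∈ Finset.range (n + 1), C ((u2 k : ℤ_[p]) * s ^ k) * (X * (1 - X)) ^ k) := by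
  rw [LL_a hs (n + 1)]
  have hr : ((n : ℤ_[p]⟦X⟧) + 1) ^ 3 * C ((u2 (n + 1) : ℤ_[p]) * s ^ (n + 1)) =
        8 * (2 * n + 1) ^ 3 * C s * C ((u2 n : ℤ_[p]) * s ^ n) := by
    have := congrArg (fun x : ℤ => (C ((x : ℤ_[p]) * s ^ (n + 1)) : ℤ_[p]⟦X⟧)) (u2_rec n)
    beta_reduce at this
    push_cast at this ⊢
    simp only [map_mul, map_pow, map_add, map_natCast, map_one, map_ofNat, pow_succ] at this ⊢
    linear_combination this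
  refine ⟨-(1 - 2 * X) * 8 * C s * C ((u2 n : ℤ_[p]) * s ^ n) * (X * (1 - X)) ^ (n + 1), ?_⟩
  push_cast at hr ⊢
  linear_combination -(1 - 2 * X) * (X * (1 - X)) ^ (n + 1) * hr

/-! ### The solution `G` -/

/-- `C(2k,k) C(3k,k) C(6k,3k)` -/
def C6 (k : ℕ) : ℕ := (2 * k).choose k * (3 * k).choose k * (6 * k).choose (3 * k)

omit hs in
theorem C6_fact (k : ℕ) : C6 k * (k.factorial ^ 3 * (3 * k).factorial) = (6 * k).factorial := by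
  have h1 := Nat.choose_mul_factorial_mul_factorial (show k ≤ 2 * k by omega)
  have h2 := Nat.choose_mul_factorial_mul_factorial (show k ≤ 3 * k by omega)
  have h3 := Nat.choose_mul_factorial_mul_factorial (show 3 * k ≤ 6 * k by omega)
  rw [show 2 * k - k = k by omega] at h1
  rw [show 3 * k - k = 2 * k by omega] at h2
  rw [show 6 * k - 3 * k = 3 * k by omega] at h3
  unfold C6
  have hp2 : 0 < (2 * k).factorial := Nat.factorial_pos _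
  have hp3 : 0 < (3 * k).factorial := Nat.factorial_pos _
  apply Nat.eq_of_mul_eq_mul_right (Nat.mul_pos hp2 hp3)
  calc (2 * k).choose k * (3 * k).choose k * (6 * k).choose (3 * k) *
        (k.factorial ^ 3 * (3 * k).factorial) * ((2 * k).factorial * (3 * k).factorial)
      = ((2 * k).choose k * k.factorial * k.factorial) *
        ((3 * k).choose k * k.factorial * (2 * k).factorial) *
        ((6 * k).choose (3 * k) * (3 * k).factorial * (3 * k).factorial) := by ring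
    _ = (6 * k).factorial * ((2 * k).factorial * (3 * k).factorial) := by
        rw [h1, h2, h3]; ring

omit hs in
theorem C6_rec (k : ℕ) : (k + 1) ^ 3 * C6 (k + 1) =
    24 * (2 * k + 1) * (6 * k + 1) * (6 * k + 5) * C6 k := by
  have h1 := C6_fact k
  have h2 := C6_fact (k + 1)
  rw [show 6 * (k + 1) = 6 * k + 1 + 1 + 1 + 1 + 1 + 1 by ring,
    show 3 * (k + 1) = 3 * k + 1 + 1 + 1 by ring] at h2
  simp only [Nat.factorial_succ] at h2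
  rw [← h1] at h2
  have hp1 : 0 < k.factorial ^ 3 := pow_pos (Nat.factorial_pos _) 3
  have hp3 : 0 < (3 * k).factorial := Nat.factorial_pos _
  have hq : 0 < (3 * k + 1) * (3 * k + 2) * (3 * k + 3) := by positivity
  apply Nat.eq_of_mul_eq_mul_right (Nat.mul_pos (Nat.mul_pos hp1 hp3) hq)
  calc (k + 1) ^ 3 * C6 (k + 1) * (k.factorial ^ 3 * (3 * k).factorial *
        ((3 * k + 1) * (3 * k + 2) * (3 * k + 3)))
      = C6 (k + 1) * (((k + 1) * k.factorial) ^ 3 *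
          ((3 * k + 1 + 1 + 1) * ((3 * k + 1 + 1) * ((3 * k + 1) * (3 * k).factorial)))) := by ring
    _ = _ := by rw [h2]; ring

omit hs in
theorem cG_rec (s : ℤ_[p]) (m : ℕ) :
    ((m : ℤ_[p]⟦X⟧) + 1) ^ 3 * C ((C6 (m + 1) : ℤ_[p]) * (s ^ 2) ^ (m + 1)) =
      24 * (2 * (m : ℤ_[p]⟦X⟧) + 1) * (6 * (m : ℤ_[p]⟦X⟧) + 1) * (6 * (m : ℤ_[p]⟦X⟧) + 5) * C s ^ 2 *
        C ((C6 m : ℤ_[p]) * (s ^ 2) ^ m) := by
  have := congrArg (fun x : ℕ => (C ((x : ℤ_[p]) * (s ^ 2) ^ (m + 1)) : ℤ_[p]⟦X⟧)) (C6_rec m)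
  beta_reduce at this
  push_cast at this ⊢
  simp only [map_mul, map_pow, map_add, map_natCast, map_one, map_ofNat] at this ⊢
  rw [pow_succ (C s ^ 2 : ℤ_[p]⟦X⟧) m] at this ⊢
  linear_combination this

omit hs in
theorem dl_w {w : ℤ_[p]⟦X⟧} (hw : X * (1 - X) * w = w - X * (1 - X)) :
    LD (dl p) w ((1 - 2 * X) * (1 + w)) := by
  have h := congrArg (dl p) hw
  simp only [map_sub, der_mul, dl_X, dl_one] at h
  unfold LD
  have e : (1 - X * (1 - X)) * (1 + w) = 1 := by linear_combination -hw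
  linear_combination -(1 + w) * h - (dl p w) * e + (1 - 2 * X) * (1 + w) * hw

/-- The operator on the monomials of `G`. -/
theorem LL_mon_G {w : ℤ_[p]⟦X⟧} (hw : X * (1 - X) * w = w - X * (1 - X)) (n m : ℕ) :
    LL (dl p) (qq s) (5 * ((2 * n + 1 : ℕ) : ℤ_[p]⟦X⟧) * (8 * C s) * (w * (1 - 2 * X)))
        ((1 - X * (1 - X)) ^ (5 * n + 2) * (w ^ 2 * (1 + w)) ^ m) =
      ((1 - X * (1 - X)) ^ (5 * n + 2) * (w ^ 2 * (1 + w)) ^ m) *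
        (4 * (1 - 2 * X) * (2 + X * (1 - X)) * ((m : ℤ_[p]⟦X⟧) ^ 3 -
          24 * (2 * (m : ℤ_[p]⟦X⟧) + 1) * (6 * (m : ℤ_[p]⟦X⟧) + 1) * (6 * (m : ℤ_[p]⟦X⟧) + 5) *
            C s ^ 2 * (w ^ 2 * (1 + w)))) := by
  have hS' := hS hs
  have h0 := dl_w hw
  have h01 : LD (dl p) (1 + w) (w * (1 - 2 * X)) := by
    unfold LD at *
    rw [map_add, dl_one, h0]; ring
  have h02 : LD (dl p) (1 - X * (1 - X) : ℤ_[p]⟦X⟧) (-(w * (1 - 2 * X))) := by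
    unfold LD
    rw [map_sub, dl_one, der_mul, map_sub, dl_one, dl_X]
    linear_combination (-(1 - 2 * X)) * hw
  have h1 := (h02.pow _ (5 * n + 2)).mul _ (((h0.pow _ 2).mul _ h01).pow _ m)
  rw [LL_of_LD _ _ _ h1]
  congr 1
  have hmu : (((5 * n + 2 : ℕ) : ℤ_[p]⟦X⟧) * -(w * (1 - 2 * X)) +
      (m : ℤ_[p]⟦X⟧) * (((2 : ℕ) : ℤ_[p]⟦X⟧) * ((1 - 2 * X) * (1 + w)) + w * (1 - 2 * X)) +
      5 * ((2 * n + 1 : ℕ) : ℤ_[p]⟦X⟧) * (8 * C s) * (w * (1 - 2 * X))) =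
      (1 - 2 * X) * (2 * (m : ℤ_[p]⟦X⟧) + (3 * (m : ℤ_[p]⟦X⟧) + 8 * C s) * w) := by
    push_cast
    linear_combination (5 * (n : ℤ_[p]⟦X⟧) + 2) * (1 - 2 * X) * w * hS'
  rw [hmu]
  unfold LD at h0
  simp only [add_zero, map_add, map_sub, map_neg, der_mul, dl_natCast, dl_one, dl_X, dl_qq, map_zero,
    dl_two, dl_three, dl_eight, dl_C, h0]
  unfold qq
  generalize (C s : ℤ_[p]⟦X⟧) = S at hS' ⊢
  generalize (m : ℤ_[p]⟦X⟧) = M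
  linear_combination (1 - 2 * X) * ((-2048)*w^2*S^3 + 6912*w^2*S^2*M^3 + 10368*w^2*S^2*M^2 +
      2112*w^2*S^2*M + (-288)*w^2*S^2 + (-864)*w^2*S*M^2 + (-576)*w^2*S*M + (-64)*w^2*S +
      (-108)*w^2*M^3 + (-108)*w^2*M^2 + (-24)*w^2*M + 2048*w*S^3 + 768*w*S^2*M + (-384)*w*S^2 +
      (-288)*w*S*M^2 + (-480)*w*S*M + (-80)*w*S + (-108)*w*M^3 + (-126)*w*M^2 + (-30)*w*M +
      (-2048)*S^3 + (-768)*S^2*M + 256*S^2 + (-96)*S*M^2 + 48*S*M + (-16)*S + (-36)*M^3 +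
      (-18)*M^2 + (-6)*M) * hw +
    (1 - 2 * X) * (128*(X*(1-X))*S^2 + 48*(X*(1-X))*S*M + (-8)*(X*(1-X))*S + 6*(X*(1-X))*M^2 +
      (-2)*(X*(1-X))*M + (-96)*w^3*S^2 + 1296*w^3*S*M^3 + 1944*w^3*S*M^2 + 720*w^3*S*M + 48*w^3*S +
      81*w^3*M^3 + 81*w^3*M^2 + 18*w^3*M + 128*w^2*S^2 + 864*w^2*S*M^3 + 1296*w^2*S*M^2 +
      624*w^2*S*M + 56*w^2*S + 54*w^2*M^3 + 81*w^2*M^2 + 21*w^2*M + (-128)*w*S^2 + (-48)*w*S*M +
      8*w*S + 3*w*M) * hS'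

/-- The solution `G`. -/
theorem LL_G {w : ℤ_[p]⟦X⟧} (hw : X * (1 - X) * w = w - X * (1 - X)) (n m : ℕ) :
    LL (dl p) (qq s) (5 * ((2 * n + 1 : ℕ) : ℤ_[p]⟦X⟧) * (8 * C s) * (w * (1 - 2 * X)))
      (∑ k ∈ Finset.range m, C ((C6 k : ℤ_[p]) * (s ^ 2) ^ k) *
        ((1 - X * (1 - X)) ^ (5 * n + 2) * (w ^ 2 * (1 + w)) ^ k)) =
      -(4 * (1 - 2 * X) * (2 + X * (1 - X))) * (m : ℤ_[p]⟦X⟧) ^ 3 *
        C ((C6 m : ℤ_[p]) * (s ^ 2) ^ m) *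
        ((1 - X * (1 - X)) ^ (5 * n + 2) * (w ^ 2 * (1 + w)) ^ m) := by
  induction m with
  | zero => simp [LL_zero]
  | succ m ih =>
    rw [Finset.sum_range_succ, LL_add, ih, LL_C_mul, LL_mon_G hs hw]
    have hr := cG_rec s m
    rw [pow_succ (w ^ 2 * (1 + w)) m]
    push_cast
    generalize (C ((C6 m : ℤ_[p]) * (s ^ 2) ^ m) : ℤ_[p]⟦X⟧) = cm at hr ⊢
    generalize (C ((C6 (m + 1) : ℤ_[p]) * (s ^ 2) ^ (m + 1)) : ℤ_[p]⟦X⟧) = cm1 at hr ⊢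
    generalize (1 - X * (1 - X) : ℤ_[p]⟦X⟧) ^ (5 * n + 2) = ym
    generalize (w ^ 2 * (1 + w)) ^ m = wm
    linear_combination (4 * (1 - 2 * X) * (2 + X * (1 - X))) * (ym * (wm * (w ^ 2 * (1 + w)))) * hr

end

end Pool.Agent.H78.FS
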