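import Pool.Agent.H78.FS.Ode2

/-!
Polynomials: the consequences modulo `p` of the main lemma.
-/

set_option autoImplicit false
set_option linter.unusedSectionVars false
set_option linter.unusedSimpArgs false
set_option linter.unusedVariables false
set_option linter.unusedTactic false

namespace Pool.Agent.H78.FS

open Polynomial

section field

variable {K : Type*} [Field K]

/-- A polynomial with vanishing logarithmic derivative with respect to `A` vanishes if it vanishes at `0`. -/
theorem uniq0 (p : ℕ) [CharP K p] {A H : K[X]} {m : ℕ} (hA : A.coeff 0 ≠ 0)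
    (h : A * derivative H = (m : K[X]) * derivative A * H) (h0 : H.coeff 0 = 0) (hd : H.natDegree < p) :
    H = 0 := by
  have key : ∀ i, H.coeff i = 0 := by
    intro i
    induction i using Nat.strong_induction_on with
    | _ i ih =>
      rcases i with _ | i
      · exact h0
      · by_cases hi : H.natDegree < i + 1
        · exact coeff_eq_zero_of_natDegree_lt hi
        have hip : i + 1 < p := by omega
        have h1 := congrArg (fun f : K[X] => f.coeff i) h
        beta_reduce at h1
        rw [coeff_mul, coeff_mul] at h1
        have e1 : ∑ x ∈ Finset.HasAntidiagonal.antidiagonal i, A.coeff x.1 * (derivative H).coeff x.2 =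
            A.coeff 0 * (derivative H).coeff i := by
          apply Finset.sum_eq_single_of_mem (0, i)
          · simp
          · rintro ⟨j, k⟩ hjk hne
            rw [Finset.HasAntidiagonal.mem_antidiagonal] at hjk
            simp only at hjk ⊢
            have : k < i := by
              rcases Nat.eq_zero_or_pos j with hj | hj
              · exfalso; apply hne; subst hj; simp at hjk; simp [hjk]
              · omega
            rw [coeff_derivative, ih (k + 1) (by omega)]; ring
        have e2 : ∑ x ∈ Finset.HasAntidiagonal.antidiagonal i,
            ((m : K[X]) * derivative A).coeff x.1 * H.coeff x.2 = 0 := by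
          apply Finset.sum_eq_zero
          rintro ⟨j, k⟩ hjk
          rw [Finset.HasAntidiagonal.mem_antidiagonal] at hjk
          simp only at hjk ⊢
          rw [ih k (by omega), mul_zero]
        rw [e1, e2, coeff_derivative] at h1
        have hn : ((i : K) + 1) ≠ 0 := by
          have : (((i + 1 : ℕ)) : K) ≠ 0 := by
            rw [Ne, CharP.cast_eq_zero_iff K p]
            intro hdv
            exact absurd (Nat.le_of_dvd (by omega) hdv) (by omega)
          push_cast at this; exact this
        rcases mul_eq_zero.1 h1 with h2 | h2
        · exact absurd h2 hA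
        · rcases mul_eq_zero.1 h2 with h3 | h3
          · exact h3
          · exact absurd h3 hn
  ext i
  rw [key i, coeff_zero]

/-- Uniqueness of the solution. -/
theorem uniq (p : ℕ) [CharP K p] {A F : K[X]} (hA : A.coeff 0 = 1)
    (h : A * derivative F = derivative A * F) (hdA : A.natDegree < p) (hdF : F.natDegree < p) :
    F = C (F.coeff 0) * A := by
  have h1 : F - C (F.coeff 0) * A = 0 := by
    apply uniq0 p (m := 1) (A := A) (by rw [hA]; exact one_ne_zero)
    · rw [derivative_sub, derivative_C_mul, Nat.cast_one, one_mul]
      linear_combination h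
    · rw [coeff_sub, coeff_C_mul, hA]; ring
    · refine lt_of_le_of_lt (natDegree_sub_le _ _) ?_
      refine max_lt hdF ?_
      exact lt_of_le_of_lt (natDegree_C_mul_le _ _) hdA
  linear_combination h1

/-- Kill lemma. -/
theorem kill (p : ℕ) [CharP K p] {T : K[X]} (hT : IsCoprime T (derivative T)) (hT0 : T ≠ 0) (m : ℕ)
    (hm : m < p) (F : K[X]) (h : T * derivative F = (m : K[X]) * derivative T * F) :
    ∃ κ : K[X], F = T ^ m * κ ∧ derivative κ = 0 := by
  induction m generalizing F with
  | zero =>
    refine ⟨F, by simp, ?_⟩
    rw [Nat.cast_zero, zero_mul, zero_mul] at h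
    rcases mul_eq_zero.1 h with h | h
    · exact absurd h hT0
    · exact h
  | succ m ih =>
    have h1 : T ∣ derivative T * (((m + 1 : ℕ) : K[X]) * F) := ⟨derivative F, by
      linear_combination -h⟩
    have h2 : T ∣ ((m + 1 : ℕ) : K[X]) * F := hT.dvd_of_dvd_mul_left h1
    have hn : ((m + 1 : ℕ) : K) ≠ 0 := by
      rw [Ne, CharP.cast_eq_zero_iff K p]
      intro hdv
      exact absurd (Nat.le_of_dvd (by omega) hdv) (by omega)
    have h3 : T ∣ F := by
      have e : ((m + 1 : ℕ) : K[X]) = C ((m + 1 : ℕ) : K) := by simp
      rw [e] at h2
      have hu : IsUnit (C ((m + 1 : ℕ) : K)) := isUnit_C.2 (isUnit_iff_ne_zero.2 hn)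
      exact (hu.dvd_mul_left).1 h2
    obtain ⟨G, rfl⟩ := h3
    have h4 : T * derivative G = (m : K[X]) * derivative T * G := by
      rw [derivative_mul] at h
      apply mul_left_cancel₀ hT0
      push_cast at h
      linear_combination h
    obtain ⟨κ, hκ, hd⟩ := ih (by omega) G h4
    exact ⟨κ, by rw [hκ]; ring, hd⟩

/-- Separability of the solution of the second order equation. -/
theorem sep (p : ℕ) [CharP K p] {T : K[X]} {c : K} (hd : T.natDegree < p) (h0 : T.eval 0 ≠ 0)
    (h1 : T.eval 1 ≠ 0)
    (ode : X * (1 - X) * derivative (derivative T) + (1 - 2 * X) * derivative T = C c * T) :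
    IsCoprime T (derivative T) := by
  classical
  have hT0 : T ≠ 0 := by rintro rfl; simp at h0
  set g := EuclideanDomain.gcd T (derivative T) with hg
  have hgT : g ∣ T := EuclideanDomain.gcd_dvd_left _ _
  have hgT' : g ∣ derivative T := EuclideanDomain.gcd_dvd_right _ _
  obtain ⟨u, hu⟩ := hgT
  obtain ⟨v, hv⟩ := hgT'
  have hg0 : g ≠ 0 := by
    intro h; rw [h, zero_mul] at hu; exact hT0 hu
  have hbez : g = T * EuclideanDomain.gcdA T (derivative T) +
      derivative T * EuclideanDomain.gcdB T (derivative T) := EuclideanDomain.gcd_eq_gcd_ab _ _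
  set α := EuclideanDomain.gcdA T (derivative T)
  set β := EuclideanDomain.gcdB T (derivative T)
  have hone : u * α + v * β = 1 := by
    apply mul_left_cancel₀ hg0
    have : g = g * u * α + g * v * β := by rw [← hu, ← hv]; exact hbez
    linear_combination -this
  have hT' : derivative T = derivative g * u + g * derivative u := by
    conv_lhs => rw [hu]
    rw [derivative_mul]
  have hT'' : derivative (derivative T) = derivative g * v + g * derivative v := by
    conv_lhs => rw [hv]
    rw [derivative_mul]
  have d1 : g ∣ derivative g * u := ⟨v - derivative u, by linear_combination hv - hT'⟩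
  have d2 : g ∣ X * (1 - X) * derivative g * v := by
    refine ⟨C c * u - X * (1 - X) * derivative v - (1 - 2 * X) * v, ?_⟩
    linear_combination ode - X * (1 - X) * hT'' - (1 - 2 * X) * hv + C c * hu
  have d3 : g ∣ X * (1 - X) * derivative g := by
    have : X * (1 - X) * derivative g = (derivative g * u) * (X * (1 - X) * α) +
        (X * (1 - X) * derivative g * v) * β := by
      linear_combination -(X * (1 - X) * derivative g) * hone
    rw [this]
    exact dvd_add (Dvd.dvd.mul_right d1 _) (Dvd.dvd.mul_right d2 _)
  have c1 : IsCoprime g X := by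
    have : IsCoprime T X := by
      have hx : X = X - C (0 : K) := by simp
      rw [hx]
      refine (isCoprime_comm.1 ((irreducible_X_sub_C (0 : K)).coprime_iff_not_dvd.2 ?_))
      rw [dvd_iff_isRoot]; exact h0
    exact this.of_isCoprime_of_dvd_left ⟨u, hu⟩
  have c2 : IsCoprime g (1 - X) := by
    have : IsCoprime T (X - C (1 : K)) := by
      refine (isCoprime_comm.1 ((irreducible_X_sub_C (1 : K)).coprime_iff_not_dvd.2 ?_))
      rw [dvd_iff_isRoot]; exact h1
    have h2 : IsCoprime T (1 - X) := by
      have e : (1 - X : K[X]) = -(X - C 1) := by simp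
      rw [e]; exact this.neg_right
    exact h2.of_isCoprime_of_dvd_left ⟨u, hu⟩
  have d4 : g ∣ derivative g := (c1.mul_right c2).dvd_of_dvd_mul_left d3
  have hdg : derivative g = 0 := by
    by_contra hne
    have hle := natDegree_le_of_dvd d4 hne
    have hpos : 0 < g.natDegree := by
      by_contra h
      have : g.natDegree = 0 := by omega
      rw [natDegree_eq_zero] at this
      obtain ⟨x, hx⟩ := this
      rw [← hx, derivative_C] at hne
      exact hne rfl
    have := natDegree_derivative_lt (p := g) (by omega)
    omega
  have hgd : g.natDegree < p := lt_of_le_of_lt (natDegree_le_of_dvd ⟨u, hu⟩ hT0) hd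
  have hgc : IsUnit g := by
    have h2 : g - C (g.coeff 0) = 0 := by
      apply uniq0 p (m := 0) (A := (1 : K[X]))
      · simp
      · rw [derivative_sub, hdg, derivative_C]; simp
      · simp
      · refine lt_of_le_of_lt (natDegree_sub_le _ _) ?_
        simp; exact hgd
    have h3 : g = C (g.coeff 0) := by linear_combination h2
    rw [h3, isUnit_C, isUnit_iff_ne_zero]
    intro h4
    rw [h4, C_0] at h3
    exact hg0 h3
  exact (EuclideanDomain.gcd_isUnit_iff).1 hgc

end field

end Pool.Agent.H78.FS
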