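import Pool.Agent.H78.FS.Id1

/-!
Symmetries of the polynomials.
-/

set_option autoImplicit false
set_option linter.unusedSectionVars false
set_option linter.unusedSimpArgs false
set_option linter.unusedVariables false
set_option linter.unusedTactic false

namespace Pool.Agent.H78.FS

open Polynomial

section refl

variable {A : Type*} [CommRing A]

/-- `f` has degree at most `N` and `t^N f(1/t) = g` -/
def Rf (N : ℕ) (f g : A[X]) : Prop := f.natDegree ≤ N ∧ f.reflect N = g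

theorem Rf.mul {M N : ℕ} {f f' g g' : A[X]} (h : Rf M f f') (h' : Rf N g g') :
    Rf (M + N) (f * g) (f' * g') := by
  obtain ⟨h1, h2⟩ := h
  obtain ⟨h3, h4⟩ := h'
  refine ⟨natDegree_mul_le.trans (Nat.add_le_add h1 h3), ?_⟩
  rw [reflect_mul _ _ h1 h3, h2, h4]

theorem Rf.add {N : ℕ} {f f' g g' : A[X]} (h : Rf N f f') (h' : Rf N g g') :
    Rf N (f + g) (f' + g') := by
  obtain ⟨h1, h2⟩ := h
  obtain ⟨h3, h4⟩ := h'
  exact ⟨nd_add h1 h3, by rw [reflect_add, h2, h4]⟩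

theorem Rf.neg {N : ℕ} {f f' : A[X]} (h : Rf N f f') : Rf N (-f) (-f') := by
  obtain ⟨h1, h2⟩ := h
  exact ⟨by rw [natDegree_neg]; exact h1, by rw [reflect_neg, h2]⟩

theorem Rf.sub {N : ℕ} {f f' g g' : A[X]} (h : Rf N f f') (h' : Rf N g g') :
    Rf N (f - g) (f' - g') := by
  rw [sub_eq_add_neg, sub_eq_add_neg]; exact h.add h'.neg

theorem Rf.zero (N : ℕ) : Rf N (0 : A[X]) 0 := ⟨by simp, by simp⟩

theorem Rf.sum {N : ℕ} {ι : Type*} (t : Finset ι) (f g : ι → A[X]) (h : ∀ i ∈ t, Rf N (f i) (g i)) :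
    Rf N (∑ i ∈ t, f i) (∑ i ∈ t, g i) := by
  classical
  induction t using Finset.induction_on with
  | empty => simpa using Rf.zero N
  | insert a t hat ih =>
    rw [Finset.sum_insert hat, Finset.sum_insert hat]
    exact (h a (Finset.mem_insert_self _ _)).add (ih fun i hi => h i (Finset.mem_insert_of_mem hi))

theorem Rf.C_mul {N : ℕ} {f f' : A[X]} (c : A) (h : Rf N f f') : Rf N (C c * f) (C c * f') := by
  obtain ⟨h1, h2⟩ := h
  exact ⟨nd_Cmul c h1, by rw [reflect_C_mul, h2]⟩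

theorem Rf.one (N : ℕ) : Rf N (1 : A[X]) (X ^ N) := by
  refine ⟨by simp, ?_⟩
  have := reflect_C (1 : A) N
  rw [C_1, one_mul] at this
  exact this

theorem Rf.pow {N : ℕ} {f f' : A[X]} (h : Rf N f f') (k : ℕ) : Rf (k * N) (f ^ k) (f' ^ k) := by
  induction k with
  | zero => simpa using Rf.one 0
  | succ k ih =>
    rw [pow_succ, pow_succ, Nat.succ_mul]; exact ih.mul h

theorem Rf_X : Rf 1 (X : A[X]) 1 := by
  refine ⟨natDegree_X_le, ?_⟩
  have := reflect_monomial (R := A) 1 1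
  rw [show (X : A[X]) = C 1 * X ^ 1 by simp, reflect_C_mul_X_pow]
  simp

theorem Rf_1X : Rf 1 (1 - X : A[X]) (X - 1) := by
  have := (Rf.one (A := A) 1).sub Rf_X
  rwa [pow_one] at this

theorem Rf_z : Rf 2 (X * (1 - X) : A[X]) (X - 1) := by
  have := (Rf_X (A := A)).mul Rf_1X
  rwa [one_mul] at this

theorem Rf_J : Rf 2 (pJ A) (pJ A) := by
  have := (Rf.one (A := A) 2).sub Rf_z
  unfold pJ
  have e : (X ^ 2 - (X - 1) : A[X]) = 1 - X * (1 - X) := by ring
  rw [e] at this; exact this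

theorem Rf_a (s : A) (n : ℕ) : Rf (2 * n) (pa s n) (pb s n) := by
  unfold pa pb
  apply Rf.sum
  intro k hk
  rw [Finset.mem_range] at hk
  have h := ((Rf_z (A := A)).pow k).mul (Rf.one (A := A) (2 * n - 2 * k))
  rw [mul_one, show k * 2 + (2 * n - 2 * k) = 2 * n by omega] at h
  have h2 := h.C_mul ((u2 k : A) * s ^ k)
  have e : C ((u2 k : A) * s ^ k) * ((X - 1) ^ k * X ^ (2 * n - 2 * k)) =
      C ((u2 k : A) * (-s) ^ k) * ((1 - X) ^ k * X ^ (2 * n - 2 * k)) := by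
    have e1 : (X - 1 : A[X]) = -(1 - X) := by ring
    rw [e1, neg_pow (1 - X : A[X]), neg_pow s]
    simp only [C_mul, C_pow, C_neg, C_1]
    ring
  rw [e] at h2; exact h2

theorem Rf_b (s : A) (n : ℕ) : Rf (2 * n) (pb s n) (pa s n) := by
  unfold pa pb
  apply Rf.sum
  intro k hk
  rw [Finset.mem_range] at hk
  have h := (((Rf_1X (A := A)).pow k).mul ((Rf_X (A := A)).pow (2 * n - 2 * k))).mul (Rf.one (A := A) k)
  simp only [mul_one, one_pow, one_mul] at h
  rw [show k + (2 * n - 2 * k) + k = 2 * n by omega] at h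
  have h2 := h.C_mul ((u2 k : A) * (-s) ^ k)
  have e : C ((u2 k : A) * (-s) ^ k) * ((X - 1) ^ k * X ^ k) =
      C ((u2 k : A) * s ^ k) * (X * (1 - X)) ^ k := by
    have e1 : (X - 1 : A[X]) = -(1 - X) := by ring
    have e2 : ((-1 : A[X]) ^ k) * (-1) ^ k = 1 := by rw [← mul_pow]; simp
    rw [e1, neg_pow (1 - X : A[X]), neg_pow s, mul_pow]
    simp only [C_mul, C_pow, C_neg, C_1]
    linear_combination (C (u2 k : A) * C s ^ k * (1 - X) ^ k * X ^ k) * e2
  rw [e] at h2; exact h2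

theorem Rf_c (s : A) (n : ℕ) : Rf (2 * n) (pc s n) (pc s n) := by
  unfold pc
  apply Rf.sum
  intro k hk
  rw [Finset.mem_range] at hk
  have h := (((Rf_X (A := A)).pow k).mul ((Rf_1X (A := A)).pow (2 * n - 2 * k))).mul (Rf.one (A := A) k)
  simp only [mul_one, one_pow, one_mul] at h
  rw [show k + (2 * n - 2 * k) + k = 2 * n by omega] at h
  have h2 := h.C_mul ((u2 k : A) * (-s) ^ k)
  have e : C ((u2 k : A) * (-s) ^ k) * ((X - 1) ^ (2 * n - 2 * k) * X ^ k) =
      C ((u2 k : A) * (-s) ^ k) * (X ^ k * (1 - X) ^ (2 * n - 2 * k)) := by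
    have e1 : (X - 1 : A[X]) = -(1 - X) := by ring
    have e2 : Even (2 * n - 2 * k) := ⟨n - k, by omega⟩
    rw [e1, e2.neg_pow]; ring
  rw [e] at h2; exact h2

theorem Rf_G (s : A) (n K : ℕ) (hK : 3 * K ≤ 5 * n + 2) :
    Rf (10 * n + 4) (pG s n K) (pG s n K) := by
  unfold pG
  apply Rf.sum
  intro k hk
  rw [Finset.mem_range] at hk
  have h := (((Rf_z (A := A)).pow (2 * k)).mul (Rf.one (A := A) (2 * k))).mul
    ((Rf_J (A := A)).pow (5 * n + 2 - 3 * k))
  rw [mul_one, show 2 * k * 2 + 2 * k + (5 * n + 2 - 3 * k) * 2 = 10 * n + 4 by omega] at h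
  have h2 := h.C_mul ((C6 k : A) * (s ^ 2) ^ k)
  have e : C ((C6 k : A) * (s ^ 2) ^ k) * ((X - 1) ^ (2 * k) * X ^ (2 * k) *
      pJ A ^ (5 * n + 2 - 3 * k)) =
      C ((C6 k : A) * (s ^ 2) ^ k) * ((X * (1 - X)) ^ (2 * k) * pJ A ^ (5 * n + 2 - 3 * k)) := by
    have e1 : (X - 1 : A[X]) = -(1 - X) := by ring
    have e2 : Even (2 * k) := ⟨k, by omega⟩
    rw [e1, e2.neg_pow, mul_pow]; ring
  rw [e] at h2; exact h2

/-! ### The substitution `t ↦ 1 - t` -/

/-- the substitution `t ↦ 1 - t` -/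
noncomputable def sg (A : Type*) [CommRing A] : A[X] →+* A[X] := compRingHom (1 - X)

theorem sg_apply (f : A[X]) : sg A f = f.comp (1 - X) := rfl

theorem sg_C (c : A) : sg A (C c) = C c := by rw [sg_apply, C_comp]

theorem sg_X : sg A (X : A[X]) = 1 - X := by rw [sg_apply, X_comp]

theorem sg_1X : sg A (1 - X : A[X]) = X := by rw [map_sub, map_one, sg_X]; ring

theorem sg_z : sg A (X * (1 - X) : A[X]) = X * (1 - X) := by rw [map_mul, sg_X, sg_1X]; ring

theorem sg_J : sg A (pJ A) = pJ A := by unfold pJ; rw [map_sub, map_one, sg_z]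

theorem sg_a (s : A) (n : ℕ) : sg A (pa s n) = pa s n := by
  unfold pa
  rw [map_sum]
  apply Finset.sum_congr rfl
  intro k _
  rw [map_mul, sg_C, map_pow, sg_z]

theorem sg_b (s : A) (n : ℕ) : sg A (pb s n) = pc s n := by
  unfold pb pc
  rw [map_sum]
  apply Finset.sum_congr rfl
  intro k _
  rw [map_mul (sg A), sg_C]
  congr 1
  rw [map_mul (sg A), map_pow (sg A), map_pow (sg A), sg_1X, sg_X]

theorem sg_c (s : A) (n : ℕ) : sg A (pc s n) = pb s n := by
  unfold pb pc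
  rw [map_sum]
  apply Finset.sum_congr rfl
  intro k _
  rw [map_mul (sg A), sg_C]
  congr 1
  rw [map_mul (sg A), map_pow (sg A), map_pow (sg A), sg_1X, sg_X]

theorem sg_G (s : A) (n K : ℕ) : sg A (pG s n K) = pG s n K := by
  unfold pG
  rw [map_sum]
  apply Finset.sum_congr rfl
  intro k _
  rw [map_mul (sg A), sg_C]
  congr 1
  rw [map_mul (sg A), map_pow (sg A), map_pow (sg A), sg_z, sg_J]

theorem map_sg {B : Type*} [CommRing B] (f : A →+* B) (g : A[X]) :
    (sg A g).map f = sg B (g.map f) := by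
  rw [sg_apply, sg_apply, Polynomial.map_comp]
  simp

end refl

end Pool.Agent.H78.FS
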