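import Pool.Agent.H78.FS.ModP

/-!
The functions of the class, and their values modulo `p`.
-/

set_option autoImplicit false
set_option linter.unusedSectionVars false
set_option linter.unusedSimpArgs false
set_option linter.unusedVariables false
set_option linter.unusedTactic false

namespace Pool.Agent.H78.FS

open Polynomial

variable {p : ℕ} [hp : Fact p.Prime]

section

variable {s : ℤ_[p]} {n : ℕ} (hs : 16 * s = 1) (hn : p = 2 * n + 1) (h3 : 3 ≤ p)

theorem a_coeff0 (s : ℤ_[p]) (n : ℕ) : (pa s n).coeff 0 = 1 := by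
  rw [coeff_zero_eq_eval_zero, a_at0]

theorem exists_B (s : ℤ_[p]) (n : ℕ) :
    ∃ B : PowerSeries ℤ_[p], ((pa s n : ℤ_[p][X]) : PowerSeries ℤ_[p]) * B = 1 := by
  have : IsUnit ((pa s n : ℤ_[p][X]) : PowerSeries ℤ_[p]) := by
    rw [PowerSeries.isUnit_iff_constantCoeff, ← PowerSeries.coeff_zero_eq_constantCoeff_apply,
      Polynomial.coeff_coe, a_coeff0]
    exact isUnit_one
  exact this.exists_right_inv

include hs hn h3

theorem Cl_b {B : PowerSeries ℤ_[p]} (hB : ((pa s n : ℤ_[p][X]) : PowerSeries ℤ_[p]) * B = 1) :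
    Cl ((pa s n : ℤ_[p][X]) : PowerSeries ℤ_[p]) (-(p : PowerSeries ℤ_[p]) * (1 - PowerSeries.X))
      (B * ((pb s n : ℤ_[p][X]) : PowerSeries ℤ_[p])) := by
  have h0 := LL_a' hs n
  have h1 := LL_b' hs n
  rw [← coe_a, ← hn] at h0
  rw [← coe_b, ← hn] at h1
  exact Cl_sol (a_coeff0 s n) hB ⟨-(1 - PowerSeries.X), by ring⟩ (Dl_a hs hn h3) h0 h1

theorem Cl_c {B : PowerSeries ℤ_[p]} (hB : ((pa s n : ℤ_[p][X]) : PowerSeries ℤ_[p]) * B = 1) :
    Cl ((pa s n : ℤ_[p][X]) : PowerSeries ℤ_[p]) ((p : PowerSeries ℤ_[p]) * PowerSeries.X)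
      (B * ((pc s n : ℤ_[p][X]) : PowerSeries ℤ_[p])) := by
  have h0 := LL_a' hs n
  have h1 := LL_c' hs n
  rw [← coe_a, ← hn] at h0
  rw [← coe_c, ← hn] at h1
  exact Cl_sol (a_coeff0 s n) hB ⟨PowerSeries.X, rfl⟩ (Dl_a hs hn h3) h0 h1

theorem Cl_d {B : PowerSeries ℤ_[p]} (hB : ((pa s n : ℤ_[p][X]) : PowerSeries ℤ_[p]) * B = 1) :
    Cl ((pa s n : ℤ_[p][X]) : PowerSeries ℤ_[p])
      (-(8 * PowerSeries.C s * (p : PowerSeries ℤ_[p])) * (1 - 2 * PowerSeries.X))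
      (B * ((pd ℤ_[p] n : ℤ_[p][X]) : PowerSeries ℤ_[p])) := by
  have h0 := LL_a' hs n
  have h1 := LL_d' hs n
  rw [← coe_a, ← hn] at h0
  rw [← coe_d, ← hn] at h1
  exact Cl_sol (a_coeff0 s n) hB ⟨-(8 * PowerSeries.C s) * (1 - 2 * PowerSeries.X), by ring⟩
    (Dl_a hs hn h3) h0 h1

theorem s_bar : (16 : ZMod p) * PadicInt.toZMod s = 1 := by
  have := congrArg PadicInt.toZMod hs
  rw [map_mul, map_ofNat, map_one] at this
  exact this

theorem rp_a_deg : (rp (pa s n)).natDegree < p := by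
  rw [rp_apply, map_a]
  have := nd_a (PadicInt.toZMod s) n
  omega

theorem rp_a0 : (rp (pa s n)).coeff 0 = 1 := by
  rw [rp_apply, map_a, coeff_zero_eq_eval_zero, a_at0]

/-- `b ≡ a` modulo `p` -/
theorem rp_b : rp (pb s n) = rp (pa s n) := by
  obtain ⟨B, hB⟩ := exists_B s n
  have h1 := prop_modp (a_coeff0 s n) hB ⟨-(1 - PowerSeries.X), by ring⟩ (Cl_b hs hn h3 hB)
  have h2 := uniq p (rp_a0 hs hn h3) h1 (rp_a_deg hs hn h3) (by
    rw [rp_apply, map_b]
    have := nd_b (PadicInt.toZMod s) n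
    omega)
  rw [h2]
  have h0 : (rp (pb s n)).coeff 0 = 1 := by
    rw [rp_apply, map_b, coeff_zero_eq_eval_zero, b_at0, u2_n hn, neg_pow (PadicInt.toZMod s), s_pow hn (s_bar hs hn h3),
      mul_one, ← mul_pow]
    simp
  rw [h0, C_1, one_mul]

/-- `c ≡ a` modulo `p` -/
theorem rp_c : rp (pc s n) = rp (pa s n) := by
  obtain ⟨B, hB⟩ := exists_B s n
  have h1 := prop_modp (a_coeff0 s n) hB ⟨PowerSeries.X, rfl⟩ (Cl_c hs hn h3 hB)
  have h2 := uniq p (rp_a0 hs hn h3) h1 (rp_a_deg hs hn h3) (by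
    rw [rp_apply, map_c]
    have := nd_c (PadicInt.toZMod s) n
    omega)
  rw [h2]
  have h0 : (rp (pc s n)).coeff 0 = 1 := by
    rw [rp_apply, map_c, coeff_zero_eq_eval_zero, c_at0]
  rw [h0, C_1, one_mul]

/-- `d ≡ (-1)^n a` modulo `p` -/
theorem rp_d : rp (pd ℤ_[p] n) = C ((-1) ^ n) * rp (pa s n) := by
  obtain ⟨B, hB⟩ := exists_B s n
  have h1 := prop_modp (a_coeff0 s n) hB
    ⟨-(8 * PowerSeries.C s) * (1 - 2 * PowerSeries.X), by ring⟩ (Cl_d hs hn h3 hB)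
  have h2 := uniq p (rp_a0 hs hn h3) h1 (rp_a_deg hs hn h3) (by
    rw [rp_apply, map_d]
    have := nd_d (A := ZMod p) n
    omega)
  rw [h2]
  have h0 : (rp (pd ℤ_[p] n)).coeff 0 = (-1) ^ n := by
    rw [rp_apply, map_d, coeff_zero_eq_eval_zero, d_at0, u2_n hn]
  rw [h0]

/-- `a ≡ T ^ 2` modulo `p` -/
theorem rp_T : rp (pa s n) = rp (pT s n) ^ 2 := by
  obtain ⟨B, hB⟩ := exists_B s n
  have h0 := LL_a' hs n
  rw [← coe_a, ← hn] at h0
  have hT := T_eps' hs n hn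
  have h1 : (p : PowerSeries ℤ_[p]) ∣ LL (dl p) (qq s) 0 ((pT s n * pT s n : ℤ_[p][X]) : PowerSeries ℤ_[p]) := by
    rw [Polynomial.coe_mul, sym2]
    apply dvd_add
    · exact Dvd.dvd.mul_left hT _
    · obtain ⟨e, he⟩ := hT
      rw [he, der_mul, dl_p, mul_zero, add_zero]
      exact ⟨2 * ((pT s n : ℤ_[p][X]) : PowerSeries ℤ_[p]) * dl p e, by ring⟩
  have h2 := modp_sol (a_coeff0 s n) hB ((dvd_pow_self _ (by norm_num)).trans (Dl_a hs hn h3))
    ((dvd_pow_self _ (by norm_num)).trans h0) h1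
  have hd : (rp (pT s n)).natDegree ≤ n := by
    rw [rp_apply, map_T]; unfold pT
    apply natDegree_sum_le_of_forall_le
    intro k hk
    rw [Finset.mem_range] at hk
    refine (natDegree_C_mul_le _ _).trans ?_
    rw [natDegree_X_pow]; omega
  have h4 := uniq p (rp_a0 hs hn h3) h2 (rp_a_deg hs hn h3) (by
    rw [map_mul]
    refine lt_of_le_of_lt natDegree_mul_le ?_
    omega)
  have h5 : (rp (pT s n * pT s n)).coeff 0 = 1 := by
    rw [rp_apply, Polynomial.map_mul, map_T, mul_coeff_zero, coeff_zero_eq_eval_zero]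
    have : (pT (PadicInt.toZMod s) n).eval 0 = 1 := by
      unfold pT
      rw [eval_finsetSum, Finset.sum_eq_single 0]
      · simp
      · intro k _ hk; simp [zero_pow hk]
      · intro h; simp at h
    rw [this, one_mul]
  rw [h5, C_1, one_mul, map_mul] at h4
  rw [← h4]; ring

omit hs h3 in
theorem T_deg (hs' : (16 : ZMod p) * PadicInt.toZMod s = 1) : (rp (pT s n)).natDegree = n := by
  rw [rp_apply, map_T]
  have h1 : (pT (PadicInt.toZMod s) n).natDegree ≤ n := by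
    unfold pT
    apply natDegree_sum_le_of_forall_le
    intro k hk
    rw [Finset.mem_range] at hk
    refine (natDegree_C_mul_le _ _).trans ?_
    rw [natDegree_X_pow]; omega
  apply le_antisymm h1
  apply le_natDegree_of_ne_zero
  have hc : (pT (PadicInt.toZMod s) n).coeff n =
      ((Nat.centralBinom n : ZMod p)) ^ 2 * (PadicInt.toZMod s) ^ n := by
    unfold pT
    rw [finsetSum_coeff, Finset.sum_eq_single n]
    · rw [coeff_C_mul, coeff_X_pow_self, mul_one]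
    · intro k _ hk
      rw [coeff_C_mul, coeff_X_pow, if_neg (Ne.symm hk), mul_zero]
    · intro h; simp at h
  rw [hc, cb_n hn, s_pow hn hs']
  simp

theorem T_sep : IsCoprime (rp (pT s n)) (derivative (rp (pT s n))) := by
  have ha := rp_T hs hn h3
  have e0 : (rp (pT s n)).eval 0 ^ 2 = 1 := by
    rw [← eval_pow, ← ha, rp_apply, map_a, a_at0]
  have e1 : (rp (pT s n)).eval 1 ^ 2 = 1 := by
    rw [← eval_pow, ← ha, rp_apply, map_a, a_at1]
  apply sep p _ _ _ (T_ode hs n hn)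
  · rw [T_deg hn (s_bar hs hn h3)]; omega
  · intro h; rw [h] at e0; norm_num at e0
  · intro h; rw [h] at e1; norm_num at e1

theorem T_ne : rp (pT s n) ≠ 0 := by
  intro h
  have ha := rp_T hs hn h3
  have e0 : (rp (pT s n)).eval 0 ^ 2 = 1 := by
    rw [← eval_pow, ← ha, rp_apply, map_a, a_at0]
  rw [h] at e0; norm_num at e0

/-- The final form of the engine: `E = a ^ m * ψ`. -/
theorem final_engine {E Ej : ℤ_[p][X]} {ω ψ : PowerSeries ℤ_[p]}
    (hω : (p : PowerSeries ℤ_[p]) ∣ ω) (hC : Cl ((pa s n : ℤ_[p][X]) : PowerSeries ℤ_[p]) ω ψ) (m : ℕ)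
    (hE : (E : PowerSeries ℤ_[p]) = ((pa s n : ℤ_[p][X]) : PowerSeries ℤ_[p]) ^ m * ψ) {j : ℕ} (hj : j ≤ 2)
    (e : E = C (p : ℤ_[p]) ^ j * Ej) :
    rp (pT s n) * derivative (rp Ej) = ((2 * m : ℕ) : (ZMod p)[X]) * derivative (rp (pT s n)) * rp Ej := by
  have h1 := pengine (a_coeff0 s n) hω hC m hE hj e
  have h2 : derivative (rp (pT s n) ^ 2) = 2 * rp (pT s n) * derivative (rp (pT s n)) := by
    rw [pow_two, derivative_mul]; ring
  rw [rp_T hs hn h3, h2] at h1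
  apply mul_left_cancel₀ (T_ne hs hn h3)
  push_cast
  linear_combination h1

end

end Pool.Agent.H78.FS
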